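import Pool.Agent.Q92.AR.Stm

/-!
# Project AR, second part: Frobenius elements, L-functions, cyclotomic crossing, reciprocity
-/

set_option autoImplicit false
set_option linter.unusedSectionVars false
set_option linter.deprecated false

namespace Pool.Agent.Q92.AR

open NumberField IsDedekindDomain Pool.Agent.Q5.BR

/-! ## Part F: Frobenius elements -/

/-- JOB RF. There is an `N` divisible by all primes of `F` that ramify in `E` (different ideal or
discriminant; compare `Pool.Agent.Q92.RT.ramified_finite`). -/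
def S_RF : Prop := ∀ (F E : Type) [Field F] [NumberField F] [Field E] [NumberField E] [Algebra F E],
  ∃ N : ℕ, N ≠ 0 ∧ Ram F E N

/-- JOB CHEB. Every element of the Galois group is the Frobenius element of a prime outside a given
finite set.  Proof: extend `g` to an element `g'` of the Galois group over `ℚ` of the normal closure of
`M`, fixing `F`; by the theorem of Chebotarev over `ℚ` (`Pool.Agent.W401.Cheb.chebotarev`; there is
also a form over number fields, `Pool.Agent.Q15.GRNT.chebK` or `Pool.Agent.W352.ChAbs`) `g'` is the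
Frobenius element of infinitely many primes; the prime of `F` below has degree one since `g'` fixes
`F`. -/
def S_Cheb : Prop := ∀ (F M : Type) [Field F] [NumberField F] [Field M] [NumberField M] [Algebra F M]
  [IsGalois F M] (g : M ≃ₐ[F] M) (B : Set (HeightOneSpectrum (𝓞 F))), B.Finite →
  ∃ v : HeightOneSpectrum (𝓞 F), v ∉ B ∧ Unramified M v ∧ IsFrobenius v g

/-- JOB FR. Frobenius elements under restriction and change of the base field.
(1) restriction to `E`; (2) restriction of scalars from `L` to `F` at a prime of relative degree one;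
(3) a prime above an unramified one is unramified; (4) the order of a Frobenius element at an
unramified prime is the residue degree of any prime above. -/
def S_FR : Prop :=
  (∀ (F E M : Type) [Field F] [NumberField F] [Field E] [NumberField E] [Field M] [NumberField M]
    [Algebra F E] [Algebra E M] [Algebra F M] [IsScalarTower F E M] [IsGalois F E] [IsGalois F M]
    (v : HeightOneSpectrum (𝓞 F)) (g : M ≃ₐ[F] M), IsFrobenius v g →
    IsFrobenius v (AlgEquiv.restrictNormal g E)) ∧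
  (∀ (F L M : Type) [Field F] [NumberField F] [Field L] [NumberField L] [Field M] [NumberField M]
    [Algebra F L] [Algebra L M] [Algebra F M] [IsScalarTower F L M]
    (w : HeightOneSpectrum (𝓞 L)) (g : M ≃ₐ[L] M), IsFrobenius w g → rdeg F w = 1 →
    IsFrobenius (w.under (𝓞 F)) (AlgEquiv.restrictScalars F g)) ∧
  (∀ (F L M : Type) [Field F] [NumberField F] [Field L] [NumberField L] [Field M] [NumberField M]
    [Algebra F L] [Algebra L M] [Algebra F M] [IsScalarTower F L M]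
    (w : HeightOneSpectrum (𝓞 L)), Unramified M (w.under (𝓞 F)) → Unramified M w) ∧
  (∀ (F E : Type) [Field F] [NumberField F] [Field E] [NumberField E] [Algebra F E] [IsGalois F E]
    (w : HeightOneSpectrum (𝓞 E)) (g : E ≃ₐ[F] E), Unramified E (w.under (𝓞 F)) →
    IsFrobenius (w.under (𝓞 F)) g → orderOf g = rdeg F w)

/-- JOB NKER. Norms lie in the kernel of the Artin map (from `S_FR` (4)), and the kernel of an injective
`ψ` has index `[E : F]` in the divisors prime to `N` (`S_Cheb`); for ramified or not `N ≠ 0`. -/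
def S_NKer : Prop := ∀ (F E : Type) [Field F] [NumberField F] [Field E] [NumberField E] [Algebra F E]
  [IsGalois F E] (ψ : (E ≃ₐ[F] E) →* ℂˣ) (N : ℕ), N ≠ 0 →
  (Ram F E N → ∀ D ∈ Pr E N, art ψ (nmD F E D) = 0) ∧
  (Function.Injective ψ → (art ψ).ker.relIndex (Pr F N) = Module.finrank F E)

/-! ## Part G: Hecke L-functions and the second inequality -/

/-- the L-function of a character `χ` of the divisors, without the Euler factors at the primes
dividing `N` (as the exponential of its logarithm, for `Re s > 1`) -/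
noncomputable def Lc {F : Type} [Field F] [NumberField F] (N : ℕ) (χ : Dv F →+ Additive ℂˣ) (s : ℂ) :
    ℂ := by
  classical
  exact Complex.exp (∑' x : HeightOneSpectrum (𝓞 F) × ℕ, if (N : 𝓞 F) ∈ x.1.asIdeal then 0 else
    (((χ (Finsupp.single x.1 1)).toMul : ℂˣ) : ℂ) ^ (x.2 + 1) /
      (((x.2 + 1 : ℕ) : ℂ) * (Ideal.absNorm x.1.asIdeal : ℂ) ^ (((x.2 + 1 : ℕ) : ℂ) * s)))

/-- JOB PRIM. Every ray class character is induced by a primitive one.  `ψ` is a character of the ideals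
prime to `𝔪`, trivial on the principal ideals generated by totally positive `x ≡ 1 mod 𝔪`; `ψ'` is
primitive of conductor `𝔣`, with signature `e`, in the sense of `Pool.Agent.Y773.G.IsPrimChar`,
`IsModChar` and `Pool.Agent.Q246.Unr.UC` (compare
`Pool.Agent.Results.MP_873b76_nt.UniformDerivatives.pk_ray`); there `TPos K x` is `x` totally positive.
Proof: let `𝔣` be a divisor of `𝔪`, minimal (for divisibility) with the property: `ψ((x)) = 1` for all
totally positive `x ≡ 1 mod 𝔣` prime to `𝔪`.  For `𝔞` prime to `𝔣` choose `y ≡ 1 mod 𝔣`, totally positive,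
in `F`, with `y 𝔞` prime to `𝔪`; `ψ'(𝔞) = ψ(y 𝔞)`. The signs: `x ↦ ψ'((x))` on the `x ≡ 1 mod 𝔣` depends
only on the signs of `x` and is a homomorphism. -/
def S_Prim : Prop := ∀ (K : Type) [Field K] [NumberField K] (𝔪 : Ideal (𝓞 K))
  (ψ : Ideal (𝓞 K) →*₀ ℂ), 𝔪 ≠ ⊥ → (∀ 𝔞 : Ideal (𝓞 K), 𝔞 ≠ ⊥ → (ψ 𝔞 ≠ 0 ↔ IsCoprime 𝔞 𝔪)) →
  (∀ x : 𝓞 K, x ≠ 0 → x - 1 ∈ 𝔪 → Pos (x : K) → ψ (Ideal.span {x}) = 1) →
  ∃ (𝔣 : Ideal (𝓞 K)) (e : InfinitePlace K → ℕ) (ψ' : Ideal (𝓞 K) →*₀ ℂ), 𝔣 ∣ 𝔪 ∧ 𝔣 ≠ ⊥ ∧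
  (∀ w, e w ≤ 1) ∧ (∀ w : InfinitePlace K, w.IsComplex → e w = 0) ∧
  (∀ 𝔞 : Ideal (𝓞 K), 𝔞 ≠ ⊥ → (ψ' 𝔞 ≠ 0 ↔ IsCoprime 𝔞 𝔣)) ∧
  (∀ x : 𝓞 K, x ≠ 0 → x - 1 ∈ 𝔣 → ψ' (Ideal.span {x}) =
    ∏ w : InfinitePlace K, (((SignType.sign (w.embedding (x : K)).re : SignType) : ℤ) : ℂ) ^ e w) ∧
  (∀ 𝔤 : Ideal (𝓞 K), 𝔤 ∣ 𝔣 → 𝔤 ≠ 𝔣 → ∃ x : 𝓞 K, x - 1 ∈ 𝔤 ∧ Pos (x : K) ∧
    IsCoprime (Ideal.span {x}) 𝔣 ∧ ψ' (Ideal.span {x}) ≠ 1) ∧
  (∀ 𝔞 : Ideal (𝓞 K), IsCoprime 𝔞 𝔪 → ψ' 𝔞 = ψ 𝔞)

/-- JOB HECKE. Hecke's theorem for `Lc`: if `χ` is trivial on the ray modulo `N ∞`, then `Lc N χ` has a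
meromorphic continuation, holomorphic for `Re s > 0` except perhaps for a simple pole at `s = 1`, and
holomorphic at `1` if `χ` is not trivial on the divisors prime to `N`.
Proof: `S_Prim` with `𝔪 = (N)`, the completed L-functions of the primitive characters
(`Pool.Agent.Results.MP_873b76_nt.UniformDerivatives.pk_ray` or `Pool.Agent.Q246.UnramPk`,
`HeckePk`; the Gamma factor has no zeros, and `1/Γ` is entire), and the Euler factors at the primes
dividing `N`, `1 - ψ'(v) q_v^(-s)`, which are entire; `χ` has finite order on `Pr F N` by `S_Fin`. -/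
def S_Hecke : Prop := ∀ (F : Type) [Field F] [NumberField F] (N : ℕ) (χ : Dv F →+ Additive ℂˣ), N ≠ 0 →
  (∀ x ∈ Ray F N, χ (prin x) = 0) → ∃ f : ℂ → ℂ, MeromorphicOn f Set.univ ∧
  (∀ s : ℂ, 1 < s.re → f s = Lc N χ s) ∧ (∀ s : ℂ, 0 < s.re → s ≠ 1 → AnalyticAt ℂ f s) ∧
  (-1 ≤ meromorphicOrderAt f 1) ∧ ((∃ D ∈ Pr F N, χ D ≠ 0) → AnalyticAt ℂ f 1)

/-- JOB SEC. The second inequality, for every extension `E/F` (Galois or not).
Proof: let `G` be the finite quotient `Pr F N / HN F E N` (`S_Fin`), of order `h`.  For a character `χ`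
of `G` (extended to `Dv F` by `0` on the primes dividing `N`) and real `s → 1+`:
`∑_χ log |Lc N χ s| = h ∑_{v, n : n v ∈ HN} 1 / (n q_v^(n s)) ≥ h ∑_{v ∈ HN} q_v^(-s)`; the left side is
`≤ log (1/(s-1)) + O(1)` by `S_Hecke`.  If `w` is a prime of `E` of relative degree one, not dividing `N`,
the prime `v` below is in `HN`; each `v` has at most `[E:F]` primes above, the primes of relative
degree `≥ 2` contribute `O(1)`; so `∑_{v ∈ HN} q_v^(-s) ≥ (1/[E:F]) log ζ_E(s) - O(1)
≥ (1/[E:F]) log (1/(s-1)) - O(1)` (Mathlib: `NumberField.tendsto_sub_one_mul_dedekindZeta_nhdsGT` or a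
similar name: the residue of the Dedekind zeta function is positive).  Hence `h ≤ [E:F]`. -/
def S_Sec : Prop := ∀ (F E : Type) [Field F] [NumberField F] [Field E] [NumberField E] [Algebra F E]
  (N : ℕ), N ≠ 0 → (HN F E N).relIndex (Pr F N) ≠ 0 ∧
  (HN F E N).relIndex (Pr F N) ≤ Module.finrank F E

/-! ## Part H: cyclotomic extensions -/

/-- JOB UNR. Unramified primes: (1) `F(ζ_m)/F` is unramified outside `m`; (2) towers; (3) composita with
cyclotomic extensions.
Proof of (1): `E/F` Galois is unramified at `v` iff no automorphism `g ≠ 1` satisfies `g x ≡ x mod w` for all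
integers `x` (`Pool.Agent.Q92.AR.rd_injective`, or Mathlib on inertia groups, or the different:
`pow_sub_one_dvd_differentIdeal` and the discriminant of `X^m - 1`); `g ζ ≡ ζ mod w`, `w ∤ m`, implies
`g ζ = ζ`. -/
def S_Unr : Prop :=
  (∀ (F C : Type) [Field F] [NumberField F] [Field C] [NumberField C] [Algebra F C] (m : ℕ) [NeZero m]
    [IsCyclotomicExtension {m} F C] (v : HeightOneSpectrum (𝓞 F)), (m : 𝓞 F) ∉ v.asIdeal →
    Unramified C v) ∧
  (∀ (F E C : Type) [Field F] [NumberField F] [Field E] [NumberField E] [Field C] [NumberField C]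
    [Algebra F E] [Algebra E C] [Algebra F C] [IsScalarTower F E C] (v : HeightOneSpectrum (𝓞 F)),
    Unramified E v → (∀ w : HeightOneSpectrum (𝓞 E), w.under (𝓞 F) = v → Unramified C w) →
    Unramified C v) ∧
  (∀ (F E C : Type) [Field F] [NumberField F] [Field E] [NumberField E] [Field C] [NumberField C]
    [Algebra F E] [Algebra E C] [Algebra F C] [IsScalarTower F E C] (m : ℕ) [NeZero m]
    [IsCyclotomicExtension {m} E C] (v : HeightOneSpectrum (𝓞 F)), Unramified E v →
    (m : 𝓞 F) ∉ v.asIdeal → Unramified C v)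

/-- JOB CYC. Reciprocity for subfields `E` of `C = F(ζ_m)`.
Proof: by `S_Frac` it is enough for integral `x`; a prime `v` not dividing `m` is unramified in `C`, its
Frobenius element is `ζ ↦ ζ^{q_v}`, with restriction `frob E v` to `E` (`S_FR` (1); Frobenius elements
are conjugate and `ψ` takes the same value on them); so `art ψ (prin x) = ψ(g|E)`,
`g ζ = ζ^{N(x)}`, where `N(x) = ∏ q_v^{v(x)} = |Norm_{F/ℚ} x| = Norm_{F/ℚ} x ≡ 1 mod m`. -/
def S_Cyc : Prop := ∀ (F E C : Type) [Field F] [NumberField F] [Field E] [NumberField E] [Field C]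
  [NumberField C] [Algebra F E] [Algebra E C] [Algebra F C] [IsScalarTower F E C] [IsGalois F E]
  (m : ℕ) [NeZero m] [IsCyclotomicExtension {m} F C] (N : ℕ), N ≠ 0 → m ∣ N →
  ∀ ψ : (E ≃ₐ[F] E) →* ℂˣ, ∀ x ∈ Ray F N, art ψ (prin x) = 0

/-- JOB CYCK. The kernel of the Artin map of a subfield `E` of `F(ζ_m)`: `S_Cyc` and `S_NKer` give
`HN ≤ ker (art ψ)`, both have index `≤ [E : F]` resp. `= [E : F]` (`S_Sec`). -/
def S_CycK : Prop := ∀ (F E C : Type) [Field F] [NumberField F] [Field E] [NumberField E] [Field C]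
  [NumberField C] [Algebra F E] [Algebra E C] [Algebra F C] [IsScalarTower F E C] [IsGalois F E]
  (m : ℕ) [NeZero m] [IsCyclotomicExtension {m} F C] (N : ℕ), N ≠ 0 → m ∣ N → Ram F E N →
  ∀ ψ : (E ≃ₐ[F] E) →* ℂˣ, Function.Injective ψ → ∀ D ∈ Pr F N, art ψ D = 0 → D ∈ HN F E N

/-- JOB CROSS. Crossing with a cyclotomic extension.  `C = E(ζ_m)`, abelian over `F`; `Φp`, `Φr` are
Frobenius elements of `C/F` at the primes `p`, `r`, and an element of the group `⟨Φp, Φr⟩` which fixes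
`ζ` is trivial.
Proof.  Let `L` be the field fixed by `H = ⟨Φp, Φr⟩` and `E' = L E` (inside `C`; all are intermediate
fields of `C/F`, make them `NumberField`s).  The group of `C / L(ζ)` is `H ∩ Gal(C/F(ζ)) = 1`, so
`C = L(ζ)`.  Since `Φr` restricts to a generator of `Gal(E/F)`, `E ∩ L = F` and `Gal(E'/L) → Gal(E/F)`
is bijective; let `ψ'` be the pull back of an injective `ψ` on `Gal(E/F)`.  `p` and `r` split completely
in `L`: there are primes `P`, `R` of `L` above them with `rdeg = 1`, and their Frobenius elements in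
`C/L` are `Φp`, `Φr` (the decomposition group at `p` is `⟨Φp⟩ ≤ H`).  So
`art ψ' (P - d R) = ψ(σ^d) - d ψ(σ) = 0`.  `S_CycK` for `L, E', C` and the modulus `N m` gives
`P - d R ∈ HN L E' (N m)`; take norms to `F` (`S_Tow`, `S_Nm`). -/
def S_Cross : Prop := ∀ (F E C : Type) [Field F] [NumberField F] [Field E] [NumberField E] [Field C]
  [NumberField C] [Algebra F E] [Algebra E C] [Algebra F C] [IsScalarTower F E C] [IsGalois F E]
  [IsGalois F C] (σ : E ≃ₐ[F] E), (∀ g : E ≃ₐ[F] E, g ∈ Subgroup.zpowers σ) →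
  (∀ g h : C ≃ₐ[F] C, g * h = h * g) → ∀ (m : ℕ) [NeZero m] [IsCyclotomicExtension {m} E C] (ζ : C),
  IsPrimitiveRoot ζ m → ∀ (p r : HeightOneSpectrum (𝓞 F)) (Φp Φr : C ≃ₐ[F] C) (d : ℕ) (N : ℕ),
  N ≠ 0 → Ram F E N → (N : 𝓞 F) ∉ p.asIdeal → (N : 𝓞 F) ∉ r.asIdeal → (m : 𝓞 F) ∉ p.asIdeal →
  (m : 𝓞 F) ∉ r.asIdeal → IsFrobenius p Φp → IsFrobenius r Φr →
  AlgEquiv.restrictNormal Φr E = σ → AlgEquiv.restrictNormal Φp E = σ ^ d →
  (∀ g ∈ Subgroup.closure {Φp, Φr}, g ζ = ζ → g = 1) →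
  Finsupp.single p 1 - (d : ℤ) • Finsupp.single r 1 ∈ HN F E N

/-- JOB ORD. Moduli prime to `B` for which the order of `a` is divisible by `n`.
Proof: for a prime power `n = l^k`: the numbers `(a^(l^j) - 1)/(a^(l^(j-1)) - 1)`, `j ≥ k`, have (for large
`j`) a prime factor `q ≠ l`, and the order of `a` modulo `q` is `l^j`; these `q` are different for
different `j`, so one of them does not divide `B`.  In general take the product. -/
def S_Ord : Prop := ∀ (a n B : ℕ), 2 ≤ a → n ≠ 0 → B ≠ 0 → ∃ m : ℕ, m ≠ 0 ∧ m.Coprime (a * B) ∧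
  ∀ k : ℕ, a ^ k ≡ 1 [MOD m] → n ∣ k

/-- JOB IRR. For `m` prime to the discriminant of `E` all automorphisms `ζ ↦ ζ^t` exist over `E`.
Proof: `E ∩ ℚ(ζ_m)` (inside `C`) is unramified over `ℚ` at the primes not dividing `m` and at those not
dividing the discriminant of `E`, so it is `ℚ` (Mathlib: Minkowski; look also for linear
disjointness of fields with coprime discriminants); so `[C : E] = φ(m)`. -/
def S_Irr : Prop := ∀ (E : Type) [Field E] [NumberField E], ∃ B : ℕ, B ≠ 0 ∧ ∀ (m : ℕ) [NeZero m],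
  m.Coprime B → ∀ (C : Type) [Field C] [NumberField C] [Algebra E C] [IsCyclotomicExtension {m} E C],
  ∀ t : ℕ, t.Coprime m → ∃ τ : C ≃ₐ[E] C, ∀ ζ : C, ζ ^ m = 1 → τ ζ = ζ ^ t

/-- JOB CLS. Two primes `p`, `p'` are compared with one prime `r` with Frobenius element `σ`.
Proof: `a = q_p`, `b = q_p'` (absolute norms); by `S_Ord` there are pairwise coprime `m1, m2` (for `a`)
and `m3, m4` (for `b`), prime to `N`, to `a b` and to the `B` of `S_Irr` for `E`, with `[E:F]` dividing
the orders of `a` mod `m1`, mod `m2` and of `b` mod `m3`, mod `m4`.  Let `m` be the product,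
`C = E(ζ_m)` (`CyclotomicField m E`), and `t ≡ 1, a, 1, b` mod `m1, m2, m3, m4`.  There is a
`Φ ∈ Gal(C/F)` with `Φ|E = σ`, `Φ ζ = ζ^t` (`S_Irr`; `Gal(C/F)` is abelian since its elements are
determined by their restrictions to `E` and to `ζ`), and by `S_Cheb` a prime `r` not dividing `N m`,
with Frobenius element `Φ`.  If `g = Φp^x Φ^y` fixes `ζ`, then `a^x t^y = 1` mod `m`, so `n ∣ x` (mod `m1`),
`n ∣ x + y` (mod `m2`), so `g|E = 1` and `g = 1`.  Use `S_Cross` twice.  (`x`, `y` are integers: reduce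
to natural numbers modulo the order of the group.) -/
def S_Cls : Prop := ∀ (F E : Type) [Field F] [NumberField F] [Field E] [NumberField E] [Algebra F E]
  [IsGalois F E] (σ : E ≃ₐ[F] E), (∀ g : E ≃ₐ[F] E, g ∈ Subgroup.zpowers σ) →
  ∀ (N : ℕ), N ≠ 0 → Ram F E N → ∀ (p p' : HeightOneSpectrum (𝓞 F)) (d d' : ℕ),
  (N : 𝓞 F) ∉ p.asIdeal → (N : 𝓞 F) ∉ p'.asIdeal → frob E p = σ ^ d → frob E p' = σ ^ d' →
  ∃ r : HeightOneSpectrum (𝓞 F), (N : 𝓞 F) ∉ r.asIdeal ∧
  Finsupp.single p 1 - (d : ℤ) • Finsupp.single r 1 ∈ HN F E N ∧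
  Finsupp.single p' 1 - (d' : ℤ) • Finsupp.single r 1 ∈ HN F E N

/-! ## Part I: reciprocity -/

/-- JOB ARC. Reciprocity for cyclic extensions.
Proof.  Let `N` be from `S_First`, `ψ` injective (the group is cyclic), `n = [E : F]`.  By `S_Cheb` there
is a prime `r0` not dividing `N` with `frob E r0 = σ`; `S_Cls` for `p`, `r0` gives
`p - d_p r0 ∈ HN` for all `p`, and `n r0` is the norm of the prime above `r0`.  So every `D ∈ Pr F N` with
`art ψ D = 0` lies in `HN F E N`.  The index of the kernel is `n` (`S_NKer`), that of `HN` is `≥ n` (or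
infinite, which `S_Sec` excludes), hence `HN = ker` in `Pr F N`, in particular the ray is in the kernel of
`art ψ`, and so in the kernel of every `art ψ'`. -/
def S_ARc : Prop := ∀ (F E : Type) [Field F] [NumberField F] [Field E] [NumberField E] [Algebra F E]
  [IsGalois F E] (σ : E ≃ₐ[F] E), (∀ g : E ≃ₐ[F] E, g ∈ Subgroup.zpowers σ) →
  ∃ N : ℕ, N ≠ 0 ∧ Ram F E N ∧ ∀ (ψ : (E ≃ₐ[F] E) →* ℂˣ), ∀ x ∈ Ray F N, art ψ (prin x) = 0

/-- JOB AR. **Artin's law of reciprocity**: from `S_ARc` for the field fixed by the kernel of `ψ`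
(a finite subgroup of `ℂˣ` is cyclic), `S_FR` (1), `S_RF`. -/
def S_AR : Prop := ∀ (F M : Type) [Field F] [NumberField F] [Field M] [NumberField M] [Algebra F M]
  [IsGalois F M] (ψ : (M ≃ₐ[F] M) →* ℂˣ), ∃ N : ℕ, N ≠ 0 ∧ Ram F M N ∧
  ∀ x ∈ Ray F N, art ψ (prin x) = 0

end Pool.Agent.Q92.AR
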