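import Pool.Agent.Q92.AR.Fin
import Pool.Agent.Q150.AR.Hex
import Pool.Agent.Q150.AR.Eps
import Pool.Agent.Q225.AR.Perm
import Pool.Agent.Q225.AR.FR
import Pool.Agent.Q225.AR.Fin
import Pool.Agent.Q225.AR.Q1
import Pool.Agent.Q95.AR.UH
import Pool.Agent.Q149.AR.VA
import Pool.Agent.Q149.AR.SD
import Pool.Agent.Q84.AR.Frac
import Pool.Agent.Q84.AR.Hecke
import Pool.Agent.Q84.AR.Ord
import Pool.Agent.Q106.AR.NmB
import Pool.Agent.Q280.AR.Tow
import Pool.Agent.Q280.AR.Unr
import Pool.Agent.Q280.AR.Irr
import Pool.Agent.Q182.AR.Has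
import Pool.Agent.Q182.AR.First
import Pool.Agent.Q14.AR.Cheb
import Pool.Agent.Q125.AR.NKer
import Pool.Agent.Q125.AR.Arc
import Pool.Agent.Q125.AR.Final
import Pool.Agent.Q264.AR.Prim
import Pool.Agent.Q128.AR.Sec3
import Pool.Agent.Q128.AR.Cls
import Pool.Agent.Q257.AR.Cyc
import Pool.Agent.Q129.AR.Cross
import Pool.Agent.Q150.AR.Cliff
import Pool.Agent.Q150.AR.Mono
import Pool.Agent.Q299.AR.Brauer

/-!
# The reciprocity law of Artin and the continuation of the Artin L-functions

Everything in project AR put together, nothing assumed: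

* `recip : S_AR` (Artin's reciprocity law for the characters of Galois groups of number fields: they
  are ray class characters),
* `hecke : S_Hecke` (L-functions of ray class characters), `brauer : S_Brauer` (induction theorem),
* `continued`: the Artin L-functions of a Galois extension `M/K` of number fields have a meromorphic
  continuation, and the L-functions of the linear characters of the subgroups are holomorphic for
  `Re s > 0`, `s ≠ 1`.
-/

set_option autoImplicit false
set_option linter.unusedSectionVars false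

namespace Pool.Agent.Q92.AR

theorem all_Fin : S_Fin := Pool.Agent.Q225.AR.fin

theorem all_SD : S_SD := Pool.Agent.Q149.AR.sd Pool.Agent.Q225.AR.perm

theorem all_Q1 : S_Q1 := Pool.Agent.Q225.AR.q1one all_SD Pool.Agent.Q106.AR.nm

theorem all_UH : S_UH := Pool.Agent.Q95.AR.uh Pool.Agent.Q150.AR.hex Pool.Agent.Q150.AR.hFin
  Pool.Agent.Q225.AR.perm Pool.Agent.Q150.AR.mat Pool.Agent.Q150.AR.eps

theorem all_HAS : S_HAS := Pool.Agent.Q182.AR.has Pool.Agent.Q150.AR.hex
  Pool.Agent.Q150.AR.hFin all_SD all_UH all_Fin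

/-- The first inequality of class field theory (cyclic extensions). -/
theorem all_First : S_First := Pool.Agent.Q182.AR.first
  Pool.Agent.Q149.AR.va all_Fin Pool.Agent.Q84.AR.sgn Pool.Agent.Q106.AR.nm all_SD all_Q1 all_HAS
  Pool.Agent.Q280.AR.rF

/-- **Hecke's theorem** for ray class characters. -/
theorem hecke : S_Hecke := Pool.Agent.Q84.AR.hecke Pool.Agent.Q264.AR.prim

/-- The second inequality of class field theory. -/
theorem all_Sec : S_Sec := Pool.Agent.Q128.AR.sec all_Fin hecke

theorem all_Cyc : S_Cyc := Pool.Agent.Q257.AR.cyc Pool.Agent.Q84.AR.frac Pool.Agent.Q225.AR.fr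
  Pool.Agent.Q280.AR.unr

theorem all_NKer : S_NKer := Pool.Agent.Q125.AR.nker Pool.Agent.Q225.AR.fr Pool.Agent.Q14.AR.cheb

theorem all_CycK : S_CycK := Pool.Agent.Q125.AR.cycK all_Cyc all_NKer all_Sec

theorem all_Cross : S_Cross := Pool.Agent.Q129.AR.cross all_CycK
  Pool.Agent.Q280.AR.unr Pool.Agent.Q225.AR.fr Pool.Agent.Q106.AR.nm Pool.Agent.Q280.AR.tow

theorem all_Cls : S_Cls := Pool.Agent.Q128.AR.cls all_Cross
  Pool.Agent.Q84.AR.ord Pool.Agent.Q280.AR.irr Pool.Agent.Q14.AR.cheb Pool.Agent.Q225.AR.fr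

theorem all_ARc : S_ARc := Pool.Agent.Q125.AR.arc Pool.Agent.Q225.AR.fr
  Pool.Agent.Q14.AR.cheb all_Cls all_NKer all_Sec all_First

/-- **Artin's reciprocity law.** For every Galois extension `M/F` of number fields and every
character `ψ` of its Galois group there is an `N ≠ 0` such that `∏ ψ(Frob_v)^{v(x)} = 1` for all
`x ∈ Fˣ`, `x ≡ 1` modulo `N`, `x` totally positive. -/
theorem recip : S_AR := Pool.Agent.Q125.AR.ar all_ARc
  Pool.Agent.Q225.AR.fr Pool.Agent.Q280.AR.rF

/-- **Brauer's induction theorem.** -/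
theorem brauer : S_Brauer := Pool.Agent.Q299.AR.brauer Pool.Agent.Q150.AR.mono

/-- **The Artin L-functions of a Galois extension `M/K` of number fields** have a meromorphic
continuation, and those of the linear characters of the subgroups have no pole at `s₀`,
`Re s₀ > 0`, `s₀ ≠ 1`. Nothing is assumed. -/
theorem continued {K M : Type} [Field K] [NumberField K] [Field M]
    [NumberField M] [Algebra K M] [IsGalois K M] {s₀ : ℂ} (h0 : 0 < s₀.re) (h1 : s₀ ≠ 1) :
    Continued (K := K) M s₀ :=
  continued_of recip hecke brauer h0 h1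

end Pool.Agent.Q92.AR
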