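import Pool.Agent.Q92.AR.Fro
import Pool.Agent.Q92.RT.Ind

/-! The values of an induced character at the powers of a Frobenius element. -/

set_option autoImplicit false
set_option linter.unusedSectionVars false
set_option linter.deprecated false

namespace Pool.Agent.Q92.AR

open NumberField IsDedekindDomain Filter Pool.Agent.W401.Cheb Pool.Agent.W353.NF Pool.Agent.Q5.BR
  Pool.Agent.Q92.PA
open Pool.Agent.Q92.RT (induced)

section
variable {K F : Type} [Field K] [NumberField K] [Field F] [NumberField F] [Algebra K F]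
  {v : HeightOneSpectrum (𝓞 K)} {σ : GK K} {Q : Ideal (𝓞 (AlgebraicClosure K))}

/-- the prime given by an embedding -/
theorem exists_pr (hQm : Q.IsMaximal)
    (hQv : Q.comap (algebraMap (𝓞 K) (𝓞 (AlgebraicClosure K))) = v.asIdeal)
    (i : F →ₐ[K] AlgebraicClosure K) :
    ∃ w : HeightOneSpectrum (𝓞 F), w.under (𝓞 K) = v ∧ ∀ a, oi i a ∈ Q ↔ a ∈ w.asIdeal := by
  have hQp : Q.IsPrime := hQm.isPrime
  have hc : (Q.comap (oi i)).comap (algebraMap (𝓞 K) (𝓞 F)) = v.asIdeal := by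
    rw [← hQv]
    ext a
    rw [Ideal.mem_comap, Ideal.mem_comap, Ideal.mem_comap, oi_alg]
  refine ⟨⟨Q.comap (oi i), Ideal.comap_isPrime _ _, fun h => v.ne_bot ?_⟩, ?_, fun a => Iff.rfl⟩
  · rw [← hc, h]
    rw [← RingHom.ker_eq_comap_bot]
    exact (RingHom.injective_iff_ker_eq_bot _).1 (FaithfulSMul.algebraMap_injective (𝓞 K) (𝓞 F))
  · apply HeightOneSpectrum.ext
    exact hc

/-- the reductions with values in the extension of degree `n`, zero on `w` -/
def Rn (K : Type) {F : Type} [Field K] [NumberField K] [Field F] [NumberField F] [Algebra K F]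
    (Q : Ideal (𝓞 (AlgebraicClosure K))) (q : ℕ) (w : HeightOneSpectrum (𝓞 F)) (n : ℕ) : Type :=
  {r : 𝓞 F →+* (𝓞 (AlgebraicClosure K) ⧸ Q) //
      ((∃ i : F →ₐ[K] AlgebraicClosure K, rd Q i = r) ∧
        ∀ a, r a ^ (q ^ n) = r a) ∧ ∀ a, r a = 0 ↔ a ∈ w.asIdeal}

theorem Rn_finite (q : ℕ) (w : HeightOneSpectrum (𝓞 F)) (n : ℕ) : Finite (Rn K Q q w n) := by
  refine Finite.of_surjective (α := {i : F →ₐ[K] AlgebraicClosure K //
      ((∃ j : F →ₐ[K] AlgebraicClosure K, rd Q j = rd Q i) ∧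
        ∀ a, rd Q i a ^ (q ^ n) = rd Q i a) ∧
          ∀ a, rd Q i a = 0 ↔ a ∈ w.asIdeal}) (fun i => ⟨rd Q i.1, i.2⟩) ?_
  rintro ⟨r, ⟨⟨i, rfl⟩, h1⟩, h2⟩
  exact ⟨⟨i, ⟨⟨i, rfl⟩, h1⟩, h2⟩, rfl⟩

theorem fixed_iff (hv : Unramified F v) (hQm : Q.IsMaximal)
    (hQv : Q.comap (algebraMap (𝓞 K) (𝓞 (AlgebraicClosure K))) = v.asIdeal)
    (hQ : ∀ x : 𝓞 (AlgebraicClosure K), σ • x - x ^ Ideal.absNorm v.asIdeal ∈ Q)
    {i : F →ₐ[K] AlgebraicClosure K} {w : HeightOneSpectrum (𝓞 F)} (hw : w.under (𝓞 K) = v)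
    (hi : ∀ a, oi i a ∈ Q ↔ a ∈ w.asIdeal) (n : ℕ) :
    act K F (σ ^ n) i = i ↔ rdeg K w ∣ n := by
  classical
  have hcn : ∀ n, Nat.card (Rn K Q (Ideal.absNorm v.asIdeal) w n) =
      if rdeg K w ∣ n then rdeg K w else 0 := fun n => card_red v σ hQm hQv hQ w hw n
  have hz : ∀ a, rd Q i a = 0 ↔ a ∈ w.asIdeal := fun a => rd_zero_iff.trans (hi a)
  have hfin := fun n => Rn_finite (K := K) (Q := Q) (Ideal.absNorm v.asIdeal) w n
  constructor
  · intro h
    by_contra hn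
    have h1 := hcn n
    rw [if_neg hn, Nat.card_eq_zero] at h1
    rcases h1 with h1 | h1
    · refine h1.false ⟨rd Q i, ⟨⟨i, rfl⟩, fun a => ?_⟩, hz⟩
      rw [← rd_frob hQ, h]
    · exact absurd (hfin n) (not_finite_iff_infinite.2 h1)
  · intro h
    have h0 := hcn 0
    rw [if_pos (dvd_zero _)] at h0
    have h1 := hcn n
    rw [if_pos h] at h1
    let f : Rn K Q (Ideal.absNorm v.asIdeal) w n → Rn K Q (Ideal.absNorm v.asIdeal) w 0 :=
      fun r => ⟨r.1, ⟨r.2.1.1, fun a => by rw [pow_zero, pow_one]⟩, r.2.2⟩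
    have hf : Function.Injective f := by
      intro r s hrs
      apply Subtype.ext
      have h5 : (f r).1 = (f s).1 := by rw [hrs]
      exact h5
    have := hfin n
    have := hfin 0
    have hb : Function.Bijective f :=
      (Nat.bijective_iff_injective_and_card f).2 ⟨hf, by rw [h0, h1]⟩
    obtain ⟨r, hr⟩ := hb.2 ⟨rd Q i, ⟨⟨i, rfl⟩, fun a => by rw [pow_zero, pow_one]⟩, hz⟩
    have hr1 : r.1 = rd Q i := congrArg Subtype.val hr
    apply rd_injective hv hQm hQv hQ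
    ext a
    rw [rd_frob hQ, ← hr1]
    exact r.2.1.2 a

theorem card_emb (hv : Unramified F v) (hQm : Q.IsMaximal)
    (hQv : Q.comap (algebraMap (𝓞 K) (𝓞 (AlgebraicClosure K))) = v.asIdeal)
    (hQ : ∀ x : 𝓞 (AlgebraicClosure K), σ • x - x ^ Ideal.absNorm v.asIdeal ∈ Q)
    {w : HeightOneSpectrum (𝓞 F)} (hw : w.under (𝓞 K) = v) :
    Nat.card {i : F →ₐ[K] AlgebraicClosure K // ∀ a, oi i a ∈ Q ↔ a ∈ w.asIdeal} = rdeg K w := by
  have h0 : Nat.card (Rn K Q (Ideal.absNorm v.asIdeal) w 0) = rdeg K w := by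
    have h := card_red v σ hQm hQv hQ w hw 0
    rw [if_pos (dvd_zero _)] at h
    exact h
  rw [← h0]
  refine Nat.card_eq_of_bijective (fun i => ⟨rd Q i.1, ⟨⟨i.1, rfl⟩, fun a => by
    rw [pow_zero, pow_one]⟩, fun a => rd_zero_iff.trans (i.2 a)⟩) ⟨?_, ?_⟩
  · intro i j hij
    exact Subtype.ext (rd_injective hv hQm hQv hQ (congrArg Subtype.val hij))
  · rintro ⟨r, ⟨⟨i, rfl⟩, h1⟩, h2⟩
    exact ⟨⟨i, fun a => rd_zero_iff.symm.trans (h2 a)⟩, rfl⟩

end

section
variable {K F M : Type} [Field K] [NumberField K] [Field F] [NumberField F] [Field M] [NumberField M]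
  [Algebra K F] [Algebra K M] [Algebra F M] [IsScalarTower K F M]

theorem under_under (u : HeightOneSpectrum (𝓞 M)) :
    (u.under (𝓞 F)).under (𝓞 K) = u.under (𝓞 K) := by
  apply HeightOneSpectrum.ext
  change (u.asIdeal.comap (algebraMap (𝓞 F) (𝓞 M))).comap (algebraMap (𝓞 K) (𝓞 F)) =
    u.asIdeal.comap (algebraMap (𝓞 K) (𝓞 M))
  rw [Ideal.comap_comap, ← IsScalarTower.algebraMap_eq]

theorem Unramified.over {w : HeightOneSpectrum (𝓞 F)} (hv : Unramified M (w.under (𝓞 K))) :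
    Unramified M w := by
  intro u hu hle
  refine hv u ?_ ?_
  · rw [← hu]
    exact (under_under (K := K) (F := F) u).symm
  · refine le_trans ?_ hle
    have hmap : algebraMap (𝓞 K) (𝓞 M) =
        (algebraMap (𝓞 F) (𝓞 M)).comp (algebraMap (𝓞 K) (𝓞 F)) :=
      IsScalarTower.algebraMap_eq (𝓞 K) (𝓞 F) (𝓞 M)
    rw [hmap, ← Ideal.map_map]
    refine Ideal.map_mono ?_
    rw [Ideal.map_le_iff_le_comap]
    exact le_rfl

variable [IsGalois K M]

/-- the embedding of `F` given by an automorphism of `M` and an embedding of `M` -/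
noncomputable def ex (F : Type) [Field F] [NumberField F] [Algebra K F] [Algebra F M]
    [IsScalarTower K F M] (ι : M →ₐ[K] AlgebraicClosure K) (x : M ≃ₐ[K] M) :
    F →ₐ[K] AlgebraicClosure K :=
  (ι.comp (x : M →ₐ[K] M)).comp (IsScalarTower.toAlgHom K F M)

theorem ex_apply (ι : M →ₐ[K] AlgebraicClosure K) (x : M ≃ₐ[K] M) (y : F) :
    ex F ι x y = ι (x (algebraMap F M y)) := rfl

theorem ex_eq_iff {ι : M →ₐ[K] AlgebraicClosure K} {x y : M ≃ₐ[K] M} :
    ex F ι x = ex F ι y ↔ x⁻¹ * y ∈ fixer K F M := by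
  rw [mem_fixer]
  constructor
  · intro h z
    have h1 := DFunLike.congr_fun h z
    rw [ex_apply, ex_apply] at h1
    rw [AlgEquiv.mul_apply, ← ι.injective h1, ← AlgEquiv.mul_apply, inv_mul_cancel,
      AlgEquiv.one_apply]
  · intro h
    ext z
    rw [ex_apply, ex_apply]
    congr 1
    have h1 := congrArg x (h z)
    rw [AlgEquiv.mul_apply, ← AlgEquiv.mul_apply x x⁻¹, mul_inv_cancel, AlgEquiv.one_apply] at h1
    exact h1.symm

theorem ex_surjective (ι : M →ₐ[K] AlgebraicClosure K) : Function.Surjective (ex F ι) := by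
  intro i
  obtain ⟨i', hi'⟩ : ∃ i' : M →ₐ[K] AlgebraicClosure K, ∀ x : F, i' (algebraMap F M x) = i x := by
    let _ : Algebra F (AlgebraicClosure K) := i.toRingHom.toAlgebra
    have : IsScalarTower K F (AlgebraicClosure K) := IsScalarTower.of_algebraMap_eq fun x =>
      (i.commutes x).symm
    let e : M →ₐ[F] AlgebraicClosure K := IsAlgClosed.lift
    exact ⟨e.restrictScalars K, fun x => e.commutes x⟩
  obtain ⟨h, hh⟩ := (emb_bijective ι).2 i'
  refine ⟨h, ?_⟩
  ext z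
  rw [ex_apply, ← hi', ← hh]
  rfl

/-- the automorphisms giving a prime -/
theorem card_ex {v : HeightOneSpectrum (𝓞 K)} (hv : Unramified M v) {σ : GK K}
    {Q : Ideal (𝓞 (AlgebraicClosure K))} (hQm : Q.IsMaximal)
    (hQv : Q.comap (algebraMap (𝓞 K) (𝓞 (AlgebraicClosure K))) = v.asIdeal)
    (hQ : ∀ x : 𝓞 (AlgebraicClosure K), σ • x - x ^ Ideal.absNorm v.asIdeal ∈ Q)
    (ι : M →ₐ[K] AlgebraicClosure K) {w : HeightOneSpectrum (𝓞 F)} (hw : w.under (𝓞 K) = v) :
    Nat.card {x : M ≃ₐ[K] M // ∀ a, oi (ex F ι x) a ∈ Q ↔ a ∈ w.asIdeal} =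
      rdeg K w * Nat.card (fixer K F M) := by
  classical
  rw [← card_emb hv.sub hQm hQv hQ hw, ← Nat.card_prod]
  choose X hX using ex_surjective (F := F) ι
  let e : {x : M ≃ₐ[K] M // ∀ a, oi (ex F ι x) a ∈ Q ↔ a ∈ w.asIdeal} ≃
      {i : F →ₐ[K] AlgebraicClosure K // ∀ a, oi i a ∈ Q ↔ a ∈ w.asIdeal} × fixer K F M :=
    { toFun := fun x => ⟨⟨ex F ι x.1, x.2⟩, ⟨(X (ex F ι x.1))⁻¹ * x.1,
        ex_eq_iff.1 (hX _)⟩⟩
      invFun := fun p => ⟨X p.1.1 * p.2.1, by
        have h : ex F ι (X p.1.1 * p.2.1) = p.1.1 := by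
          rw [← hX p.1.1]
          refine Eq.symm (ex_eq_iff.2 ?_)
          rw [hX, inv_mul_cancel_left]
          exact p.2.2
        rw [h]
        exact p.1.2⟩
      left_inv := fun x => by
        apply Subtype.ext
        simp only
        rw [mul_inv_cancel_left]
      right_inv := fun p => by
        have h : ex F ι (X p.1.1 * p.2.1) = p.1.1 := by
          rw [← hX p.1.1]
          refine Eq.symm (ex_eq_iff.2 ?_)
          rw [hX, inv_mul_cancel_left]
          exact p.2.2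
        apply Prod.ext
        · exact Subtype.ext h
        · apply Subtype.ext
          simp only
          rw [h, inv_mul_cancel_left] }
  exact Nat.card_congr e

/-- **The values of an induced character at the powers of a Frobenius element.** -/
theorem induced_frob {v : HeightOneSpectrum (𝓞 K)} (hv : Unramified M v) {g : M ≃ₐ[K] M}
    (hg : IsFrobenius v g) [IsGalois F M] (ψ : fixer K F M →* ℂˣ) (ψ' : (M ≃ₐ[F] M) →* ℂˣ)
    (hψ : ∀ (y : M ≃ₐ[F] M) (hy : y.restrictScalars K ∈ fixer K F M),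
      ψ ⟨y.restrictScalars K, hy⟩ = ψ' y) (n : ℕ) :
    induced (fixer K F M) ψ (g ^ n) = ∑ w ∈ above F v, if rdeg K w ∣ n then
      (rdeg K w : ℂ) * ((ψ' (frob M w) : ℂˣ) : ℂ) ^ (n / rdeg K w) else 0 := by
  classical
  have : Fintype (M ≃ₐ[K] M) := Fintype.ofFinite _
  have hH : (Nat.card (fixer K F M) : ℂ) ≠ 0 := by exact_mod_cast Nat.card_pos.ne'
  obtain ⟨σ, Q, hQm, hQv, hQ⟩ := Pool.Agent.W401.Frob.exists_frob v
  obtain ⟨ι, hσ⟩ := exists_intertwine hv hg hQm hQv hQ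
  have hQp : Q.IsPrime := hQm.isPrime
  have hpow := intertwine_pow hσ
  choose W hW1 hW2 using fun x : M ≃ₐ[K] M => exists_pr (K := K) (F := F) hQm hQv (ex F ι x)
  -- membership in the fixer
  have hA : ∀ (x : M ≃ₐ[K] M) (m : ℕ), x⁻¹ * g ^ m * x ∈ fixer K F M ↔ rdeg K (W x) ∣ m := by
    intro x m
    rw [← fixed_iff (hv.sub (F := F)) hQm hQv hQ (hW1 x) (hW2 x) m, mem_fixer]
    constructor
    · intro h
      ext y
      change (σ ^ m) (ι (x (algebraMap F M y))) = ι (x (algebraMap F M y))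
      rw [hpow]
      congr 1
      have h2 := congrArg x (h y)
      rw [AlgEquiv.mul_apply, AlgEquiv.mul_apply, ← AlgEquiv.mul_apply, mul_inv_cancel,
        AlgEquiv.one_apply] at h2
      exact h2
    · intro h y
      have h1 : (σ ^ m) (ι (x (algebraMap F M y))) = ι (x (algebraMap F M y)) :=
        DFunLike.congr_fun h y
      rw [hpow] at h1
      rw [AlgEquiv.mul_apply, AlgEquiv.mul_apply, ι.injective h1, ← AlgEquiv.mul_apply,
        inv_mul_cancel, AlgEquiv.one_apply]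
  -- the value of the character
  have hB : ∀ (x : M ≃ₐ[K] M) (h : x⁻¹ * g ^ (rdeg K (W x)) * x ∈ fixer K F M),
      ψ ⟨x⁻¹ * g ^ (rdeg K (W x)) * x, h⟩ = ψ' (frob M (W x)) := by
    intro x h
    obtain ⟨y, hy⟩ : ∃ y : M ≃ₐ[F] M, y.restrictScalars K = x⁻¹ * g ^ (rdeg K (W x)) * x := by
      refine ⟨{ (x⁻¹ * g ^ (rdeg K (W x)) * x : M ≃ₐ[K] M) with
        commutes' := fun z => h z }, ?_⟩
      ext z
      rfl
    have h2 : ∀ z : M, y z = (x⁻¹ * g ^ (rdeg K (W x)) * x) z := fun z => by rw [← hy]; rfl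
    have hyF : IsFrobenius (W x) y := by
      let P : Ideal (𝓞 M) := Q.comap (oi (ι.comp (x : M →ₐ[K] M)))
      have hPp : P.IsPrime := Ideal.comap_isPrime _ _
      have hPc : P.comap (algebraMap (𝓞 F) (𝓞 M)) = (W x).asIdeal := by
        ext a
        rw [Ideal.mem_comap, ← hW2 x a]
        exact Iff.rfl
      have hP0 : P ≠ ⊥ := by
        intro h0
        apply (W x).ne_bot
        rw [← hPc, h0, ← RingHom.ker_eq_comap_bot]
        exact (RingHom.injective_iff_ker_eq_bot _).1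
          (FaithfulSMul.algebraMap_injective (𝓞 F) (𝓞 M))
      refine ⟨P, hPp.isMaximal hP0, hPc, fun a => ?_⟩
      have hya : IsIntegral ℤ (y (a : M)) := a.2.map y
      obtain ⟨b, hb⟩ : ∃ b : 𝓞 M, (b : M) = y (a : M) := ⟨⟨y (a : M), hya⟩, rfl⟩
      refine ⟨b - a ^ Ideal.absNorm (W x).asIdeal, ?_, by rw [← hb]; rfl⟩
      rw [Ideal.mem_comap, map_sub, map_pow]
      have h3 : oi (ι.comp (x : M →ₐ[K] M)) b =
          (σ ^ rdeg K (W x)) • oi (ι.comp (x : M →ₐ[K] M)) a := by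
        apply RingOfIntegers.ext
        change ι (x (b : M)) = (σ ^ rdeg K (W x)) (ι (x (a : M)))
        rw [hpow, hb, h2, AlgEquiv.mul_apply, AlgEquiv.mul_apply, ← AlgEquiv.mul_apply,
          mul_inv_cancel, AlgEquiv.one_apply]
      rw [h3, absNorm_rdeg (K := K) (W x), hW1 x]
      exact powers_smul σ _ Q hQ (rdeg K (W x)) _
    have hvw : Unramified M (W x) := Unramified.over (K := K) (by rw [hW1 x]; exact hv)
    obtain ⟨z, hz⟩ := isFrobenius_conj hvw hyF (frob_spec (W x))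
    rw [hz, map_mul, map_mul, map_inv, mul_comm, mul_inv_cancel_left]
    have h4 : (⟨x⁻¹ * g ^ (rdeg K (W x)) * x, h⟩ : fixer K F M) =
        ⟨y.restrictScalars K, by rw [hy]; exact h⟩ := Subtype.ext hy.symm
    rw [h4, hψ]
  have hval : ∀ (x : M ≃ₐ[K] M), (if h : x⁻¹ * g ^ n * x ∈ fixer K F M then
      ((ψ ⟨x⁻¹ * g ^ n * x, h⟩ : ℂˣ) : ℂ) else 0) =
      if rdeg K (W x) ∣ n then ((ψ' (frob M (W x)) : ℂˣ) : ℂ) ^ (n / rdeg K (W x)) else 0 := by
    intro x
    by_cases hd : rdeg K (W x) ∣ n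
    · rw [if_pos hd, dif_pos ((hA x n).2 hd), ← hB x ((hA x _).2 dvd_rfl), ← Units.val_pow_eq_pow_val,
        ← map_pow]
      congr 2
      apply Subtype.ext
      have h5 : x⁻¹ * g ^ n * x = (x⁻¹ * g ^ rdeg K (W x) * x) ^ (n / rdeg K (W x)) := by
        have h6 := (SemiconjBy.conj_mk x⁻¹ (g ^ rdeg K (W x)))
        rw [show x⁻¹ * g ^ rdeg K (W x) * x = x⁻¹ * g ^ rdeg K (W x) * (x⁻¹)⁻¹ by rw [inv_inv],
          conj_pow, ← pow_mul, Nat.mul_div_cancel' hd, inv_inv]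
      exact h5
    · rw [if_neg hd, dif_neg (fun h => hd ((hA x n).1 h))]
  unfold induced
  rw [finsum_eq_sum_of_fintype, Finset.sum_congr rfl fun x _ => hval x]
  have hfib : ∑ x : M ≃ₐ[K] M, (if rdeg K (W x) ∣ n then
      ((ψ' (frob M (W x)) : ℂˣ) : ℂ) ^ (n / rdeg K (W x)) else 0) =
      ∑ w ∈ above F v, ∑ x ∈ Finset.univ.filter (fun x => W x = w), (if rdeg K w ∣ n then
      ((ψ' (frob M w) : ℂˣ) : ℂ) ^ (n / rdeg K w) else 0) := by
    rw [← Finset.sum_fiberwise_of_maps_to (t := above F v) (g := W)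
      (fun x _ => mem_above.2 (hW1 x))]
    refine Finset.sum_congr rfl fun w _ => Finset.sum_congr rfl fun x hx => ?_
    rw [(Finset.mem_filter.1 hx).2]
  rw [hfib, Finset.mul_sum]
  refine Finset.sum_congr rfl fun w hw => ?_
  rw [Finset.sum_const, nsmul_eq_mul]
  have hc : (Finset.univ.filter (fun x => W x = w)).card = rdeg K w * Nat.card (fixer K F M) := by
    rw [← card_ex (F := F) hv hQm hQv hQ ι (mem_above.1 hw), ← Fintype.card_subtype,
      ← Nat.card_eq_fintype_card]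
    refine Nat.card_congr (Equiv.subtypeEquivRight fun x => ?_)
    constructor
    · rintro rfl
      exact hW2 x
    · intro h
      apply HeightOneSpectrum.ext
      ext a
      rw [← hW2 x, h]
  rw [hc]
  split_ifs
  · push_cast
    field_simp
  · simp

end

end Pool.Agent.Q92.AR
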