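import Pool.Agent.Q92.AR.IndF
import Pool.Agent.Q5.SO.Hyp

/-!
# Project AR, third part: Brauer's induction theorem

`Irr G`: the irreducible complex characters of `G` (`Pool.Agent.H541R3.ART.Irr`), `induced H ψ`: the
character induced by a linear character, `inducedF H θ`: the class function induced by a class function
of `H`.  `Pool.Agent.Q5.SO.solomon` is Solomon's theorem: `1 = ∑ n_B 1_B^G` with hyperelementary `B`.
-/

set_option autoImplicit false

namespace Pool.Agent.Q92.AR

open Pool.Agent.H541R3.ART Pool.Agent.Q5.SO
open Pool.Agent.Q92.RT (induced)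

/-- JOB CLIFF. Clifford's theorem: if `A` is an abelian normal subgroup of `G` which does not act by
scalars in the irreducible representation with character `χ`, then `χ` is induced by an irreducible
character of a proper subgroup.
Proof: `V = ⨁ V_λ` over the characters `λ` of `A` (simultaneous eigenspaces of commuting operators of
finite order), `G` permutes the `V_λ ≠ 0`, transitively since `V` is irreducible; there are at least two
since otherwise `A` acts by scalars and `|χ(a)| = χ(1)`.  Let `I` be the stabilizer of one `V_λ`; `V_λ` is an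
irreducible representation of `I`, and the trace of `g` on `V` is the sum of the traces on the
`x V_λ` with `g x V_λ = x V_λ`, that is `inducedF I η g`. -/
def S_Cliff : Prop := ∀ (G : Type) [Group G] [Finite G], ∀ χ ∈ Irr G, ∀ A : Subgroup G, A.Normal →
  (∀ a ∈ A, ∀ b ∈ A, a * b = b * a) → (∃ a ∈ A, ‖χ a‖ ≠ ‖χ 1‖) →
  ∃ I : Subgroup G, I ≠ ⊤ ∧ ∃ η ∈ Irr I, ∀ g, χ g = inducedF I η g

/-- JOB MONO. The irreducible characters of a hyperelementary group are monomial.
Proof: induction on the order of `G`, for all irreducible `χ`.  Subgroups and quotients of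
hyperelementary groups are hyperelementary (`Pool.Agent.Q5.SO.HypAt.le`, `.hyper`).  If the kernel of
`χ` is not trivial, use the quotient.  If `G` is abelian, `χ` is linear.  Otherwise `χ` is faithful and `G`
has a non-central abelian normal subgroup `A`: let `C` be the cyclic normal subgroup with `G/C` a
`p`-group; if `C` is not central take `A = C`; if `C ≤ Z = Z(G)`, the nontrivial `p`-group `G/Z` has a
nontrivial center, take `x ∉ Z` with `x Z` in this center and `A = ⟨Z, x⟩`.  Since `χ` is faithful, `A`
does not act by scalars.  `S_Cliff` gives `χ = inducedF I η`, `η` is monomial by induction, and induction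
of characters is transitive. -/
def S_Mono : Prop := ∀ (G : Type) [Group G] [Finite G], Hyper G → ∀ χ ∈ Irr G,
  ∃ (H : Subgroup G) (ψ : H →* ℂˣ), ∀ g, χ g = induced H ψ g

/-- JOB BRAUER. Brauer's induction theorem.
Proof: `χ = ∑ n_B fq B · χ` (`solomon`), `fq B g * χ g = inducedF B (χ|B) g` (the value of `fq B` at `g` is
`|B|⁻¹` times the number of `x` with `x⁻¹ g x ∈ B`), `χ|B` is a sum of irreducible characters of `B` with
natural multiplicities (`Pool.Agent.Q92.RT.class_expand`, `Pool.Agent.H541R3.ART.exists_mult` or
`Pool.Agent.W446.AS.exists_mult_irr`), each of them monomial, and induction is transitive. -/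
def S_Brauer : Prop := ∀ (G : Type) [Group G] [Finite G], ∀ χ ∈ Irr G,
  ∃ (ι : Type) (_ : Fintype ι) (H : ι → Subgroup G) (ψ : ∀ i, H i →* ℂˣ) (n : ι → ℤ),
    ∀ g, χ g = ∑ i, (n i : ℂ) * induced (H i) (ψ i) g

end Pool.Agent.Q92.AR
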