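import Pool.Agent.Q92.AR.Two
import Pool.Agent.Q92.AR.Stm2
import Pool.Agent.Q92.AR.Stm3

/-!
# The Artin L-functions have a continuation

From the law of reciprocity (`S_AR`), Hecke's theorem (`S_Hecke`) and Brauer's theorem (`S_Brauer`).
-/

set_option autoImplicit false
set_option linter.unusedSectionVars false

namespace Pool.Agent.Q92.AR

open NumberField IsDedekindDomain Filter Topology Pool.Agent.H921R2.TatePole Pool.Agent.W353.NF
  Pool.Agent.Q5.BR Pool.Agent.H541R3.ART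
open Pool.Agent.Q92.RT (induced)

theorem mem_finite {F : Type} [Field F] [NumberField F] {N : ℕ} (hN : N ≠ 0) :
    {v : HeightOneSpectrum (𝓞 F) | (N : 𝓞 F) ∈ v.asIdeal}.Finite := by
  have h0 : Ideal.span {(N : 𝓞 F)} ≠ 0 := by
    rw [Ne, Ideal.zero_eq_bot, Ideal.span_singleton_eq_bot]
    exact_mod_cast hN
  refine (Ideal.finite_factors h0).subset fun v hv => ?_
  change v.asIdeal ∣ _
  rw [Ideal.dvd_span_singleton]
  exact hv

theorem Lc_eq {F : Type} [Field F] [NumberField F] (N : ℕ) (χ : Dv F →+ Additive ℂˣ) (s : ℂ) :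
    Lc N χ s = LP {v : HeightOneSpectrum (𝓞 F) | (N : 𝓞 F) ∉ v.asIdeal}
      (fun v => (((χ (Finsupp.single v 1)).toMul : ℂˣ) : ℂ)) s := by
  classical
  unfold Lc LP
  congr 1
  refine tsum_congr fun x => ?_
  unfold lterm
  by_cases h : (N : 𝓞 F) ∈ x.1.asIdeal
  · have h2 : x.1 ∉ {v : HeightOneSpectrum (𝓞 F) | (N : 𝓞 F) ∉ v.asIdeal} := fun h3 => h3 h
    rw [if_pos h, if_neg h2]
  · have h2 : x.1 ∈ {v : HeightOneSpectrum (𝓞 F) | (N : 𝓞 F) ∉ v.asIdeal} := h
    rw [if_neg h, if_pos h2]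

theorem induced_congr {G : Type} [Group G] {H H' : Subgroup G} (h : H = H') {ψ : H →* ℂˣ}
    {ψ' : H' →* ℂˣ} (hψ : ∀ (x : G) (hx : x ∈ H) (hx' : x ∈ H'), ψ ⟨x, hx⟩ = ψ' ⟨x, hx'⟩) :
    induced H ψ = induced H' ψ' := by
  subst h
  have : ψ = ψ' := MonoidHom.ext fun x => hψ x.1 x.2 x.2
  rw [this]

section
variable {K F M : Type} [Field K] [NumberField K] [Field F] [NumberField F] [Field M] [NumberField M]
  [Algebra K F] [Algebra K M] [Algebra F M] [IsScalarTower K F M]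

/-- the group of `M/F` as a subgroup of the group of `M/K` -/
noncomputable def resF (K F M : Type) [Field K] [NumberField K] [Field F] [NumberField F] [Field M]
    [NumberField M] [Algebra K F] [Algebra K M] [Algebra F M] [IsScalarTower K F M] :
    (M ≃ₐ[F] M) →* fixer K F M where
  toFun y := ⟨y.restrictScalars K, fun x => y.commutes x⟩
  map_one' := rfl
  map_mul' _ _ := rfl

variable [IsGalois K M] [IsGalois F M]

theorem hol_field (hAR : S_AR) (hH : S_Hecke) (ψ : fixer K F M →* ℂˣ) :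
    ∃ f : ℂ → ℂ, Continues f (artinL M (induced (fixer K F M) ψ)) ∧
      ∀ s : ℂ, 0 < s.re → s ≠ 1 → AnalyticAt ℂ f s := by
  set ψ' : (M ≃ₐ[F] M) →* ℂˣ := ψ.comp (resF K F M) with hψ'
  obtain ⟨N, hN, -, hray⟩ := hAR F M ψ'
  obtain ⟨f, hf1, hf2, hf3, -, -⟩ := hH F N (art ψ') hN hray
  have hχ : ∀ w : HeightOneSpectrum (𝓞 F), ‖((ψ' (frob M w) : ℂˣ) : ℂ)‖ ≤ 1 :=
    fun w => (norm_char ψ' _).le
  have he : ∀ w : HeightOneSpectrum (𝓞 F),
      (((art ψ' (Finsupp.single w 1)).toMul : ℂˣ) : ℂ) = ((ψ' (frob M w) : ℂˣ) : ℂ) := by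
    intro w
    rw [art_single, one_smul]
    rfl
  have h1 : ({w : HeightOneSpectrum (𝓞 F) | Unramified M (w.under (𝓞 K))} \
      {v : HeightOneSpectrum (𝓞 F) | (N : 𝓞 F) ∉ v.asIdeal}).Finite := by
    refine (mem_finite (F := F) hN).subset ?_
    rintro w ⟨-, hw⟩
    exact not_not.1 hw
  have h2 : ({v : HeightOneSpectrum (𝓞 F) | (N : 𝓞 F) ∉ v.asIdeal} \
      {w : HeightOneSpectrum (𝓞 F) | Unramified M (w.under (𝓞 K))}).Finite := by
    refine (ramified_above_finite (K := K) (F := F) (M := M)).subset ?_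
    rintro w ⟨-, hw⟩
    exact hw
  obtain ⟨E, hE1, hE2, hE3⟩ := LP_compare (χ := fun w => ((ψ' (frob M w) : ℂˣ) : ℂ))
    (χ' := fun w => (((art ψ' (Finsupp.single w 1)).toMul : ℂˣ) : ℂ)) h1 h2 hχ
    (fun w => by rw [he]; exact hχ w) (fun w _ => (he w).symm)
  refine ⟨fun s => E s * f s, ⟨fun s hs => (hE1 s hs).fun_mul (hf1 s hs), fun s hs => ?_⟩,
    fun s hs hs1 => (hE3 s hs).1.fun_mul (hf3 s hs hs1)⟩
  change E s * f s = _
  rw [artinL_induced ψ ψ' (fun y hy => rfl) hs, hE2 s hs, hf2 s hs, Lc_eq]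

end

section
variable {K M : Type} [Field K] [NumberField K] [Field M] [NumberField M] [Algebra K M]
  [IsGalois K M]

/-- **The L-functions of the linear characters of subgroups** are holomorphic for `Re s > 0`,
`s ≠ 1`. -/
theorem hol (hAR : S_AR) (hH : S_Hecke) (H : Subgroup (M ≃ₐ[K] M)) (ψ : H →* ℂˣ) :
    ∃ f : ℂ → ℂ, Continues f (artinL M (induced H ψ)) ∧
      ∀ s : ℂ, 0 < s.re → s ≠ 1 → AnalyticAt ℂ f s := by
  have h := fixer_fixedField (K := K) (M := M) H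
  have hgal : IsGalois (IntermediateField.fixedField H) M := inferInstance
  let ψ1 : fixer K (IntermediateField.fixedField H) M →* ℂˣ :=
    ψ.comp (Subgroup.inclusion (le_of_eq h))
  have h2 : induced (fixer K (IntermediateField.fixedField H) M) ψ1 = induced H ψ :=
    induced_congr h fun x hx hx' => rfl
  rw [← h2]
  exact hol_field hAR hH ψ1

/-- **Brauer: meromorphic continuation.** -/
theorem mero (hAR : S_AR) (hH : S_Hecke) (hB : S_Brauer) {χ : (M ≃ₐ[K] M) → ℂ}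
    (hχ : χ ∈ Irr (M ≃ₐ[K] M)) : ∃ f : ℂ → ℂ, Continues f (artinL M χ) := by
  obtain ⟨ι, _, H, ψ, n, h⟩ := hB _ χ hχ
  choose f hf _ using fun i => hol hAR hH (H i) (ψ i)
  refine ⟨fun s => ∏ i, f i s ^ n i, fun s hs => ?_, fun s hs => ?_⟩
  · exact MeromorphicAt.fun_prod fun i _ => ((hf i).1 s hs).fun_zpow _
  · have h1 : χ = fun g => ∑ i, (n i : ℂ) * induced (H i) (ψ i) g := funext h
    rw [h1, artinL_sum_int Finset.univ n (fun i => induced (H i) (ψ i)) hs]
    exact Finset.prod_congr rfl fun i _ => by rw [(hf i).2 s hs]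

theorem continued_of (hAR : S_AR) (hH : S_Hecke) (hB : S_Brauer) {s₀ : ℂ} (h0 : 0 < s₀.re)
    (h1 : s₀ ≠ 1) : Continued (K := K) M s₀ where
  brauer _ hχ := mero hAR hH hB hχ
  hecke H ψ := by
    obtain ⟨f, hf, hf2⟩ := hol hAR hH H ψ
    exact ⟨f, hf, (hf2 s₀ h0 h1).meromorphicOrderAt_nonneg⟩

end

end Pool.Agent.Q92.AR
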