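import Pool.Agent.Q92.AR.ArtL

/-!
# The Artin L-functions of a Galois extension form an `ArtinData`

`M/K` is a Galois extension of number fields.  If the Artin L-functions `L(s, χ, M/K)` of the irreducible
characters have a meromorphic continuation (Brauer) and the L-functions of the linear characters of the
subgroups have no pole at `s₀` (Artin, Hecke; `s₀ ≠ 1`), `Continued M s₀`, then they form an
`ArtinData` at `s₀` (`ArtinData.ofExtension`).  For `Re s₀ > 0` the order at `s₀` of the zeta function of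
a field `F` between `K` and `M` is the order of the function of the trivial character of the group of
`M/F` (`order_zeta`).
-/

set_option autoImplicit false
set_option linter.unusedSectionVars false

namespace Pool.Agent.Q92.AR

open NumberField IsDedekindDomain Filter Topology Pool.Agent.H921R2.TatePole Pool.Agent.W353.NF
  Pool.Agent.Q5.BR Pool.Agent.H541R3.ART
open Pool.Agent.Q92.RT (induced induced_conj induced_pair class_expand)

section
variable {K : Type} [Field K] [NumberField K] (M : Type) [Field M] [NumberField M] [Algebra K M]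

/-- The theorems of Brauer (meromorphic continuation of the Artin L-functions) and of Artin and Hecke
(the L-functions of linear characters of subgroups have no pole at `s₀`) for the extension `M/K`. -/
structure Continued (s₀ : ℂ) : Prop where
  brauer : ∀ χ ∈ Irr (M ≃ₐ[K] M), ∃ f : ℂ → ℂ, Continues f (artinL M χ)
  hecke : ∀ (H : Subgroup (M ≃ₐ[K] M)) (ψ : H →* ℂˣ),
    ∃ f : ℂ → ℂ, Continues f (artinL M (induced H ψ)) ∧ 0 ≤ meromorphicOrderAt f s₀

variable {M}

/-- the L-function of an induced character is a product -/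
theorem artinL_induced_prod (H : Subgroup (M ≃ₐ[K] M)) (ψ : H →* ℂˣ)
    {m : ((M ≃ₐ[K] M) → ℂ) → ℕ}
    (hm : ∀ χ ∈ Irr (M ≃ₐ[K] M), ∑ᶠ h : H, χ h * (((ψ h)⁻¹ : ℂˣ) : ℂ) =
      (m χ : ℂ) * (Nat.card H : ℂ)) {s : ℂ} (hs : 1 < s.re) :
    artinL M (induced H ψ) s = ∏ χ ∈ irrF (M ≃ₐ[K] M), artinL M χ s ^ m χ := by
  have : Fintype (M ≃ₐ[K] M) := Fintype.ofFinite _
  rw [← artinL_sum (irrF (M ≃ₐ[K] M)) m (fun χ => χ) hs]
  congr 1
  funext g
  refine class_expand (m := fun χ => (m χ : ℂ)) (fun g x => induced_conj H ψ g x)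
    (fun χ hχ => ?_) g
  exact induced_pair H ψ (fun g x => Irr.conj hχ g x) (hm χ hχ)

theorem continues_prod (h : ∀ χ ∈ Irr (M ≃ₐ[K] M), ∃ f : ℂ → ℂ, Continues f (artinL M χ))
    (H : Subgroup (M ≃ₐ[K] M)) (ψ : H →* ℂˣ) {m : ((M ≃ₐ[K] M) → ℂ) → ℕ}
    (hm : ∀ χ ∈ Irr (M ≃ₐ[K] M), ∑ᶠ h : H, χ h * (((ψ h)⁻¹ : ℂˣ) : ℂ) =
      (m χ : ℂ) * (Nat.card H : ℂ)) :
    Continues (fun s => ∏ χ ∈ irrF (M ≃ₐ[K] M), cont (artinL M χ) s ^ m χ)
      (artinL M (induced H ψ)) := by
  refine ⟨fun s hs => ?_, fun s hs => ?_⟩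
  · exact MeromorphicAt.fun_prod fun χ hχ =>
      ((cont_spec (h χ (mem_irrF.1 hχ))).1 s hs).fun_pow _
  · rw [artinL_induced_prod H ψ hm hs]
    exact Finset.prod_congr rfl fun χ hχ => by rw [(cont_spec (h χ (mem_irrF.1 hχ))).2 s hs]

theorem exists_continues (h : ∀ χ ∈ Irr (M ≃ₐ[K] M), ∃ f : ℂ → ℂ, Continues f (artinL M χ))
    (H : Subgroup (M ≃ₐ[K] M)) (ψ : H →* ℂˣ) :
    ∃ f : ℂ → ℂ, Continues f (artinL M (induced H ψ)) := by
  classical
  choose! m hm using fun χ (hχ : χ ∈ Irr (M ≃ₐ[K] M)) => exists_mult hχ H ψ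
  exact ⟨_, continues_prod h H ψ hm⟩

end

end Pool.Agent.Q92.AR

namespace Pool.Agent.H541R3.ART

open Pool.Agent.Q92.AR Filter Topology NumberField

variable {K : Type} [Field K] [NumberField K] {M : Type} [Field M] [NumberField M] [Algebra K M]

/-- **The Artin L-functions of a Galois extension form an `ArtinData`.** -/
noncomputable def ArtinData.ofExtension {s₀ : ℂ} (h : Continued (K := K) M s₀) :
    ArtinData (M ≃ₐ[K] M) s₀ where
  L χ := cont (artinL M χ)
  Lin H ψ := cont (artinL M (Pool.Agent.Q92.RT.induced H ψ))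
  mero χ hχ :=
    ⟨(cont_spec (h.brauer χ hχ)).1 s₀ (Set.mem_univ _),
      (cont_spec (h.brauer χ hχ)).order_ne_top (fun s _ => artinL_ne_zero χ s) s₀⟩
  hecke H ψ := by
    obtain ⟨f, hf, hf2⟩ := h.hecke H ψ
    rw [(cont_spec ⟨f, hf⟩).order_eq hf (fun _ _ => rfl) s₀]
    exact hf2
  induce H ψ m hm := by
    have h1 := (cont_spec (exists_continues h.brauer H ψ)).eventuallyEq
      (continues_prod h.brauer H ψ hm) (fun _ _ => rfl) s₀
    filter_upwards [h1] with s hs
    rw [hs, finprod_mem_eq_finite_toFinset_prod _ (irr_finite (G := M ≃ₐ[K] M))]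
    rfl

end Pool.Agent.H541R3.ART

namespace Pool.Agent.Q92.AR

open NumberField IsDedekindDomain Filter Topology Pool.Agent.H921R2.TatePole Pool.Agent.W353.NF
  Pool.Agent.Q5.BR Pool.Agent.H541R3.ART
open Pool.Agent.Q92.RT (induced induced_conj induced_pair class_expand)

section
variable {K F M : Type} [Field K] [NumberField K] [Field F] [NumberField F] [Field M] [NumberField M]
  [Algebra K F] [Algebra K M] [Algebra F M] [IsScalarTower K F M] [IsGalois K M]

theorem ramified_finite : {v : HeightOneSpectrum (𝓞 K) | ¬ Unramified M v}.Finite := by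
  have h0 : differentIdeal (𝓞 K) (𝓞 M) ≠ ⊥ := differentIdeal_ne_bot
  have h1 : {w : HeightOneSpectrum (𝓞 M) | w.asIdeal ∣ differentIdeal (𝓞 K) (𝓞 M)}.Finite :=
    Ideal.finite_factors h0
  refine (h1.image fun w => w.under (𝓞 K)).subset ?_
  intro v hv
  have hv' : ¬ Unramified M v := hv
  unfold Unramified at hv'
  push Not at hv'
  obtain ⟨w, hw, hle⟩ := hv'
  refine ⟨w, ?_, hw⟩
  have hvm : v.asIdeal.IsMaximal := v.isMaximal
  have h2 := pow_sub_one_dvd_differentIdeal (𝓞 K) w.asIdeal 2 v.ne_bot (Ideal.dvd_iff_le.2 hle)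
  simpa using h2

theorem ramified_above_finite :
    {w : HeightOneSpectrum (𝓞 F) | ¬ Unramified M (w.under (𝓞 K))}.Finite := by
  have h := (ramified_finite (K := K) (M := M)).biUnion
    (t := fun v => {w : HeightOneSpectrum (𝓞 F) | w ∈ above F v})
    (fun v _ => (above F v).finite_toSet)
  refine h.subset fun w hw => ?_
  simp only [Set.mem_iUnion]
  exact ⟨w.under (𝓞 K), hw, mem_above.2 rfl⟩

/-- **The zeta function of a field between `K` and `M`** and the L-function of the character induced by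
the trivial character of the group of `M/F`: they differ by finitely many Euler factors. -/
theorem zeta_compare : ∃ E : ℂ → ℂ, MeromorphicOn E Set.univ ∧
    (∀ s : ℂ, 1 < s.re → NumberField.dedekindZeta F s =
      E s * artinL M (induced (fixer K F M) 1) s) ∧
    ∀ s : ℂ, 0 < s.re → AnalyticAt ℂ E s ∧ E s ≠ 0 := by
  have : IsGalois F M := IsGalois.tower_top_of_isGalois K F M
  have hf1 : ((Set.univ : Set (HeightOneSpectrum (𝓞 F))) \
      {w : HeightOneSpectrum (𝓞 F) | Unramified M (w.under (𝓞 K))}).Finite := by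
    refine (ramified_above_finite (K := K) (F := F) (M := M)).subset ?_
    rintro w ⟨-, hw⟩
    exact hw
  have hf2 : ({w : HeightOneSpectrum (𝓞 F) | Unramified M (w.under (𝓞 K))} \
      (Set.univ : Set (HeightOneSpectrum (𝓞 F)))).Finite := by
    refine Set.Finite.subset Set.finite_empty ?_
    rintro w ⟨-, hw⟩
    exact (hw (Set.mem_univ _)).elim
  obtain ⟨E, h1, h2, h3⟩ := LP_compare (χ := fun _ => 1) (χ' := fun _ => 1) hf1 hf2
    (fun _ => by simp) (fun _ => by simp) (fun _ _ => rfl)
  refine ⟨E, h1, fun s hs => ?_, h3⟩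
  rw [zeta_eq_LP hs, h2 s hs, artinL_induced (K := K) (F := F) (M := M) 1 1 (fun _ _ => rfl) hs]
  rfl

/-- **The order at `s₀` of the zeta function of a field between `K` and `M`**, `Re s₀ > 0`. -/
theorem order_zeta {f g : ℂ → ℂ} (hf : Continues f (NumberField.dedekindZeta F))
    (hg : Continues g (artinL M (induced (fixer K F M) 1))) {s₀ : ℂ} (hs : 0 < s₀.re) :
    meromorphicOrderAt f s₀ = meromorphicOrderAt g s₀ := by
  obtain ⟨E, h1, h2, h3⟩ := zeta_compare (K := K) (F := F) (M := M)
  have h4 : Continues (fun s => E s * g s) (NumberField.dedekindZeta F) := by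
    refine ⟨fun s hs => (h1 s hs).fun_mul (hg.1 s hs), fun s hs => ?_⟩
    change E s * g s = _
    rw [h2 s hs, hg.2 s hs]
  rw [hf.order_eq h4 (fun _ _ => rfl) s₀]
  obtain ⟨h5, h6⟩ := h3 s₀ hs
  rw [fun_meromorphicOrderAt_mul h5.meromorphicAt (hg.1 s₀ (Set.mem_univ _)),
    h5.meromorphicOrderAt_eq, h5.analyticOrderAt_eq_zero.2 h6]
  simp

end

section
variable {K M : Type} [Field K] [NumberField K] [Field M] [NumberField M] [Algebra K M]

theorem fixer_self : fixer K M M = ⊥ := by
  rw [eq_bot_iff]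
  intro g hg
  rw [Subgroup.mem_bot]
  ext x
  exact hg x

theorem fixer_base : fixer K K M = ⊤ := by
  rw [eq_top_iff]
  intro g _ x
  exact g.commutes x

theorem fixer_fixedField [IsGalois K M] (H : Subgroup (M ≃ₐ[K] M)) :
    fixer K (IntermediateField.fixedField H) M = H := by
  ext g
  have h := IntermediateField.fixingSubgroup_fixedField H
  constructor
  · intro hg
    rw [← h, IntermediateField.mem_fixingSubgroup_iff]
    intro x hx
    exact hg ⟨x, hx⟩
  · intro hg x
    exact x.2 ⟨g, hg⟩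

end

end Pool.Agent.Q92.AR
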