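import Pool.Agent.H921R2.TatePole.Dedekind
import Pool.Agent.Y690.EP
import Pool.Agent.H484R2.Zeta

/-! Partial Euler products, meromorphic continuation, comparison of Euler products which differ at
finitely many primes, the Dedekind zeta function. -/

set_option autoImplicit false
set_option linter.unusedSectionVars false

namespace Pool.Agent.Q92.AR

open NumberField IsDedekindDomain Filter Topology Pool.Agent.H921R2.TatePole

/-! ### Meromorphic continuation -/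

/-- `f` is meromorphic on `ℂ` and continues the function `g`, given for `Re s > 1`. -/
def Continues (f g : ℂ → ℂ) : Prop :=
  MeromorphicOn f Set.univ ∧ ∀ s : ℂ, 1 < s.re → f s = g s

open scoped Classical in
/-- The meromorphic continuation of `g`, if it exists (the zero function otherwise). -/
noncomputable def cont (g : ℂ → ℂ) : ℂ → ℂ := if h : ∃ f, Continues f g then h.choose else 0

theorem cont_spec {g : ℂ → ℂ} (h : ∃ f, Continues f g) : Continues (cont g) g := by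
  unfold cont
  rw [dif_pos h]
  exact h.choose_spec

theorem half_mem : ({s : ℂ | 1 < s.re} : Set ℂ) ∈ 𝓝 (2 : ℂ) := by
  have hopen : IsOpen {s : ℂ | 1 < s.re} := isOpen_lt continuous_const Complex.continuous_re
  exact hopen.mem_nhds (by change (1 : ℝ) < (2 : ℂ).re; norm_num)

/-- the identity theorem -/
theorem Continues.eventuallyEq {f f' g g' : ℂ → ℂ} (h : Continues f g) (h' : Continues f' g')
    (hg : ∀ s : ℂ, 1 < s.re → g s = g' s) (z : ℂ) : f =ᶠ[𝓝[≠] z] f' := by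
  have hd : MeromorphicOn (fun s => f s - f' s) Set.univ := fun s hs =>
    (h.1 s hs).fun_sub (h'.1 s hs)
  have h2 : meromorphicOrderAt (fun s => f s - f' s) 2 = ⊤ := by
    rw [meromorphicOrderAt_eq_top_iff]
    filter_upwards [mem_nhdsWithin_of_mem_nhds half_mem] with s hs
    rw [h.2 s hs, h'.2 s hs, hg s hs, sub_self]
  have h3 : meromorphicOrderAt (fun s => f s - f' s) z = ⊤ := by
    by_contra h4
    have h5 := (hd.exists_meromorphicOrderAt_ne_top_iff_forall isConnected_univ).1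
      ⟨⟨z, Set.mem_univ _⟩, h4⟩
    exact h5 ⟨2, Set.mem_univ _⟩ h2
  rw [meromorphicOrderAt_eq_top_iff] at h3
  filter_upwards [h3] with s hs
  exact sub_eq_zero.1 hs

theorem Continues.order_eq {f f' g g' : ℂ → ℂ} (h : Continues f g) (h' : Continues f' g')
    (hg : ∀ s : ℂ, 1 < s.re → g s = g' s) (z : ℂ) :
    meromorphicOrderAt f z = meromorphicOrderAt f' z :=
  meromorphicOrderAt_congr (h.eventuallyEq h' hg z)

theorem Continues.order_ne_top {f g : ℂ → ℂ} (h : Continues f g)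
    (hg : ∀ s : ℂ, 1 < s.re → g s ≠ 0) (z : ℂ) : meromorphicOrderAt f z ≠ ⊤ := by
  intro h4
  have h2 : meromorphicOrderAt f 2 ≠ ⊤ := by
    intro h5
    rw [meromorphicOrderAt_eq_top_iff] at h5
    have h6 : ∀ᶠ s in 𝓝[≠] (2 : ℂ), False := by
      filter_upwards [mem_nhdsWithin_of_mem_nhds half_mem, h5] with s hs hs2
      rw [h.2 s hs] at hs2
      exact hg s hs hs2
    exact (NeBot.ne inferInstance) (Filter.eventually_false_iff_eq_bot.1 h6)
  exact (h.1.exists_meromorphicOrderAt_ne_top_iff_forall isConnected_univ).1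
      ⟨⟨2, Set.mem_univ _⟩, h2⟩ ⟨z, Set.mem_univ _⟩ h4

theorem Continues.congr {f g g' : ℂ → ℂ} (h : Continues f g)
    (hg : ∀ s : ℂ, 1 < s.re → g s = g' s) : Continues f g' :=
  ⟨h.1, fun s hs => (h.2 s hs).trans (hg s hs)⟩

theorem Continues.mul {f f' g g' : ℂ → ℂ} (h : Continues f g) (h' : Continues f' g') :
    Continues (fun s => f s * f' s) (fun s => g s * g' s) :=
  ⟨fun s hs => (h.1 s hs).fun_mul (h'.1 s hs), fun s hs => by
    change f s * f' s = g s * g' s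
    rw [h.2 s hs, h'.2 s hs]⟩

/-! ### Partial Euler products -/

theorem cpow_succ_mul (q : ℕ) (s : ℂ) (n : ℕ) :
    (q : ℂ) ^ (((n + 1 : ℕ) : ℂ) * s) = (((q : ℂ) ^ (-s)) ^ (n + 1))⁻¹ := by
  rw [← Complex.cpow_nat_mul, ← Complex.cpow_neg]
  congr 1
  ring

theorem hasSum_log {z : ℂ} (hz : ‖z‖ < 1) :
    HasSum (fun n : ℕ => z ^ (n + 1) / ((n + 1 : ℕ) : ℂ)) (-Complex.log (1 - z)) := by
  have h := Complex.hasSum_taylorSeries_neg_log hz
  have h2 := (hasSum_nat_add_iff' (f := fun n : ℕ => z ^ n / (n : ℂ)) 1).2 h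
  simpa using h2

theorem one_sub_ne {z : ℂ} (hz : ‖z‖ < 1) : 1 - z ≠ 0 := by
  intro h
  rw [← sub_eq_zero.1 h, norm_one] at hz
  exact lt_irrefl _ hz

section
variable {F : Type} [Field F] [NumberField F]

theorem rpow_lt_one {v : HeightOneSpectrum (𝓞 F)} {δ : ℝ} (hδ : 0 < δ) :
    (nm v : ℝ) ^ (-δ) < 1 := by
  have h : (2 : ℝ) ≤ nm v := by exact_mod_cast two_le_nm v
  exact Real.rpow_lt_one_of_one_lt_of_neg (by linarith) (by linarith)

theorem summable_geo {δ : ℝ} (hδ : 1 < δ) :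
    Summable fun x : HeightOneSpectrum (𝓞 F) × ℕ => ((nm x.1 : ℝ) ^ (-δ)) ^ (x.2 + 1) := by
  have hpos : ∀ v : HeightOneSpectrum (𝓞 F), (0 : ℝ) < (nm v : ℝ) ^ (-δ) := fun v =>
    Real.rpow_pos_of_pos (by exact_mod_cast (by have := two_le_nm v; omega : 0 < nm v)) _
  rw [summable_prod_of_nonneg (fun x => pow_nonneg (hpos x.1).le _)]
  have hg : ∀ v : HeightOneSpectrum (𝓞 F), HasSum (fun n : ℕ => ((nm v : ℝ) ^ (-δ)) ^ (n + 1))
      ((nm v : ℝ) ^ (-δ) * (1 - (nm v : ℝ) ^ (-δ))⁻¹) := by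
    intro v
    have h1 := (hasSum_geometric_of_lt_one (hpos v).le (rpow_lt_one (v := v)
      (by linarith : (0 : ℝ) < δ))).mul_left ((nm v : ℝ) ^ (-δ))
    simpa only [pow_succ'] using h1
  refine ⟨fun v => (hg v).summable, ?_⟩
  simp only [fun v => (hg v).tsum_eq]
  refine Summable.of_nonneg_of_le (fun v => mul_nonneg (hpos v).le
    (inv_nonneg.2 (sub_nonneg.2 (rpow_lt_one (by linarith)).le))) (fun v => ?_)
    ((nm_summable (K := F) hδ).mul_right 2)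
  refine mul_le_mul_of_nonneg_left ?_ (hpos v).le
  have h2 : (nm v : ℝ) ^ (-δ) ≤ 1 / 2 := by
    have h : (2 : ℝ) ≤ nm v := by exact_mod_cast two_le_nm v
    calc (nm v : ℝ) ^ (-δ) ≤ (nm v : ℝ) ^ (-1 : ℝ) :=
          Real.rpow_le_rpow_of_exponent_le (by linarith) (by linarith)
      _ = (nm v : ℝ)⁻¹ := Real.rpow_neg_one _
      _ ≤ 1 / 2 := by rw [one_div]; exact inv_anti₀ (by norm_num) h
  have h3 : (1 / 2 : ℝ) ≤ 1 - (nm v : ℝ) ^ (-δ) := by linarith
  calc (1 - (nm v : ℝ) ^ (-δ))⁻¹ ≤ (1 / 2 : ℝ)⁻¹ := inv_anti₀ (by norm_num) h3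
    _ = 2 := by norm_num

open scoped Classical in
/-- the terms of the logarithm of the Euler product `∏_{v ∈ P} (1 - χ(v) q_v^{-s})⁻¹` -/
noncomputable def lterm (P : Set (HeightOneSpectrum (𝓞 F))) (χ : HeightOneSpectrum (𝓞 F) → ℂ)
    (s : ℂ) (x : HeightOneSpectrum (𝓞 F) × ℕ) : ℂ :=
  if x.1 ∈ P then χ x.1 ^ (x.2 + 1) / (((x.2 + 1 : ℕ) : ℂ) *
    (Ideal.absNorm x.1.asIdeal : ℂ) ^ (((x.2 + 1 : ℕ) : ℂ) * s)) else 0

/-- the Euler product `∏_{v ∈ P} (1 - χ(v) q_v^{-s})⁻¹` for `Re s > 1`, as the exponential of its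
logarithm -/
noncomputable def LP (P : Set (HeightOneSpectrum (𝓞 F))) (χ : HeightOneSpectrum (𝓞 F) → ℂ) (s : ℂ) :
    ℂ := Complex.exp (∑' x, lterm P χ s x)

theorem LP_ne_zero (P : Set (HeightOneSpectrum (𝓞 F))) (χ : HeightOneSpectrum (𝓞 F) → ℂ) (s : ℂ) :
    LP P χ s ≠ 0 := Complex.exp_ne_zero _

theorem norm_fac {z : ℂ} (hz : ‖z‖ ≤ 1) (v : HeightOneSpectrum (𝓞 F)) (s : ℂ) :
    ‖z * (nm v : ℂ) ^ (-s)‖ ≤ (nm v : ℝ) ^ (-s.re) := by
  rw [norm_mul, Complex.norm_natCast_cpow_of_pos (by have := two_le_nm v; omega), Complex.neg_re]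
  exact mul_le_of_le_one_left (Real.rpow_nonneg (Nat.cast_nonneg _) _) hz

theorem norm_fac_lt {z : ℂ} (hz : ‖z‖ ≤ 1) (v : HeightOneSpectrum (𝓞 F)) {s : ℂ} (hs : 0 < s.re) :
    ‖z * (nm v : ℂ) ^ (-s)‖ < 1 := (norm_fac hz v s).trans_lt (rpow_lt_one hs)

theorem lt_eq (z : ℂ) (v : HeightOneSpectrum (𝓞 F)) (s : ℂ) (n : ℕ) :
    z ^ (n + 1) / (((n + 1 : ℕ) : ℂ) *
      (Ideal.absNorm v.asIdeal : ℂ) ^ (((n + 1 : ℕ) : ℂ) * s)) =
      (z * (nm v : ℂ) ^ (-s)) ^ (n + 1) / ((n + 1 : ℕ) : ℂ) := by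
  have h : (Ideal.absNorm v.asIdeal : ℂ) = (nm v : ℂ) := rfl
  rw [h, cpow_succ_mul, mul_pow, div_mul_eq_div_div_swap, div_inv_eq_mul]

theorem lterm_eq (P : Set (HeightOneSpectrum (𝓞 F))) (χ : HeightOneSpectrum (𝓞 F) → ℂ) (s : ℂ)
    (x : HeightOneSpectrum (𝓞 F) × ℕ) [Decidable (x.1 ∈ P)] : lterm P χ s x =
      if x.1 ∈ P then (χ x.1 * (nm x.1 : ℂ) ^ (-s)) ^ (x.2 + 1) / ((x.2 + 1 : ℕ) : ℂ) else 0 := by
  unfold lterm
  split_ifs
  · exact lt_eq _ _ _ _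
  · rfl

theorem lterm_summable {P : Set (HeightOneSpectrum (𝓞 F))} {χ : HeightOneSpectrum (𝓞 F) → ℂ}
    (hχ : ∀ v ∈ P, ‖χ v‖ ≤ 1) {s : ℂ} (hs : 1 < s.re) : Summable (lterm P χ s) := by
  classical
  refine Summable.of_norm_bounded (summable_geo (F := F) hs) fun x => ?_
  rw [lterm_eq]
  split_ifs with h
  · rw [norm_div, norm_pow, Complex.norm_natCast]
    refine (div_le_self (by positivity) ?_).trans ?_
    · exact_mod_cast Nat.succ_le_succ (Nat.zero_le _)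
    · exact pow_le_pow_left₀ (norm_nonneg _) (norm_fac (hχ _ h) _ s) _
  · rw [norm_zero]
    positivity

theorem LP_congr {P : Set (HeightOneSpectrum (𝓞 F))} {χ χ' : HeightOneSpectrum (𝓞 F) → ℂ}
    (h : ∀ v ∈ P, χ v = χ' v) (s : ℂ) : LP P χ s = LP P χ' s := by
  classical
  unfold LP
  congr 1
  refine tsum_congr fun x => ?_
  rw [lterm_eq, lterm_eq]
  split_ifs with hx
  · rw [h _ hx]
  · rfl

theorem LP_union {P P' : Set (HeightOneSpectrum (𝓞 F))} (hd : Disjoint P P')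
    {χ : HeightOneSpectrum (𝓞 F) → ℂ} (hχ : ∀ v, ‖χ v‖ ≤ 1) {s : ℂ} (hs : 1 < s.re) :
    LP (P ∪ P') χ s = LP P χ s * LP P' χ s := by
  classical
  unfold LP
  rw [← Complex.exp_add, ← (lterm_summable (fun v _ => hχ v) hs).tsum_add
    (lterm_summable (fun v _ => hχ v) hs)]
  congr 1
  refine tsum_congr fun x => ?_
  rw [lterm_eq, lterm_eq, lterm_eq]
  by_cases h1 : x.1 ∈ P
  · have h3 : x.1 ∈ P ∪ P' := Or.inl h1
    rw [if_pos h1, if_neg (Set.disjoint_left.1 hd h1), if_pos h3, add_zero]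
  · by_cases h2 : x.1 ∈ P'
    · have h3 : x.1 ∈ P ∪ P' := Or.inr h2
      rw [if_pos h2, if_neg h1, if_pos h3, zero_add]
    · have h3 : x.1 ∉ P ∪ P' := fun h => h.elim h1 h2
      rw [if_neg h1, if_neg h2, if_neg h3, add_zero]

/-- the sum of the logarithms -/
theorem tsum_lterm {P : Set (HeightOneSpectrum (𝓞 F))} {χ : HeightOneSpectrum (𝓞 F) → ℂ}
    (hχ : ∀ v ∈ P, ‖χ v‖ ≤ 1) {s : ℂ} (hs : 1 < s.re) (v : HeightOneSpectrum (𝓞 F))
    [Decidable (v ∈ P)] : HasSum (fun n => lterm P χ s (v, n))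
      (if v ∈ P then -Complex.log (1 - χ v * (nm v : ℂ) ^ (-s)) else 0) := by
  by_cases h : v ∈ P
  · rw [if_pos h]
    have h1 : (fun n => lterm P χ s (v, n)) =
        fun n : ℕ => (χ v * (nm v : ℂ) ^ (-s)) ^ (n + 1) / ((n + 1 : ℕ) : ℂ) := by
      funext n
      classical
      rw [lterm_eq, if_pos h]
    rw [h1]
    exact hasSum_log (norm_fac_lt (hχ v h) v (by linarith))
  · rw [if_neg h]
    have h1 : (fun n => lterm P χ s (v, n)) = fun _ => 0 := by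
      funext n
      classical
      rw [lterm_eq, if_neg h]
    rw [h1]
    exact hasSum_zero

theorem LP_eq {P : Set (HeightOneSpectrum (𝓞 F))} [DecidablePred (· ∈ P)]
    {χ : HeightOneSpectrum (𝓞 F) → ℂ}
    (hχ : ∀ v ∈ P, ‖χ v‖ ≤ 1) {s : ℂ} (hs : 1 < s.re) :
    Summable (fun v => if v ∈ P then -Complex.log (1 - χ v * (nm v : ℂ) ^ (-s)) else 0) ∧
    LP P χ s = Complex.exp (∑' v : HeightOneSpectrum (𝓞 F),
      if v ∈ P then -Complex.log (1 - χ v * (nm v : ℂ) ^ (-s)) else 0) := by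
  have h := (lterm_summable hχ hs).hasSum.prod_fiberwise (fun v => tsum_lterm hχ hs v)
  refine ⟨h.summable, ?_⟩
  unfold LP
  rw [h.tsum_eq]

theorem LP_finite {P : Set (HeightOneSpectrum (𝓞 F))} (hP : P.Finite)
    {χ : HeightOneSpectrum (𝓞 F) → ℂ} (hχ : ∀ v ∈ P, ‖χ v‖ ≤ 1) {s : ℂ} (hs : 1 < s.re) :
    LP P χ s = ∏ v ∈ hP.toFinset, (1 - χ v * (nm v : ℂ) ^ (-s))⁻¹ := by
  classical
  rw [(LP_eq hχ hs).2]
  have h1 : ∑' v : HeightOneSpectrum (𝓞 F),
      (if v ∈ P then -Complex.log (1 - χ v * (nm v : ℂ) ^ (-s)) else 0) =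
      ∑ v ∈ hP.toFinset, -Complex.log (1 - χ v * (nm v : ℂ) ^ (-s)) := by
    rw [tsum_eq_sum (s := hP.toFinset)]
    · refine Finset.sum_congr rfl fun v hv => ?_
      rw [if_pos (hP.mem_toFinset.1 hv)]
    · intro v hv
      rw [if_neg (fun h => hv (hP.mem_toFinset.2 h))]
  rw [h1, Complex.exp_sum]
  refine Finset.prod_congr rfl fun v hv => ?_
  rw [Complex.exp_neg, Complex.exp_log
    (one_sub_ne (norm_fac_lt (hχ v (hP.mem_toFinset.1 hv)) v (by linarith)))]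

theorem fac_diff (z : ℂ) (v : HeightOneSpectrum (𝓞 F)) :
    Differentiable ℂ fun s : ℂ => 1 - z * (nm v : ℂ) ^ (-s) := by
  have h0 : (nm v : ℂ) ≠ 0 := by exact_mod_cast nm_ne_zero v
  refine (differentiable_const _).sub ((differentiable_const _).mul ?_)
  exact fun s => (differentiableAt_id.neg).const_cpow (Or.inl h0)

theorem fac_analytic (z : ℂ) (v : HeightOneSpectrum (𝓞 F)) (s : ℂ) :
    AnalyticAt ℂ (fun s : ℂ => 1 - z * (nm v : ℂ) ^ (-s)) s :=
  (fac_diff z v).analyticAt s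

/-- **Comparison of two Euler products which differ at finitely many primes.** -/
theorem LP_compare {P P' : Set (HeightOneSpectrum (𝓞 F))} {χ χ' : HeightOneSpectrum (𝓞 F) → ℂ}
    (h1 : (P \ P').Finite) (h2 : (P' \ P).Finite) (hχ : ∀ v, ‖χ v‖ ≤ 1) (hχ' : ∀ v, ‖χ' v‖ ≤ 1)
    (heq : ∀ v ∈ P ∩ P', χ v = χ' v) : ∃ E : ℂ → ℂ, MeromorphicOn E Set.univ ∧
      (∀ s : ℂ, 1 < s.re → LP P χ s = E s * LP P' χ' s) ∧
      ∀ s : ℂ, 0 < s.re → AnalyticAt ℂ E s ∧ E s ≠ 0 := by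
  classical
  refine ⟨fun s => (∏ v ∈ h1.toFinset, (1 - χ v * (nm v : ℂ) ^ (-s))⁻¹) *
    ∏ v ∈ h2.toFinset, (1 - χ' v * (nm v : ℂ) ^ (-s)), ?_, ?_, ?_⟩
  · intro s _
    refine MeromorphicAt.fun_mul (MeromorphicAt.fun_prod fun v _ => ?_)
      (MeromorphicAt.fun_prod fun v _ => (fac_analytic _ v s).meromorphicAt)
    exact (fac_analytic _ v s).meromorphicAt.fun_inv
  · intro s hs
    have e1 : P = (P ∩ P') ∪ (P \ P') := (Set.inter_union_sdiff P P').symm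
    have e2 : P' = (P ∩ P') ∪ (P' \ P) := by
      rw [Set.inter_comm]
      exact (Set.inter_union_sdiff P' P).symm
    have d1 : Disjoint (P ∩ P') (P \ P') := Set.disjoint_left.2 fun v hv hv' => hv'.2 hv.2
    have d2 : Disjoint (P ∩ P') (P' \ P) := Set.disjoint_left.2 fun v hv hv' => hv'.2 hv.1
    have h3 : LP P χ s = LP (P ∩ P') χ s * LP (P \ P') χ s := by
      conv_lhs => rw [e1]
      exact LP_union d1 hχ hs
    have h4 : LP P' χ' s = LP (P ∩ P') χ' s * LP (P' \ P) χ' s := by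
      conv_lhs => rw [e2]
      exact LP_union d2 hχ' hs
    rw [h3, h4, LP_congr heq, LP_finite h1 (fun v _ => hχ v) hs,
      LP_finite h2 (fun v _ => hχ' v) hs]
    have h5 : ∏ v ∈ h2.toFinset, (1 - χ' v * (nm v : ℂ) ^ (-s)) ≠ 0 :=
      Finset.prod_ne_zero_iff.2 fun v _ => one_sub_ne (norm_fac_lt (hχ' v) v (by linarith))
    rw [Finset.prod_inv_distrib (f := fun v => (1 - χ' v * (nm v : ℂ) ^ (-s)))]
    field_simp
  · intro s hs
    have hne : ∀ (z : ℂ), ‖z‖ ≤ 1 → ∀ v : HeightOneSpectrum (𝓞 F), 1 - z * (nm v : ℂ) ^ (-s) ≠ 0 :=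
      fun z hz v => one_sub_ne (norm_fac_lt hz v hs)
    refine ⟨?_, ?_⟩
    · refine AnalyticAt.fun_mul (Finset.analyticAt_fun_prod _ fun v _ => ?_)
        (Finset.analyticAt_fun_prod _ fun v _ => fac_analytic _ v s)
      exact (fac_analytic _ v s).fun_inv (hne _ (hχ v) v)
    · exact mul_ne_zero (Finset.prod_ne_zero_iff.2 fun v _ => inv_ne_zero (hne _ (hχ v) v))
        (Finset.prod_ne_zero_iff.2 fun v _ => hne _ (hχ' v) v)

open scoped Classical in
/-- `N(I)^{-s}` for nonzero ideals -/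
noncomputable def gI (s : ℂ) (I : Ideal (𝓞 F)) : ℂ :=
  if I = ⊥ then 0 else (Ideal.absNorm I : ℂ) ^ (-s)

theorem gI_cm (s : ℂ) : Pool.Agent.Y690.CM (gI (F := F) s) := by
  refine ⟨if_pos rfl, ?_, fun I J => ?_⟩
  · unfold gI
    rw [if_neg (bot_ne_top (α := Ideal (𝓞 F))).symm, Ideal.absNorm_top, Nat.cast_one,
      Complex.one_cpow]
  · unfold gI
    by_cases hI : I = ⊥
    · rw [hI, Ideal.bot_mul, if_pos rfl, zero_mul]
    by_cases hJ : J = ⊥
    · rw [hJ, Ideal.mul_bot, if_pos rfl, mul_zero]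
    have hIJ : I * J ≠ ⊥ := by
      rw [Ne, Ideal.mul_eq_bot]
      tauto
    rw [if_neg hI, if_neg hJ, if_neg hIJ, map_mul, Nat.cast_mul, Complex.natCast_mul_natCast_cpow]

theorem gI_hasSum {s : ℂ} (hs : 1 < s.re) : HasSum (gI (F := F) s) (NumberField.dedekindZeta F s) := by
  rw [Pool.Agent.H484R2.zeta_eq F hs]
  have h := Pool.Agent.H484R2.hasSum_ideals F hs
  have h2 : (fun I : Pool.Agent.H484R2.NZI F => (Ideal.absNorm I.1 : ℂ) ^ (-s)) =
      gI (F := F) s ∘ Subtype.val := by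
    funext I
    exact (if_neg I.2).symm
  rw [h2] at h
  refine (Function.Injective.hasSum_iff Subtype.val_injective (fun I hI => ?_)).1 h
  refine if_pos ?_
  by_contra h3
  exact hI ⟨⟨I, h3⟩, rfl⟩

theorem gI_summable {s : ℂ} (hs : 1 < s.re) : Summable fun I : Ideal (𝓞 F) => ‖gI s I‖ :=
  (gI_hasSum (F := F) hs).summable.norm

/-- the zeta function of a number field as an Euler product -/
theorem zeta_eq_LP {s : ℂ} (hs : 1 < s.re) :
    NumberField.dedekindZeta F s = LP (Set.univ : Set (HeightOneSpectrum (𝓞 F))) (fun _ => 1) s := by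
  classical
  have hχ : ∀ v ∈ (Set.univ : Set (HeightOneSpectrum (𝓞 F))), ‖(fun _ => (1 : ℂ)) v‖ ≤ 1 :=
    fun v _ => by simp
  obtain ⟨h1, h2⟩ := LP_eq hχ hs
  rw [h2, ← (gI_hasSum (F := F) hs).tsum_eq,
    ← (Pool.Agent.Y690.hasProd_ideal (gI_cm s) (gI_summable hs)).tprod_eq, ← h1.hasSum.cexp.tprod_eq]
  refine tprod_congr fun v => ?_
  change (1 - gI s v.asIdeal)⁻¹ = Complex.exp (if v ∈ Set.univ then _ else 0)
  rw [if_pos (Set.mem_univ _)]
  have h3 : gI s v.asIdeal = 1 * (nm v : ℂ) ^ (-s) := by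
    rw [one_mul]
    exact if_neg v.ne_bot
  rw [h3, Complex.exp_neg, Complex.exp_log]
  exact one_sub_ne (norm_fac_lt (by simp) v (by linarith))

end

end Pool.Agent.Q92.AR
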