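import Pool.Agent.Q92.AR.IndL
import Pool.Agent.Q92.AR.LP

/-!
# Artin L-functions

`M/K` is a Galois extension of number fields.  `artinL M φ s` is the Artin L-function `L(s, φ, M/K)` of
the class function `φ` of the Galois group for `Re s > 1`, without the Euler factors at the primes of
`K` which ramify in `M`.
-/

set_option autoImplicit false
set_option linter.unusedSectionVars false

namespace Pool.Agent.Q92.AR

open NumberField IsDedekindDomain Filter Topology Pool.Agent.H921R2.TatePole Pool.Agent.W353.NF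
  Pool.Agent.Q5.BR Pool.Agent.H541R3.ART
open Pool.Agent.Q92.RT (induced induced_conj induced_pair class_expand)

section
variable {K : Type} [Field K] [NumberField K] (M : Type) [Field M] [NumberField M] [Algebra K M]

open scoped Classical in
/-- `φ(Frob_v^n) / (n q_v^{n s})`, `n = x.2 + 1`, for the primes `v = x.1` of `K` unramified in `M`. -/
noncomputable def artTerm (φ : (M ≃ₐ[K] M) → ℂ) (s : ℂ) (x : HeightOneSpectrum (𝓞 K) × ℕ) : ℂ :=
  if Unramified M x.1 then φ (frob M x.1 ^ (x.2 + 1)) /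
    (((x.2 + 1 : ℕ) : ℂ) * (Ideal.absNorm x.1.asIdeal : ℂ) ^ (((x.2 + 1 : ℕ) : ℂ) * s)) else 0

/-- The Artin L-function `L(s, φ, M/K)` of the class function `φ` of the Galois group of `M/K`, for
`Re s > 1`, without the Euler factors at the primes of `K` which ramify in `M`. -/
noncomputable def artinL (φ : (M ≃ₐ[K] M) → ℂ) (s : ℂ) : ℂ :=
  Complex.exp (∑' x, artTerm M φ s x)

variable {M}

theorem artinL_ne_zero (φ : (M ≃ₐ[K] M) → ℂ) (s : ℂ) : artinL M φ s ≠ 0 := Complex.exp_ne_zero _

theorem exists_bound (φ : (M ≃ₐ[K] M) → ℂ) : ∃ C : ℝ, 0 ≤ C ∧ ∀ g, ‖φ g‖ ≤ C := by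
  have : Fintype (M ≃ₐ[K] M) := Fintype.ofFinite _
  exact ⟨∑ g, ‖φ g‖, Finset.sum_nonneg fun g _ => norm_nonneg _, fun g =>
    Finset.single_le_sum (f := fun g => ‖φ g‖) (fun g _ => norm_nonneg _) (Finset.mem_univ g)⟩

theorem norm_div_le (z : ℂ) (v : HeightOneSpectrum (𝓞 K)) (s : ℂ) (n : ℕ) :
    ‖z / (((n + 1 : ℕ) : ℂ) * (Ideal.absNorm v.asIdeal : ℂ) ^ (((n + 1 : ℕ) : ℂ) * s))‖ ≤
      ‖z‖ * ((nm v : ℝ) ^ (-s.re)) ^ (n + 1) := by
  have h0 : (Ideal.absNorm v.asIdeal : ℂ) = (nm v : ℂ) := rfl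
  rw [h0, cpow_succ_mul, norm_div, norm_mul, norm_inv, norm_pow,
    Complex.norm_natCast_cpow_of_pos (by have := two_le_nm v; omega), Complex.neg_re,
    Complex.norm_natCast, div_eq_mul_inv, mul_inv, inv_inv]
  refine mul_le_mul_of_nonneg_left ?_ (norm_nonneg _)
  refine mul_le_of_le_one_left (by positivity) ?_
  refine inv_le_one_of_one_le₀ ?_
  exact_mod_cast Nat.succ_le_succ (Nat.zero_le n)

theorem artTerm_summable (φ : (M ≃ₐ[K] M) → ℂ) {s : ℂ} (hs : 1 < s.re) :
    Summable (artTerm M φ s) := by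
  classical
  obtain ⟨C, hC0, hC⟩ := exists_bound φ
  refine Summable.of_norm_bounded ((summable_geo (F := K) hs).mul_left C) fun x => ?_
  unfold artTerm
  split_ifs
  · exact (norm_div_le _ _ _ _).trans (mul_le_mul_of_nonneg_right (hC _) (by positivity))
  · rw [norm_zero]
    positivity

theorem artTerm_sum {ι : Type*} (T : Finset ι) (m : ι → ℂ) (φ : ι → (M ≃ₐ[K] M) → ℂ) (s : ℂ)
    (x : HeightOneSpectrum (𝓞 K) × ℕ) :
    artTerm M (fun g => ∑ i ∈ T, m i * φ i g) s x = ∑ i ∈ T, m i * artTerm M (φ i) s x := by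
  classical
  unfold artTerm
  split_ifs
  · rw [Finset.sum_div]
    exact Finset.sum_congr rfl fun i _ => by rw [mul_div_assoc]
  · simp

/-- **The L-function of a sum is the product.** -/
theorem artinL_sum {ι : Type*} (T : Finset ι) (m : ι → ℕ) (φ : ι → (M ≃ₐ[K] M) → ℂ) {s : ℂ}
    (hs : 1 < s.re) :
    artinL M (fun g => ∑ i ∈ T, (m i : ℂ) * φ i g) s = ∏ i ∈ T, artinL M (φ i) s ^ m i := by
  unfold artinL
  have h1 : artTerm M (fun g => ∑ i ∈ T, (m i : ℂ) * φ i g) s = fun x =>
      ∑ i ∈ T, (m i : ℂ) * artTerm M (φ i) s x := funext fun x => artTerm_sum T _ φ s x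
  rw [h1, Summable.tsum_finsetSum (fun i _ => (artTerm_summable (φ i) hs).mul_left _),
    Complex.exp_sum]
  refine Finset.prod_congr rfl fun i _ => ?_
  rw [tsum_mul_left, ← Complex.exp_nat_mul]

/-- the same with integral multiplicities -/
theorem artinL_sum_int {ι : Type*} (T : Finset ι) (m : ι → ℤ) (φ : ι → (M ≃ₐ[K] M) → ℂ) {s : ℂ}
    (hs : 1 < s.re) :
    artinL M (fun g => ∑ i ∈ T, (m i : ℂ) * φ i g) s = ∏ i ∈ T, artinL M (φ i) s ^ m i := by
  unfold artinL
  have h1 : artTerm M (fun g => ∑ i ∈ T, (m i : ℂ) * φ i g) s = fun x =>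
      ∑ i ∈ T, (m i : ℂ) * artTerm M (φ i) s x := funext fun x => artTerm_sum T _ φ s x
  rw [h1, Summable.tsum_finsetSum (fun i _ => (artTerm_summable (φ i) hs).mul_left _),
    Complex.exp_sum]
  refine Finset.prod_congr rfl fun i _ => ?_
  rw [tsum_mul_left, ← Complex.exp_int_mul]

end

/-! ### Induced characters: the L-function is an L-function over the intermediate field -/

section
variable {K F M : Type} [Field K] [NumberField K] [Field F] [NumberField F] [Field M] [NumberField M]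
  [Algebra K F] [Algebra K M] [Algebra F M] [IsScalarTower K F M] [IsGalois K M] [IsGalois F M]

theorem norm_char (ψ' : (M ≃ₐ[F] M) →* ℂˣ) (y : M ≃ₐ[F] M) : ‖((ψ' y : ℂˣ) : ℂ)‖ = 1 := by
  have h : ((ψ' y : ℂˣ) : ℂ) ^ Nat.card (M ≃ₐ[F] M) = 1 := by
    rw [← Units.val_pow_eq_pow_val, ← map_pow, pow_card_eq_one', map_one, Units.val_one]
  exact Complex.norm_eq_one_of_pow_eq_one h Nat.card_pos.ne'

/-- **Inductivity.** The L-function of the character induced by a linear character of the group of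
`M/F` is the Euler product over the primes of `F`. -/
theorem artinL_induced (ψ : fixer K F M →* ℂˣ) (ψ' : (M ≃ₐ[F] M) →* ℂˣ)
    (hψ : ∀ (y : M ≃ₐ[F] M) (hy : y.restrictScalars K ∈ fixer K F M),
      ψ ⟨y.restrictScalars K, hy⟩ = ψ' y) {s : ℂ} (hs : 1 < s.re) :
    artinL M (induced (fixer K F M) ψ) s =
      LP {w : HeightOneSpectrum (𝓞 F) | Unramified M (w.under (𝓞 K))}
        (fun w => ((ψ' (frob M w) : ℂˣ) : ℂ)) s := by
  classical
  set P : Set (HeightOneSpectrum (𝓞 F)) := {w | Unramified M (w.under (𝓞 K))} with hP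
  set χ : HeightOneSpectrum (𝓞 F) → ℂ := fun w => ((ψ' (frob M w) : ℂˣ) : ℂ) with hχd
  have hχ : ∀ v ∈ P, ‖χ v‖ ≤ 1 := fun v _ => (norm_char ψ' _).le
  obtain ⟨h1, h2⟩ := LP_eq hχ hs
  rw [h2]
  unfold artinL
  congr 1
  have h3 := hasSum_above (K := K) h1
  have h4 := (artTerm_summable (induced (fixer K F M) ψ) hs).hasSum.prod_fiberwise
    (g := fun v => ∑ w ∈ above F v,
      if w ∈ P then -Complex.log (1 - χ w * (nm w : ℂ) ^ (-s)) else 0) ?_
  · exact h4.unique h3
  intro v
  by_cases hv : Unramified M v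
  · have h5 : HasSum (fun n => ∑ w ∈ above F v, (if rdeg K w ∣ n + 1 then
        (rdeg K w : ℂ) * (χ w) ^ ((n + 1) / rdeg K w) else 0) *
        ((((nm v : ℂ) ^ (-s)) ^ (n + 1)) / ((n + 1 : ℕ) : ℂ)))
        (∑ w ∈ above F v, if w ∈ P then -Complex.log (1 - χ w * (nm w : ℂ) ^ (-s)) else 0) := by
      refine hasSum_sum fun w hw => ?_
      have hwv := mem_above.1 hw
      have hwP : w ∈ P := by
        change Unramified M (w.under (𝓞 K))
        rw [hwv]
        exact hv
      rw [if_pos hwP]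
      have hd : 0 < rdeg K w := rdeg_pos w
      have hnw : nm w = nm v ^ rdeg K w := by
        have h := absNorm_rdeg (K := K) w
        rw [hwv] at h
        exact h
      have h6 := hasSum_log (norm_fac_lt (hχ w hwP) w (by linarith : (0 : ℝ) < s.re))
      have hinj : Function.Injective fun m : ℕ => rdeg K w * (m + 1) - 1 := by
        intro m m' hmm
        have h3 : rdeg K w * (m + 1) - 1 + 1 = rdeg K w * (m + 1) :=
          Nat.sub_add_cancel (Nat.mul_pos hd m.succ_pos)
        have h4 : rdeg K w * (m' + 1) - 1 + 1 = rdeg K w * (m' + 1) :=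
          Nat.sub_add_cancel (Nat.mul_pos hd m'.succ_pos)
        have h5 : rdeg K w * (m + 1) = rdeg K w * (m' + 1) := by
          rw [← h3, ← h4]
          exact congrArg (· + 1) hmm
        have := Nat.eq_of_mul_eq_mul_left hd h5
        omega
      rw [← hinj.hasSum_iff]
      · refine h6.congr_fun fun m => ?_
        simp only [Function.comp]
        have h3 : rdeg K w * (m + 1) - 1 + 1 = rdeg K w * (m + 1) :=
          Nat.sub_add_cancel (Nat.mul_pos hd m.succ_pos)
        rw [h3, if_pos (Dvd.intro _ rfl), Nat.mul_div_cancel_left _ hd, hnw, Nat.cast_pow,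
          mul_pow, Nat.cast_mul]
        have h7 : ((nm v : ℂ) ^ rdeg K w) ^ (-s) = ((nm v : ℂ) ^ (-s)) ^ rdeg K w := by
          rw [← Complex.natCast_cpow_natCast_mul, ← Complex.cpow_nat_mul]
        rw [h7, ← pow_mul]
        have hdc : (rdeg K w : ℂ) ≠ 0 := by exact_mod_cast hd.ne'
        have hmc : ((m + 1 : ℕ) : ℂ) ≠ 0 := by exact_mod_cast m.succ_ne_zero
        field_simp
      · intro n hn
        have : ¬ rdeg K w ∣ n + 1 := by
          rintro ⟨c, hc⟩
          apply hn
          have hc0 : c ≠ 0 := by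
            rintro rfl
            omega
          obtain ⟨m, rfl⟩ := Nat.exists_eq_succ_of_ne_zero hc0
          refine ⟨m, ?_⟩
          change rdeg K w * (m + 1) - 1 = n
          rw [← Nat.succ_eq_add_one m, ← hc]
          omega
        simp only [if_neg this, zero_mul]
    refine h5.congr_fun fun n => ?_
    unfold artTerm
    rw [if_pos hv, induced_frob hv (frob_spec v) ψ ψ' hψ, ← Finset.sum_mul]
    have h8 : (Ideal.absNorm v.asIdeal : ℂ) = (nm v : ℂ) := rfl
    rw [h8, cpow_succ_mul, div_mul_eq_div_div_swap, div_inv_eq_mul, mul_div_assoc]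
  · have e1 : (∑ w ∈ above F v,
        if w ∈ P then -Complex.log (1 - χ w * (nm w : ℂ) ^ (-s)) else 0) = 0 := by
      refine Finset.sum_eq_zero fun w hw => if_neg fun hwP => hv ?_
      have h9 : Unramified M (w.under (𝓞 K)) := hwP
      rwa [mem_above.1 hw] at h9
    rw [e1]
    have e2 : (fun n => artTerm M (induced (fixer K F M) ψ) s (v, n)) = fun _ => 0 := by
      funext n
      unfold artTerm
      rw [if_neg hv]
    rw [e2]
    exact hasSum_zero

end

end Pool.Agent.Q92.AR
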