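import Pool.Agent.Q92.AR.Fro
import Pool.Agent.TeamU.GalAct

/-! # Divisors, ray groups, norms, Artin map, Herbrand quotients: definitions (project AR) -/

set_option autoImplicit false
set_option linter.unusedSectionVars false
set_option linter.deprecated false

namespace Pool.Agent.Q92.AR

open NumberField IsDedekindDomain Pool.Agent.Q5.BR

section
variable (F : Type) [Field F] [NumberField F]

/-- Divisors of a number field: the group of fractional ideals, written additively. -/
abbrev Dv : Type := HeightOneSpectrum (𝓞 F) →₀ ℤ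

variable {F}

open scoped Classical in
/-- The divisor of `x ∈ Fˣ`. -/
noncomputable def prin (x : Fˣ) : Dv F :=
  Finsupp.ofSupportFinite
    (fun v => FractionalIdeal.count F v (FractionalIdeal.spanSingleton (nonZeroDivisors (𝓞 F)) (x : F)))
    (by
      have h := FractionalIdeal.finite_factors (K := F)
        (FractionalIdeal.spanSingleton (nonZeroDivisors (𝓞 F)) (x : F))
      rw [Filter.eventually_cofinite] at h
      exact h)

theorem prin_apply (x : Fˣ) (v : HeightOneSpectrum (𝓞 F)) : prin x v =
    FractionalIdeal.count F v (FractionalIdeal.spanSingleton (nonZeroDivisors (𝓞 F)) (x : F)) := rfl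

theorem prin_mul (x y : Fˣ) : prin (x * y) = prin x + prin y := by
  classical
  ext v
  rw [Finsupp.add_apply, prin_apply, prin_apply, prin_apply, Units.val_mul,
    ← FractionalIdeal.spanSingleton_mul_spanSingleton, FractionalIdeal.count_mul]
  · exact FractionalIdeal.spanSingleton_ne_zero_iff.2 x.ne_zero
  · exact FractionalIdeal.spanSingleton_ne_zero_iff.2 y.ne_zero

/-- the divisor map as a homomorphism -/
noncomputable def prinHom : Additive Fˣ →+ Dv F where
  toFun x := prin x.toMul
  map_zero' := by
    have h := prin_mul (1 : Fˣ) 1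
    rw [mul_one] at h
    have h2 : prin (1 : Fˣ) + 0 = prin (1 : Fˣ) + prin (1 : Fˣ) := by rw [add_zero]; exact h
    exact (add_left_cancel h2).symm
  map_add' x y := prin_mul _ _

theorem prin_one : prin (1 : Fˣ) = 0 := (prinHom (F := F)).map_zero

theorem prin_inv (x : Fˣ) : prin x⁻¹ = - prin x := (prinHom (F := F)).map_neg (Additive.ofMul x)

theorem prin_div (x y : Fˣ) : prin (x / y) = prin x - prin y :=
  (prinHom (F := F)).map_sub (Additive.ofMul x) (Additive.ofMul y)

/-- `x` is congruent to `1` modulo the integer `N` (multiplicatively): `v(x - 1) ≥ v(N)` for all primes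
`v` dividing `N`. -/
def Cong (N : ℕ) (x : F) : Prop :=
  ∀ v : HeightOneSpectrum (𝓞 F), (N : 𝓞 F) ∈ v.asIdeal →
    v.valuation F (x - 1) ≤ v.valuation F (N : F)

/-- `x` is positive at all real places. -/
def Pos (x : F) : Prop := ∀ φ : F →+* ℝ, 0 < φ x

/-- the divisors prime to `N` -/
noncomputable def Pr (F : Type) [Field F] [NumberField F] (N : ℕ) : AddSubgroup (Dv F) where
  carrier := {D | ∀ v : HeightOneSpectrum (𝓞 F), (N : 𝓞 F) ∈ v.asIdeal → D v = 0}
  add_mem' {a b} ha hb v hv := by rw [Finsupp.add_apply, ha v hv, hb v hv, add_zero]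
  zero_mem' v _ := rfl
  neg_mem' {a} ha v hv := by rw [Finsupp.neg_apply, ha v hv, neg_zero]

theorem mem_Pr {N : ℕ} {D : Dv F} :
    D ∈ Pr F N ↔ ∀ v : HeightOneSpectrum (𝓞 F), (N : 𝓞 F) ∈ v.asIdeal → D v = 0 := Iff.rfl

theorem val_eq_one {N : ℕ} {x : F} {v : HeightOneSpectrum (𝓞 F)}
    (hv : (N : 𝓞 F) ∈ v.asIdeal) (hx : v.valuation F (x - 1) ≤ v.valuation F (N : F)) :
    v.valuation F x = 1 := by
  have h1 : v.valuation F (N : F) < 1 := by
    have h := (v.valuation_lt_one_iff_mem (K := F) (N : 𝓞 F)).2 hv
    simpa using h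
  have h2 : v.valuation F (x - 1) < v.valuation F (1 : F) := by
    rw [map_one]
    exact lt_of_le_of_lt hx h1
  have h3 := Valuation.map_add_eq_of_lt_right (v.valuation F) h2
  rw [sub_add_cancel, map_one] at h3
  exact h3

/-- The group of the elements congruent to `1` modulo `N` and positive at all real places. -/
def Ray (F : Type) [Field F] [NumberField F] (N : ℕ) : Set Fˣ := {x | Cong N (x : F) ∧ Pos (x : F)}

/-- the group generated by the divisors of the elements of `Ray F N` -/
noncomputable def RayD (F : Type) [Field F] [NumberField F] (N : ℕ) : AddSubgroup (Dv F) :=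
  AddSubgroup.closure (prin '' Ray F N)

end

section
variable (F E : Type) [Field F] [NumberField F] [Field E] [NumberField E] [Algebra F E]

open scoped Classical in
/-- The norm of divisors: `w ↦ f(w/v) v`, `v` the prime below `w`. -/
noncomputable def nmD : Dv E →+ Dv F :=
  Finsupp.liftAddHom fun w : HeightOneSpectrum (𝓞 E) =>
    (Finsupp.singleAddHom (w.under (𝓞 F))).comp (AddMonoidHom.mulLeft (rdeg F w : ℤ))

theorem nmD_single (w : HeightOneSpectrum (𝓞 E)) (k : ℤ) :
    nmD F E (Finsupp.single w k) = Finsupp.single (w.under (𝓞 F)) ((rdeg F w : ℤ) * k) := by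
  unfold nmD
  rw [Finsupp.liftAddHom_apply_single]
  rfl

/-- The subgroup of the divisors of `F` prime to `N` generated by the ray modulo `N ∞` and by the norms
of the divisors of `E` prime to `N`. -/
noncomputable def HN (N : ℕ) : AddSubgroup (Dv F) := RayD F N ⊔ (Pr E N).map (nmD F E)

/-- all the primes of `F` that ramify in `E` divide `N` -/
def Ram (N : ℕ) : Prop := ∀ v : HeightOneSpectrum (𝓞 F), ¬ Unramified E v → (N : 𝓞 F) ∈ v.asIdeal

variable {F E}

/-- The Artin map followed by a character `ψ` of the Galois group: `v ↦ ψ(Frob_v)`. -/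
noncomputable def art (ψ : (E ≃ₐ[F] E) →* ℂˣ) : Dv F →+ Additive ℂˣ :=
  Finsupp.liftAddHom fun v => (zmultiplesHom (Additive ℂˣ)) (Additive.ofMul (ψ (frob E v)))

theorem art_single (ψ : (E ≃ₐ[F] E) →* ℂˣ) (v : HeightOneSpectrum (𝓞 F)) (k : ℤ) :
    art ψ (Finsupp.single v k) = k • Additive.ofMul (ψ (frob E v)) := by
  unfold art
  rw [Finsupp.liftAddHom_apply_single]
  rfl

/-- the real places of `F` that ramify in `E` (for Galois extensions) -/
def RealRam (F E : Type) [Field F] [NumberField F] [Field E] [NumberField E] [Algebra F E] : Type :=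
  {φ : F →+* ℝ // ¬ ∃ χ : E →+* ℝ, χ.comp (algebraMap F E) = φ}

end

/-! ### The Galois action, divisors supported above a set of primes -/

section
variable {F E : Type} [Field F] [NumberField F] [Field E] [NumberField E] [Algebra F E]

/-- the action of `σ` on `Eˣ` -/
noncomputable def sE (σ : E ≃ₐ[F] E) : AddMonoid.End (Additive Eˣ) :=
  MonoidHom.toAdditive (Units.map (σ : E →* E))

theorem sE_apply (σ : E ≃ₐ[F] E) (x : Additive Eˣ) :
    ((sE σ x).toMul : E) = σ ((x.toMul : Eˣ) : E) := rfl

open scoped Classical in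
/-- the action of `σ` on the divisors of `E`: `w ↦ σ w` -/
noncomputable def sD (σ : E ≃ₐ[F] E) : AddMonoid.End (Dv E) :=
  Finsupp.mapDomain.addMonoidHom (Pool.Agent.TeamU.act σ)

open scoped Classical in
/-- the divisor `D` of `F` as a function of the primes of `E` (for unramified primes this is the
divisor of `E` generated by `D`): `(puD D) w = D v`, `v` the prime below `w` -/
noncomputable def puD (F E : Type) [Field F] [NumberField F] [Field E] [NumberField E]
    [Algebra F E] : Dv F →+ Dv E :=
  Finsupp.liftAddHom fun v : HeightOneSpectrum (𝓞 F) =>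
    ∑ w ∈ above E v, Finsupp.singleAddHom w

/-- divisors of `F` supported in `T` -/
noncomputable def SupF (F : Type) [Field F] [NumberField F] (T : Set (HeightOneSpectrum (𝓞 F))) :
    AddSubgroup (Dv F) where
  carrier := {D | ∀ v, v ∉ T → D v = 0}
  add_mem' {a b} ha hb v hv := by rw [Finsupp.add_apply, ha v hv, hb v hv, add_zero]
  zero_mem' v _ := rfl
  neg_mem' {a} ha v hv := by rw [Finsupp.neg_apply, ha v hv, neg_zero]

/-- divisors of `E` supported above `T` -/
noncomputable def SupE (F E : Type) [Field F] [NumberField F] [Field E] [NumberField E]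
    [Algebra F E] (T : Set (HeightOneSpectrum (𝓞 F))) : AddSubgroup (Dv E) where
  carrier := {D | ∀ w : HeightOneSpectrum (𝓞 E), w.under (𝓞 F) ∉ T → D w = 0}
  add_mem' {a b} ha hb v hv := by rw [Finsupp.add_apply, ha v hv, hb v hv, add_zero]
  zero_mem' v _ := rfl
  neg_mem' {a} ha v hv := by rw [Finsupp.neg_apply, ha v hv, neg_zero]

/-- the elements of `A` whose divisor is supported above `T` -/
noncomputable def AS (A : Subgroup Eˣ) (T : Set (HeightOneSpectrum (𝓞 F))) :
    AddSubgroup (Additive Eˣ) where
  carrier := {x | x.toMul ∈ A ∧ prin x.toMul ∈ SupE F E T}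
  add_mem' {a b} ha hb := ⟨A.mul_mem ha.1 hb.1, by
    have h : prin (a.toMul * b.toMul) ∈ SupE F E T := by
      rw [prin_mul]
      exact (SupE F E T).add_mem ha.2 hb.2
    exact h⟩
  zero_mem' := ⟨A.one_mem, by
    have h : prin (1 : Eˣ) ∈ SupE F E T := by
      rw [prin_one]
      exact (SupE F E T).zero_mem
    exact h⟩
  neg_mem' {a} ha := ⟨A.inv_mem ha.1, by
    have h : prin (a.toMul)⁻¹ ∈ SupE F E T := by
      rw [prin_inv]
      exact (SupE F E T).neg_mem ha.2
    exact h⟩

/-- `c ∈ Fˣ` as an element of `Eˣ` -/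
noncomputable def up (F E : Type) [Field F] [Field E] [Algebra F E] : Fˣ →* Eˣ :=
  Units.map (algebraMap F E : F →* E)

/-- the norm `Eˣ → Fˣ` -/
noncomputable def nu (F E : Type) [Field F] [Field E] [Algebra F E] : Eˣ →* Fˣ :=
  Units.map (Algebra.norm F : E →* F)

/-- `τ` is the restriction of `σ` to a subgroup `H` -/
def IsRes {A : Type} [AddCommGroup A] (σ : AddMonoid.End A) {H : AddSubgroup A}
    (τ : AddMonoid.End H) : Prop := ∀ u : H, ((τ u : H) : A) = σ (u : A)

end

/-! ### Herbrand quotients of a module over a cyclic group -/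

section
variable {A : Type} [AddCommGroup A]

/-- the trace `∑_{i < n} σ^i` -/
def tr (σ : AddMonoid.End A) (n : ℕ) : A →+ A := (∑ i ∈ Finset.range n, σ ^ i : AddMonoid.End A)

/-- `σ - 1` -/
def df (σ : AddMonoid.End A) : A →+ A := (σ - 1 : AddMonoid.End A)

/-- the order of `A^G / tr A` (`0` if it is infinite) -/
noncomputable def q0 (σ : AddMonoid.End A) (n : ℕ) : ℕ := (tr σ n).range.relIndex (df σ).ker

/-- the order of `ker tr / (σ - 1) A` (`0` if it is infinite) -/
noncomputable def q1 (σ : AddMonoid.End A) (n : ℕ) : ℕ := (df σ).range.relIndex (tr σ n).ker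

theorem df_apply (σ : AddMonoid.End A) (a : A) : df σ a = σ a - a := rfl

theorem tr_apply (σ : AddMonoid.End A) (n : ℕ) (a : A) :
    tr σ n a = ∑ i ∈ Finset.range n, (σ ^ i) a := by
  unfold tr
  exact AddMonoidHom.finsetSum_apply _ _ _

end

end Pool.Agent.Q92.AR
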