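import Pool.Agent.Q92.AR.Two

/-!
# From `ArtinData` to the Artin L-functions of an extension

Short names for the functions of `ArtinData.ofExtension` and the orders of the zeta functions of the
fields between `K` and `M`.
-/

set_option autoImplicit false
set_option linter.unusedSectionVars false

namespace Pool.Agent.Q92.AR

open NumberField IsDedekindDomain Filter Topology Pool.Agent.H541R3.ART
open Pool.Agent.Q92.RT (induced)

section
variable {K M : Type} [Field K] [NumberField K] [Field M] [NumberField M] [Algebra K M]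

@[simp] theorem ofExtension_L {s₀ : ℂ} (h : Continued (K := K) M s₀) (χ : (M ≃ₐ[K] M) → ℂ) :
    (ArtinData.ofExtension h).L χ = cont (artinL M χ) := rfl

@[simp] theorem ofExtension_Lin {s₀ : ℂ} (h : Continued (K := K) M s₀)
    (H : Subgroup (M ≃ₐ[K] M)) (ψ : H →* ℂˣ) :
    (ArtinData.ofExtension h).Lin H ψ = cont (artinL M (induced H ψ)) := rfl

/-- The order of the zeta function of a field `F` between `K` and `M`. -/
theorem lin_fixer {F : Type} [Field F] [NumberField F] [Algebra K F] [Algebra F M]
    [IsScalarTower K F M] [IsGalois K M] {s₀ : ℂ} (h : Continued (K := K) M s₀) (h0 : 0 < s₀.re) :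
    meromorphicOrderAt ((ArtinData.ofExtension h).Lin (fixer K F M) 1) s₀ =
      meromorphicOrderAt (cont (NumberField.dedekindZeta F)) s₀ := by
  obtain ⟨f, hf, -⟩ := h.hecke (fixer K F M) 1
  have h1 := cont_spec (⟨f, hf⟩ : ∃ f : ℂ → ℂ, Continues f (artinL M (induced (fixer K F M) 1)))
  obtain ⟨E, hE1, hE2, -⟩ := zeta_compare (K := K) (F := F) (M := M)
  have h2 : ∃ g : ℂ → ℂ, Continues g (NumberField.dedekindZeta F) := by
    refine ⟨fun s => E s * f s, fun s hs => (hE1 s hs).fun_mul (hf.1 s hs), fun s hs => ?_⟩
    change E s * f s = _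
    rw [hE2 s hs, hf.2 s hs]
  exact (order_zeta (K := K) (M := M) (cont_spec h2) h1 h0).symm

/-- The order of the zeta function of the fixed field of a subgroup. -/
theorem lin_fixed [IsGalois K M] {s₀ : ℂ} (h : Continued (K := K) M s₀) (h0 : 0 < s₀.re)
    (H : Subgroup (M ≃ₐ[K] M)) :
    meromorphicOrderAt ((ArtinData.ofExtension h).Lin H 1) s₀ =
      meromorphicOrderAt (cont (NumberField.dedekindZeta (IntermediateField.fixedField H))) s₀ := by
  have h1 := lin_fixer (F := IntermediateField.fixedField H) h h0
  rw [fixer_fixedField H] at h1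
  exact h1

/-- The order of the zeta function of `M`. -/
theorem lin_bot [IsGalois K M] {s₀ : ℂ} (h : Continued (K := K) M s₀) (h0 : 0 < s₀.re) :
    meromorphicOrderAt ((ArtinData.ofExtension h).Lin ⊥ 1) s₀ =
      meromorphicOrderAt (cont (NumberField.dedekindZeta M)) s₀ := by
  have h1 := lin_fixer (F := M) h h0
  rw [fixer_self] at h1
  exact h1

/-- The order of the zeta function of `K`. -/
theorem lin_top [IsGalois K M] {s₀ : ℂ} (h : Continued (K := K) M s₀) (h0 : 0 < s₀.re) :
    meromorphicOrderAt ((ArtinData.ofExtension h).Lin ⊤ 1) s₀ =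
      meromorphicOrderAt (cont (NumberField.dedekindZeta K)) s₀ := by
  have h1 := lin_fixer (F := K) h h0
  rw [fixer_base] at h1
  exact h1

end

end Pool.Agent.Q92.AR
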