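import Pool.Agent.Q92.AR.ZFe
import Pool.Agent.Q92.AR.LP
import Pool.Agent.Y772.NZ.Zeta
import Pool.Agent.Q246.HeckePk

/-!
# The order of the Dedekind zeta function at `s = 1/2` is even
-/

set_option autoImplicit false
set_option linter.unusedSectionVars false

open NumberField Complex Filter Topology
open scoped ComplexConjugate

namespace Pool.Agent.Q92.AR

open Pool.Agent.Y772.NZ Pool.Agent.Y773 Pool.Agent.Q246.Unr

theorem gammaR_conj (s : ℂ) : Gammaℝ (conj s) = conj (Gammaℝ s) := by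
  have h : ((Real.pi : ℝ) : ℂ).arg ≠ Real.pi := by
    rw [Complex.arg_ofReal_of_nonneg Real.pi_pos.le]
    exact Real.pi_ne_zero.symm
  have h2 : conj (2 : ℂ) = 2 := map_ofNat (starRingEnd ℂ) 2
  have h8 := Complex.conj_cpow ((Real.pi : ℝ) : ℂ) (-(s / 2)) h
  rw [Complex.conj_ofReal] at h8
  rw [Gammaℝ_def, Gammaℝ_def, map_mul, ← Complex.Gamma_conj, map_div₀, h2]
  congr 1
  have e1 : -conj s / 2 = conj (-(s / 2)) := by
    rw [map_neg, map_div₀, h2, neg_div]
  have e2 : -s / 2 = -(s / 2) := neg_div _ _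
  rw [e1, e2, Complex.cpow_conj _ _ h, Complex.conj_ofReal]

variable (K : Type) [Field K] [NumberField K]

theorem GG_conj' {ι : Type} [Fintype ι] {R : ℝ} (hR : 0 < R) (e : ι → ℕ) (s : ℂ) :
    GG R e (conj s) = conj (GG R e s) := by
  unfold GG
  have h : (R : ℂ).arg ≠ Real.pi := by
    rw [Complex.arg_ofReal_of_nonneg hR.le]
    exact Real.pi_ne_zero.symm
  have h2 : conj (2 : ℂ) = 2 := map_ofNat (starRingEnd ℂ) 2
  rw [map_mul, map_prod]
  congr 1
  · have e1 : conj s / 2 = conj (s / 2) := by rw [map_div₀, h2]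
    rw [e1, Complex.cpow_conj _ _ h, Complex.conj_ofReal]
  · refine Finset.prod_congr rfl fun i _ => ?_
    rw [← gammaR_conj, map_add, Complex.conj_natCast]

theorem LI_one_conj (s : ℂ) : LI (one K) (conj s) = conj (LI (one K) s) := by
  unfold LI
  rw [Complex.conj_tsum]
  refine tsum_congr fun 𝔞 => ?_
  have h1 : conj (one K 𝔞) = one K 𝔞 := by
    by_cases h : 𝔞 = 0
    · rw [h, map_zero, map_zero]
    · rw [one_ne K h, map_one]
  have h2 : ((Ideal.absNorm 𝔞 : ℕ) : ℂ).arg ≠ Real.pi := by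
    rw [Complex.natCast_arg]
    exact Real.pi_ne_zero.symm
  rw [map_mul, h1]
  congr 1
  rw [← map_neg, Complex.cpow_conj _ _ h2, Complex.conj_natCast]

theorem uc_one : UC (fun _ : InfinitePlace K => 0) (one K) where
  he _ := zero_le_one
  cpx _ _ := rfl
  ne 𝔞 h := by
    rw [one_ne K h]
    exact one_ne_zero
  sig x hx := by
    have h : Ideal.span {x} ≠ 0 := by
      rw [Ne, Ideal.zero_eq_bot, Ideal.span_singleton_eq_bot]
      exact hx
    rw [one_ne K h]
    unfold G.sg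
    simp

theorem triv_one : Triv (one K) := fun 𝔞 h => one_ne K h

/-- **The functional equation of the Dedekind zeta function.** -/
theorem exists_xi : ∃ U : ℂ → ℂ, Differentiable ℂ U ∧
    (∀ s : ℂ, 1 < s.re → U s = s * (s - 1) *
      (GG (Ideal.absNorm (differentIdeal ℤ (𝓞 K)) : ℝ) (G.ex fun _ : InfinitePlace K => 0) s *
        NumberField.dedekindZeta K s)) ∧ ∀ s : ℂ, U (1 - s) = U s := by
  classical
  obtain ⟨U, w, hU, -, hw1, hUe, hUfe⟩ := fe_one (uc_one K)
  have hw : w = 1 := hw1 (triv_one K) fun _ => rfl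
  subst hw
  have hR0 : (0 : ℝ) < (Ideal.absNorm (differentIdeal ℤ (𝓞 K)) : ℝ) := by
    have h1 : Ideal.absNorm (differentIdeal ℤ (𝓞 K)) ≠ 0 := fun h =>
      differentIdeal_ne_bot (Ideal.absNorm_eq_zero_iff.mp h)
    exact_mod_cast Nat.pos_of_ne_zero h1
  have hval : ∀ s : ℂ, 1 < s.re → U s = s * (s - 1) *
      (GG (Ideal.absNorm (differentIdeal ℤ (𝓞 K)) : ℝ) (G.ex fun _ : InfinitePlace K => 0) s *
        LI (one K) s) := by
    intro s hs
    rw [hUe s hs, if_pos (triv_one K), pow_one]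
  have hconj : ∀ s : ℂ, U s = conj (U (conj s)) := by
    have hd : Differentiable ℂ fun s : ℂ => conj (U (conj s)) := by
      intro s
      have h4 := (hU (conj s)).hasDerivAt.conj_conj
      rw [Complex.conj_conj] at h4
      exact h4.differentiableAt
    have := entire_eq hU hd fun s hs => by
      have hs' : 1 < (conj s).re := by rwa [Complex.conj_re]
      show U s = conj (U (conj s))
      rw [hval s hs, hval _ hs', GG_conj' hR0, LI_one_conj]
      simp only [map_mul, map_sub, map_one, Complex.conj_conj]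
    exact fun s => congrFun this s
  refine ⟨U, hU, fun s hs => ?_, fun s => ?_⟩
  · rw [hval s hs, LI_one K hs]
  · have h1 := hUfe (1 - s)
    rw [one_mul, map_sub, map_one, sub_sub_cancel] at h1
    rw [h1, ← hconj]

/-- an analytic function which is symmetric at `c` has even order at `c` -/
theorem even_order {f : ℂ → ℂ} {c : ℂ} (hf : AnalyticAt ℂ f c) (he : ∀ s, f (2 * c - s) = f s)
    {n : ℕ} (hn : analyticOrderAt f c = n) : Even n := by
  rw [hf.analyticOrderAt_eq_natCast] at hn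
  obtain ⟨g, hg, hg0, hfg⟩ := hn
  have hneg : Tendsto (fun s : ℂ => 2 * c - s) (𝓝 c) (𝓝 c) := by
    have h : Continuous fun s : ℂ => 2 * c - s := by fun_prop
    have h2 := h.tendsto c
    have h3 : 2 * c - c = c := by ring
    rwa [h3] at h2
  have h1 : ∀ᶠ s in 𝓝[≠] c, g s = (-1) ^ n * g (2 * c - s) := by
    have h2 := hneg.eventually hfg
    filter_upwards [mem_nhdsWithin_of_mem_nhds hfg, mem_nhdsWithin_of_mem_nhds h2,
      self_mem_nhdsWithin] with s h3 h4 h5
    have h6 : s - c ≠ 0 := sub_ne_zero.2 h5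
    have h7 : (s - c) ^ n • g s = (2 * c - s - c) ^ n • g (2 * c - s) := by
      have h3' : f s = (s - c) ^ n • g s := h3
      have h4' : f (2 * c - s) = (2 * c - s - c) ^ n • g (2 * c - s) := h4
      rw [← h3', ← h4', he]
    have h8 : 2 * c - s - c = -(s - c) := by ring
    rw [smul_eq_mul, smul_eq_mul, h8, neg_pow] at h7
    have h9 : (s - c) ^ n ≠ 0 := pow_ne_zero _ h6
    have h10 : (s - c) ^ n * g s = (s - c) ^ n * ((-1) ^ n * g (2 * c - s)) := by rw [h7]; ring
    exact mul_left_cancel₀ h9 h10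
  have h2 : Tendsto g (𝓝[≠] c) (𝓝 (g c)) :=
    (hg.continuousAt.tendsto).mono_left nhdsWithin_le_nhds
  have h3 : Tendsto (fun s => (-1) ^ n * g (2 * c - s)) (𝓝[≠] c) (𝓝 ((-1) ^ n * g c)) := by
    have h4 : Tendsto (fun s => g (2 * c - s)) (𝓝 c) (𝓝 (g c)) :=
      hg.continuousAt.tendsto.comp hneg
    exact (h4.mono_left nhdsWithin_le_nhds).const_mul _
  have h4 : g c = (-1) ^ n * g c := tendsto_nhds_unique (h2.congr' h1) h3
  by_contra hodd
  rw [Nat.not_even_iff_odd] at hodd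
  rw [hodd.neg_one_pow] at h4
  apply hg0
  linear_combination h4 / 2

theorem norm_diff_pos : (0 : ℝ) < (Ideal.absNorm (differentIdeal ℤ (𝓞 K)) : ℝ) := by
  have h1 : Ideal.absNorm (differentIdeal ℤ (𝓞 K)) ≠ 0 := fun h =>
    differentIdeal_ne_bot (Ideal.absNorm_eq_zero_iff.mp h)
  exact_mod_cast Nat.pos_of_ne_zero h1

/-- the gamma factor -/
noncomputable def gamK (s : ℂ) : ℂ :=
  s * (s - 1) * GG (Ideal.absNorm (differentIdeal ℤ (𝓞 K)) : ℝ) (G.ex fun _ : InfinitePlace K => 0) s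

theorem gamK_analytic {s : ℂ} (hs : 0 < s.re) : AnalyticAt ℂ (gamK K) s := by
  have hopen : IsOpen {s : ℂ | 0 < s.re} := isOpen_lt continuous_const Complex.continuous_re
  have hd : DifferentiableOn ℂ (gamK K) {s : ℂ | 0 < s.re} := by
    intro z hz
    have h := Pool.Agent.Q246.HPk.GG_diff (norm_diff_pos K)
      (G.ex fun _ : InfinitePlace K => 0) (s := z) hz
    unfold gamK
    exact (((differentiableAt_id).mul ((differentiableAt_id).sub_const 1)).mul
      h).differentiableWithinAt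
  exact hd.analyticAt (hopen.mem_nhds hs)

theorem gamK_ne_zero {s : ℂ} (hs : 0 < s.re) (h1 : s ≠ 1) : gamK K s ≠ 0 := by
  unfold gamK
  have h0 : s ≠ 0 := by
    rintro rfl
    simp at hs
  refine mul_ne_zero (mul_ne_zero h0 (sub_ne_zero.2 h1)) ?_
  unfold GG
  refine mul_ne_zero ?_ (G.gam_ne_zero _ hs)
  rw [Ne, Complex.cpow_eq_zero_iff]
  intro h
  have := norm_diff_pos K
  have h2 : (Ideal.absNorm (differentIdeal ℤ (𝓞 K)) : ℝ) = 0 := by exact_mod_cast h.1
  linarith

/-- the completed zeta function near a point with `Re s > 0` -/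
theorem xi_eventually {f : ℂ → ℂ} (hf : Continues f (NumberField.dedekindZeta K)) {U : ℂ → ℂ}
    (hU : Differentiable ℂ U) (hUe : ∀ s : ℂ, 1 < s.re → U s = s * (s - 1) *
      (GG (Ideal.absNorm (differentIdeal ℤ (𝓞 K)) : ℝ) (G.ex fun _ : InfinitePlace K => 0) s *
        NumberField.dedekindZeta K s)) {s₀ : ℂ} (h0 : 0 < s₀.re) :
    U =ᶠ[𝓝[≠] s₀] fun s => gamK K s * f s := by
  have hc : IsConnected {s : ℂ | 0 < s.re} := by
    have h := (convex_halfSpace_re_gt 0).isPreconnected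
    exact ⟨⟨1, by simp⟩, h⟩
  have hm : MeromorphicOn (fun s => U s - gamK K s * f s) {s : ℂ | 0 < s.re} := fun s hs =>
    (hU.analyticAt s).meromorphicAt.fun_sub
      ((gamK_analytic K hs).meromorphicAt.fun_mul (hf.1 s (Set.mem_univ _)))
  have h2 : meromorphicOrderAt (fun s => U s - gamK K s * f s) 2 = ⊤ := by
    rw [meromorphicOrderAt_eq_top_iff]
    filter_upwards [mem_nhdsWithin_of_mem_nhds half_mem] with s hs
    rw [hUe s hs, hf.2 s hs]
    unfold gamK
    ring
  have h3 : meromorphicOrderAt (fun s => U s - gamK K s * f s) s₀ = ⊤ := by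
    by_contra h4
    have h5 := (hm.exists_meromorphicOrderAt_ne_top_iff_forall hc).1 ⟨⟨s₀, h0⟩, h4⟩
    exact h5 ⟨2, by simp⟩ h2
  rw [meromorphicOrderAt_eq_top_iff] at h3
  filter_upwards [h3] with s hs
  exact sub_eq_zero.1 hs

/-- **The order of the Dedekind zeta function at `1/2` is even.** -/
theorem zeta_even {f : ℂ → ℂ} (hf : Continues f (NumberField.dedekindZeta K)) :
    ∃ m : ℕ, meromorphicOrderAt f (1 / 2 : ℂ) = ((2 * m : ℕ) : WithTop ℤ) := by
  obtain ⟨U, hU, hUe, hUfe⟩ := exists_xi K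
  have h0 : (0 : ℝ) < (1 / 2 : ℂ).re := by norm_num
  have h1 : (1 / 2 : ℂ) ≠ 1 := by norm_num
  have h2 := xi_eventually K hf hU hUe h0
  have h3 : meromorphicOrderAt U (1 / 2 : ℂ) = meromorphicOrderAt f (1 / 2 : ℂ) := by
    rw [meromorphicOrderAt_congr h2, fun_meromorphicOrderAt_mul
      (gamK_analytic K h0).meromorphicAt (hf.1 _ (Set.mem_univ _)),
      (gamK_analytic K h0).meromorphicOrderAt_eq,
      (gamK_analytic K h0).analyticOrderAt_eq_zero.2 (gamK_ne_zero K h0 h1)]
    simp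
  have hne : meromorphicOrderAt f (1 / 2 : ℂ) ≠ ⊤ :=
    hf.order_ne_top (fun s hs => by
      rw [zeta_eq_LP hs]
      exact LP_ne_zero _ _ _) _
  have h4 : analyticOrderAt U (1 / 2 : ℂ) ≠ ⊤ := by
    intro h5
    apply hne
    rw [← h3, (hU.analyticAt _).meromorphicOrderAt_eq, h5]
    rfl
  obtain ⟨n, hn⟩ := ENat.ne_top_iff_exists.1 h4
  obtain ⟨m, hm⟩ := even_order (hU.analyticAt _) (fun s => by
    rw [← hUfe s]
    congr 1
    ring) hn.symm
  refine ⟨m, ?_⟩
  rw [← h3, (hU.analyticAt _).meromorphicOrderAt_eq, ← hn, hm]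
  have e : m + m = 2 * m := by ring
  rw [e]
  rfl

end Pool.Agent.Q92.AR
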