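import Pool.Agent.Q92.AR.Use

/-!
# Transport of `ArtinData` along an isomorphism of groups

For theorems about a concrete group `G` (for example `A_n ≤ G ≤ S_n`): an isomorphism
`e : (M ≃ₐ[K] M) ≃* G` gives an `ArtinData G s₀`, with `L χ = L(s, χ ∘ e)`.
-/

set_option autoImplicit false
set_option linter.unusedSectionVars false

namespace Pool.Agent.Q92.AR

open NumberField IsDedekindDomain Filter Topology Pool.Agent.H541R3.ART Pool.Agent.W446.AS
open Pool.Agent.Q92.RT (induced)

section
variable {G G' : Type} [Group G] [Finite G] [Group G'] [Finite G']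

theorem irr_comp (e : G ≃* G') {χ : G' → ℂ} (hχ : χ ∈ Irr G') : (fun g => χ (e g)) ∈ Irr G :=
  infl_irr (π := e.toMonoidHom) e.surjective hχ

theorem irr_comp_symm (e : G ≃* G') {χ : G → ℂ} (hχ : χ ∈ Irr G) :
    (fun g => χ (e.symm g)) ∈ Irr G' := irr_comp e.symm hχ

theorem irr_image (e : G ≃* G') :
    (fun χ : G' → ℂ => fun g => χ (e g)) '' Irr G' = Irr G := by
  ext χ
  constructor
  · rintro ⟨χ', h, rfl⟩
    exact irr_comp e h
  · intro h
    refine ⟨_, irr_comp_symm e h, ?_⟩
    funext g
    simp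

theorem finprod_comp (e : G ≃* G') (f : (G → ℂ) → ℂ) :
    ∏ᶠ χ ∈ Irr G, f χ = ∏ᶠ χ ∈ Irr G', f (fun g => χ (e g)) := by
  rw [← irr_image e, finprod_mem_image]
  intro a _ b _ h
  funext g
  have h2 := congrFun h (e.symm g)
  simpa using h2

/-- the isomorphism between a subgroup and its preimage -/
noncomputable def comapE (e : G ≃* G') (H : Subgroup G') : H.comap e.toMonoidHom ≃* H where
  toFun x := ⟨e x.1, x.2⟩
  invFun y := ⟨e.symm y.1, by
    change e (e.symm y.1) ∈ H
    rw [e.apply_symm_apply]
    exact y.2⟩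
  left_inv x := by ext; simp
  right_inv y := by ext; simp
  map_mul' x y := by
    ext
    change e (x.1 * y.1) = e x.1 * e y.1
    exact map_mul e _ _

theorem pairing (e : G ≃* G') (H : Subgroup G') (f : G → ℂ) (ψ : H → ℂ) :
    ∑ᶠ h : H.comap e.toMonoidHom, f h * ψ (comapE e H h) = ∑ᶠ h : H, f (e.symm h) * ψ h := by
  rw [← finsum_comp_equiv (comapE e H).toEquiv]
  refine finsum_congr fun h => ?_
  have h1 : e.symm ((comapE e H h : H) : G') = (h : G) := by
    change e.symm (e h.1) = h.1
    exact e.symm_apply_apply _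
  change f h * ψ (comapE e H h) = f (e.symm ((comapE e H h : H) : G')) * ψ (comapE e H h)
  rw [h1]

theorem comapE_one (e : G ≃* G') (H : Subgroup G') : comapE e H 1 = 1 := map_one _

end

end Pool.Agent.Q92.AR

namespace Pool.Agent.H541R3.ART

open Pool.Agent.Q92.AR Filter Topology Pool.Agent.W446.AS

variable {G G' : Type} [Group G] [Finite G] [Group G'] [Finite G'] {s₀ : ℂ}

theorem induce_aux (e : G ≃* G') (L : (G → ℂ) → ℂ → ℂ) (m : (G' → ℂ) → ℕ) (s : ℂ) :
    ∏ᶠ χ ∈ Irr G, L χ s ^ m (fun g => χ (e.symm g)) =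
      ∏ᶠ χ ∈ Irr G', L (fun g => χ (e g)) s ^ m χ := by
  rw [finprod_comp e]
  simp only [MulEquiv.apply_symm_apply]

/-- **Transport of `ArtinData`.** -/
noncomputable def ArtinData.transport (e : G ≃* G') (A : ArtinData G s₀) : ArtinData G' s₀ where
  L χ := A.L fun g => χ (e g)
  Lin H ψ := A.Lin (H.comap e.toMonoidHom) (ψ.comp (comapE e H).toMonoidHom)
  mero χ hχ := A.mero _ (irr_comp e hχ)
  hecke H ψ := A.hecke _ _
  induce H ψ m hm := by
    have h := A.induce (H.comap e.toMonoidHom) (ψ.comp (comapE e H).toMonoidHom)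
      (fun χ => m fun g => χ (e.symm g)) (fun χ hχ => by
        rw [Nat.card_congr (comapE e H).toEquiv, ← hm _ (irr_comp_symm e hχ)]
        exact pairing e H χ fun h => (((ψ h)⁻¹ : ℂˣ) : ℂ))
    filter_upwards [h] with s hs
    rw [hs]
    exact induce_aux e A.L m s

theorem transport_L (e : G ≃* G') (A : ArtinData G s₀) (χ : G' → ℂ) :
    (A.transport e).L χ = A.L fun g => χ (e g) := rfl

/-- `Lin H 1` of the transported data. -/
theorem transport_Lin_one (e : G ≃* G') (A : ArtinData G s₀) (H : Subgroup G') :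
    (A.transport e).Lin H 1 = A.Lin (H.comap e.toMonoidHom) 1 := rfl

theorem transport_Lin_bot (e : G ≃* G') (A : ArtinData G s₀) :
    (A.transport e).Lin ⊥ 1 = A.Lin ⊥ 1 := by
  have h : (⊥ : Subgroup G').comap e.toMonoidHom = ⊥ := by
    ext x
    simp
  have h2 : ∀ H : Subgroup G, H = ⊥ → A.Lin H 1 = A.Lin ⊥ 1 := by
    rintro H rfl
    rfl
  exact h2 _ h

/-- transport of `Reflects` -/
theorem transport_reflects (e : G ≃* G') {A : ArtinData G s₀} (h : Pool.Agent.Q7.DB.Reflects A) :
    Pool.Agent.Q7.DB.Reflects (A.transport e) := fun χ hχ => h _ (irr_comp e hχ)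

/-- transport of the L-functions of the characters of degree two -/
noncomputable def _root_.Pool.Agent.Y788.V.LTData.transport (e : G ≃* G') {A : ArtinData G s₀}
    (B : Pool.Agent.Y788.V.LTData A) : Pool.Agent.Y788.V.LTData (A.transport e) where
  two H ψ := B.two (H.comap e.toMonoidHom) fun h => ψ (comapE e H h)
  holo H ψ hψ h2 hd := B.holo _ _ (irr_comp (comapE e H) hψ) (by rw [comapE_one]; exact h2) (by
    obtain ⟨k, hk⟩ := hd
    refine ⟨k, fun x hx => ?_⟩
    have h3 : comapE e H x ∈ derivedSeries H k :=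
      Subgroup.map_le_iff_le_comap.1 (map_derivedSeries_le_derivedSeries
        (comapE e H).toMonoidHom k) hx
    rw [comapE_one]
    exact hk _ h3)
  induce H ψ hψ h2 hd m hm := by
    have h := B.induce (H.comap e.toMonoidHom) (fun h => ψ (comapE e H h))
      (irr_comp (comapE e H) hψ) (by rw [comapE_one]; exact h2) (by
        obtain ⟨k, hk⟩ := hd
        refine ⟨k, fun x hx => ?_⟩
        have h3 : comapE e H x ∈ derivedSeries H k :=
          Subgroup.map_le_iff_le_comap.1 (map_derivedSeries_le_derivedSeries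
            (comapE e H).toMonoidHom k) hx
        rw [comapE_one]
        exact hk _ h3)
      (fun χ => m fun g => χ (e.symm g)) (fun χ hχ => by
        rw [Nat.card_congr (comapE e H).toEquiv, ← hm _ (irr_comp_symm e hχ)]
        simp only [map_inv]
        exact pairing e H χ fun h => ψ h⁻¹)
    filter_upwards [h] with s hs
    rw [hs]
    exact induce_aux e A.L m s

/-- transport of the L-functions of the characters of degree two -/
noncomputable def _root_.Pool.Agent.W446.AS.TwoDim.transport (e : G ≃* G') {A : ArtinData G s₀}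
    (B : Pool.Agent.W446.AS.TwoDim A) : Pool.Agent.W446.AS.TwoDim (A.transport e) where
  two H ψ := B.two (H.comap e.toMonoidHom) fun h => ψ (comapE e H h)
  holo H ψ hψ h2 := B.holo _ _ (irr_comp (comapE e H) hψ) (by rw [comapE_one]; exact h2)
  induce H ψ hψ h2 m hm := by
    have h := B.induce (H.comap e.toMonoidHom) (fun h => ψ (comapE e H h))
      (irr_comp (comapE e H) hψ) (by rw [comapE_one]; exact h2)
      (fun χ => m fun g => χ (e.symm g)) (fun χ hχ => by
        rw [Nat.card_congr (comapE e H).toEquiv, ← hm _ (irr_comp_symm e hχ)]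
        simp only [map_inv]
        exact pairing e H χ fun h => ψ h⁻¹)
    filter_upwards [h] with s hs
    rw [hs]
    exact induce_aux e A.L m s

end Pool.Agent.H541R3.ART
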