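import Pool.Agent.Q92.AR.Even
import Pool.Agent.Q92.AR.Use
import Pool.Agent.Q92.AR.Trn

/-!
# The orders at `1/2` of the L-functions of quadratic characters are even
-/

set_option autoImplicit false
set_option linter.unusedSectionVars false

namespace Pool.Agent.Q92.AR

open Filter Topology Pool.Agent.H541R3.ART NumberField

section
variable {G : Type} [Group G] [Finite G] {s₀ : ℂ}

/-- the kernel of a character of a subgroup, as a subgroup of `G` -/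
def kerS (H : Subgroup G) (ψ : H →* ℂˣ) : Subgroup G := ψ.ker.map H.subtype

theorem mem_kerS {H : Subgroup G} {ψ : H →* ℂˣ} {g : G} :
    g ∈ kerS H ψ ↔ ∃ h : g ∈ H, ψ ⟨g, h⟩ = 1 := by
  unfold kerS
  rw [Subgroup.mem_map]
  constructor
  · rintro ⟨x, hx, rfl⟩
    exact ⟨x.2, hx⟩
  · rintro ⟨h, hg⟩
    exact ⟨⟨g, h⟩, hg, rfl⟩

theorem sum_kerS (H : Subgroup G) (ψ : H →* ℂˣ) (hψ : ∀ x, ψ x * ψ x = 1) (f : G → ℂ) :
    ∑ᶠ h : H, f h * (((1 : H →* ℂˣ) h)⁻¹ : ℂˣ) + ∑ᶠ h : H, f h * (((ψ h)⁻¹ : ℂˣ) : ℂ) =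
      2 * ∑ᶠ h : kerS H ψ, f h * ((((1 : kerS H ψ →* ℂˣ) h)⁻¹ : ℂˣ) : ℂ) := by
  classical
  have : Fintype H := Fintype.ofFinite _
  have : Fintype (kerS H ψ) := Fintype.ofFinite _
  rw [finsum_eq_sum_of_fintype, finsum_eq_sum_of_fintype, finsum_eq_sum_of_fintype,
    ← Finset.sum_add_distrib]
  have h1 : ∀ h : H, f h * (((1 : H →* ℂˣ) h)⁻¹ : ℂˣ) + f h * (((ψ h)⁻¹ : ℂˣ) : ℂ) =
      if ψ h = 1 then 2 * f h else 0 := by
    intro h
    have h2 : ((ψ h : ℂˣ) : ℂ) * ((ψ h : ℂˣ) : ℂ) = 1 := by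
      have := congrArg Units.val (hψ h)
      simpa using this
    by_cases h3 : ψ h = 1
    · rw [if_pos h3, h3, MonoidHom.one_apply, inv_one, Units.val_one]
      ring
    · rw [if_neg h3, MonoidHom.one_apply, inv_one, Units.val_one]
      have h4 : ((ψ h : ℂˣ) : ℂ) = -1 := by
        rcases mul_self_eq_one_iff.1 h2 with h5 | h5
        · exact absurd (Units.ext h5) h3
        · exact h5
      rw [Units.val_inv_eq_inv_val, h4]
      norm_num
  rw [Finset.sum_congr rfl fun h _ => h1 h, ← Finset.sum_filter, Finset.mul_sum]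
  refine Finset.sum_bij' (fun h hh => ⟨h.1, mem_kerS.2 ⟨h.2, (Finset.mem_filter.1 hh).2⟩⟩)
    (fun g _ => ⟨g.1, (mem_kerS.1 g.2).1⟩) ?_ ?_ ?_ ?_ ?_
  · intro a _
    exact Finset.mem_univ _
  · intro g _
    exact Finset.mem_filter.2 ⟨Finset.mem_univ _, (mem_kerS.1 g.2).2⟩
  · intro a _
    rfl
  · intro a _
    rfl
  · intro a _
    rw [MonoidHom.one_apply, inv_one, Units.val_one, mul_one]

theorem card_kerS (H : Subgroup G) (ψ : H →* ℂˣ) (hψ : ∀ x, ψ x * ψ x = 1) (h1 : ψ ≠ 1) :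
    (2 : ℂ) * Nat.card (kerS H ψ) = Nat.card H := by
  classical
  have hH : Fintype H := Fintype.ofFinite _
  have h := sum_kerS H ψ hψ (fun _ => 1)
  have h2 : ∑ᶠ h : H, (1 : ℂ) * (((ψ h)⁻¹ : ℂˣ) : ℂ) = 0 := by
    obtain ⟨a, ha⟩ : ∃ a, ψ a ≠ 1 := by
      by_contra hcon
      push Not at hcon
      exact h1 (MonoidHom.ext hcon)
    rw [finsum_eq_sum_of_fintype]
    have h3 : ∑ h : H, (1 : ℂ) * (((ψ h)⁻¹ : ℂˣ) : ℂ) =
        (((ψ a)⁻¹ : ℂˣ) : ℂ) * ∑ h : H, (1 : ℂ) * (((ψ h)⁻¹ : ℂˣ) : ℂ) := by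
      rw [Finset.mul_sum, ← Equiv.sum_comp (Equiv.mulLeft a)]
      refine Finset.sum_congr rfl fun h _ => ?_
      rw [Equiv.coe_mulLeft, map_mul, mul_inv, Units.val_mul]
      ring
    have h4 : (((ψ a)⁻¹ : ℂˣ) : ℂ) - 1 ≠ 0 := by
      rw [sub_ne_zero]
      intro h5
      apply ha
      have h6 : (ψ a)⁻¹ = 1 := Units.ext h5
      rwa [inv_eq_one] at h6
    have h7 : ((((ψ a)⁻¹ : ℂˣ) : ℂ) - 1) * ∑ h : H, (1 : ℂ) * (((ψ h)⁻¹ : ℂˣ) : ℂ) = 0 := by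
      rw [sub_mul, ← h3, one_mul, sub_self]
    exact (mul_eq_zero.1 h7).resolve_left h4
  rw [h2, add_zero] at h
  have : Fintype (kerS H ψ) := Fintype.ofFinite _
  rw [finsum_eq_sum_of_fintype, finsum_eq_sum_of_fintype] at h
  simp only [MonoidHom.one_apply, inv_one, Units.val_one, mul_one, Finset.sum_const,
    Finset.card_univ, nsmul_eq_mul] at h
  rw [Nat.card_eq_fintype_card, Nat.card_eq_fintype_card]
  exact h.symm

/-- **If the orders of the `Lin H 1` are even, the orders of the `Lin H ψ`, `ψ² = 1`, are even.** -/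
theorem even_of_one (A : ArtinData G s₀)
    (he : ∀ H : Subgroup G, ∃ m : ℕ, meromorphicOrderAt (A.Lin H 1) s₀ = ((2 * m : ℕ) : WithTop ℤ))
    (H : Subgroup G) (ψ : H →* ℂˣ) (hψ : ∀ x, ψ x * ψ x = 1) :
    ∃ m : ℕ, meromorphicOrderAt (A.Lin H ψ) s₀ = ((2 * m : ℕ) : WithTop ℤ) := by
  classical
  by_cases h1 : ψ = 1
  · subst h1
    exact he H
  choose! m1 hm1 using fun χ (hχ : χ ∈ Irr G) => exists_mult hχ H 1
  choose! m2 hm2 using fun χ (hχ : χ ∈ Irr G) => exists_mult hχ H ψ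
  choose! m3 hm3 using fun χ (hχ : χ ∈ Irr G) => exists_mult hχ (kerS H ψ) 1
  have hH : (Nat.card H : ℂ) ≠ 0 := by exact_mod_cast Nat.card_pos.ne'
  have hm : ∀ χ ∈ Irr G, m1 χ + m2 χ = m3 χ := by
    intro χ hχ
    have h := sum_kerS H ψ hψ χ
    rw [hm1 χ hχ, hm2 χ hχ, hm3 χ hχ] at h
    have h2 : (2 : ℂ) * ((m3 χ : ℂ) * Nat.card (kerS H ψ)) = (m3 χ : ℂ) * Nat.card H := by
      rw [← card_kerS H ψ hψ h1]
      ring
    rw [h2, ← add_mul] at h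
    exact_mod_cast mul_right_cancel₀ hH h
  have e1 := A.order_Lin H 1 m1 hm1
  have e2 := A.order_Lin H ψ m2 hm2
  have e3 := A.order_Lin (kerS H ψ) 1 m3 hm3
  obtain ⟨a, ha⟩ := he H
  obtain ⟨b, hb⟩ := he (kerS H ψ)
  have h0 := A.hecke H ψ
  rw [e1] at ha
  rw [e3] at hb
  rw [e2] at h0 ⊢
  have ha' : (∑ χ ∈ irrF G, (m1 χ : ℤ) * A.ord χ) = ((2 * a : ℕ) : ℤ) :=
    WithTop.coe_injective ha
  have hb' : (∑ χ ∈ irrF G, (m3 χ : ℤ) * A.ord χ) = ((2 * b : ℕ) : ℤ) :=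
    WithTop.coe_injective hb
  have hsum : (∑ χ ∈ irrF G, (m3 χ : ℤ) * A.ord χ) =
      (∑ χ ∈ irrF G, (m1 χ : ℤ) * A.ord χ) + ∑ χ ∈ irrF G, (m2 χ : ℤ) * A.ord χ := by
    rw [← Finset.sum_add_distrib]
    refine Finset.sum_congr rfl fun χ hχ => ?_
    rw [← hm χ (mem_irrF.1 hχ)]
    push_cast
    ring
  have h0' : 0 ≤ ∑ χ ∈ irrF G, (m2 χ : ℤ) * A.ord χ := by exact_mod_cast h0
  refine ⟨(b - a : ℤ).toNat, ?_⟩
  have h3 : (∑ χ ∈ irrF G, (m2 χ : ℤ) * A.ord χ) = ((2 * (b - a : ℤ).toNat : ℕ) : ℤ) := by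
    have h4 : (0 : ℤ) ≤ b - a := by omega
    push_cast
    rw [Int.toNat_of_nonneg h4]
    omega
  rw [h3]
  rfl

end

section
variable {K M : Type} [Field K] [NumberField K] [Field M] [NumberField M] [Algebra K M]
  [IsGalois K M]

theorem exists_zeta {F : Type} [Field F] [NumberField F] [Algebra K F] [Algebra F M]
    [IsScalarTower K F M] {s₀ : ℂ} (h : Continued (K := K) M s₀) :
    ∃ g : ℂ → ℂ, Continues g (NumberField.dedekindZeta F) := by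
  obtain ⟨f, hf, -⟩ := h.hecke (fixer K F M) 1
  obtain ⟨E, hE1, hE2, -⟩ := zeta_compare (K := K) (F := F) (M := M)
  refine ⟨fun s => E s * f s, fun s hs => (hE1 s hs).fun_mul (hf.1 s hs), fun s hs => ?_⟩
  change E s * f s = _
  rw [hE2 s hs, hf.2 s hs]

/-- **The orders at `1/2` of the L-functions of the quadratic characters of the subgroups are even.** -/
theorem lin_even (h : Continued (K := K) M (1 / 2 : ℂ)) (H : Subgroup (M ≃ₐ[K] M)) (ψ : H →* ℂˣ)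
    (hψ : ∀ x, ψ x * ψ x = 1) :
    ∃ m : ℕ, meromorphicOrderAt ((ArtinData.ofExtension h).Lin H ψ) (1 / 2 : ℂ) =
      ((2 * m : ℕ) : WithTop ℤ) := by
  refine even_of_one (ArtinData.ofExtension h) (fun H => ?_) H ψ hψ
  rw [lin_fixed h (by norm_num) H]
  exact zeta_even _ (cont_spec (exists_zeta (K := K) (M := M) h))

/-- the same for the transported data -/
theorem lin_even_transport {G : Type} [Group G] [Finite G] (e : (M ≃ₐ[K] M) ≃* G)
    (h : Continued (K := K) M (1 / 2 : ℂ)) (H : Subgroup G) (ψ : H →* ℂˣ)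
    (hψ : ∀ x, ψ x * ψ x = 1) :
    ∃ m : ℕ, meromorphicOrderAt (((ArtinData.ofExtension h).transport e).Lin H ψ) (1 / 2 : ℂ) =
      ((2 * m : ℕ) : WithTop ℤ) :=
  lin_even h _ _ fun _ => hψ _

end

end Pool.Agent.Q92.AR
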