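import Pool.Agent.Q92.RT.Ind

/-! Class functions induced from class functions of subgroups. -/

set_option autoImplicit false
set_option linter.unusedSectionVars false

namespace Pool.Agent.Q92.AR

open Pool.Agent.H302R2 Pool.Agent.H541R3.ART Pool.Agent.W446.AS

section
variable {G : Type} [Group G]

open scoped Classical in
/-- The class function of `G` induced by the class function `ψ` of the subgroup `H`. -/
noncomputable def inducedF (H : Subgroup G) (ψ : H → ℂ) (g : G) : ℂ :=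
  (Nat.card H : ℂ)⁻¹ *
    ∑ᶠ x : G, if h : x⁻¹ * g * x ∈ H then ψ ⟨x⁻¹ * g * x, h⟩ else 0

variable [Finite G]

theorem inducedF_conj (H : Subgroup G) (ψ : H → ℂ) (g y : G) :
    inducedF H ψ (y * g * y⁻¹) = inducedF H ψ g := by
  classical
  have : Fintype G := Fintype.ofFinite G
  unfold inducedF
  congr 1
  rw [finsum_eq_sum_of_fintype, finsum_eq_sum_of_fintype]
  refine Fintype.sum_equiv (Equiv.mulLeft y⁻¹) _ _ fun x => ?_
  have e : (y⁻¹ * x)⁻¹ * g * (y⁻¹ * x) = x⁻¹ * (y * g * y⁻¹) * x := by group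
  simp only [Equiv.coe_mulLeft, e]

theorem inducedF_pair [Fintype G] (H : Subgroup G) (ψ : H → ℂ) {χ : G → ℂ}
    (hχ : ∀ g x : G, χ (x * g * x⁻¹) = χ g) {m : ℂ}
    (hm : ∑ᶠ h : H, χ h * ψ h⁻¹ = m * (Nat.card H : ℂ)) :
    ∑ g, inducedF H ψ g * χ g⁻¹ = m * Nat.card G := by
  classical
  have : Fintype H := Fintype.ofFinite H
  have hH : (Nat.card H : ℂ) ≠ 0 := by exact_mod_cast Nat.card_pos.ne'
  unfold inducedF
  simp_rw [finsum_eq_sum_of_fintype] at hm ⊢
  have h0 : ∀ g : G, (Nat.card H : ℂ)⁻¹ * (∑ x : G, if h : x⁻¹ * g * x ∈ H then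
      ψ ⟨x⁻¹ * g * x, h⟩ else 0) * χ g⁻¹ = (Nat.card H : ℂ)⁻¹ *
      ∑ x : G, (if h : x⁻¹ * g * x ∈ H then
      ψ ⟨x⁻¹ * g * x, h⟩ else 0) * χ g⁻¹ := by
    intro g
    rw [mul_assoc, Finset.sum_mul]
  rw [Finset.sum_congr rfl fun g _ => h0 g, ← Finset.mul_sum, Finset.sum_comm]
  have h1 : ∀ x : G, ∑ g : G, (if h : x⁻¹ * g * x ∈ H then
      ψ ⟨x⁻¹ * g * x, h⟩ else 0) * χ g⁻¹ = m * Nat.card H := by
    intro x
    rw [← hm]
    have h2 : ∑ g : G, (if h : x⁻¹ * g * x ∈ H then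
        ψ ⟨x⁻¹ * g * x, h⟩ else 0) * χ g⁻¹ =
        ∑ g : G, (if h : g ∈ H then ψ ⟨g, h⟩ * χ g⁻¹ else 0) := by
      refine Fintype.sum_equiv (MulAut.conj x⁻¹).toEquiv _ _ fun g => ?_
      have e : (MulAut.conj x⁻¹).toEquiv g = x⁻¹ * g * x := by
        simp
      have e2 : χ (x⁻¹ * g * x)⁻¹ = χ g⁻¹ := by
        have h3 := hχ g⁻¹ x⁻¹
        rw [← h3]
        congr 1
        group
      simp only [e]
      split_ifs with h
      · rw [e2]
      · rw [zero_mul]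
    rw [h2]
    have h4 : ∑ h : H, χ h * ψ h⁻¹ = ∑ h : H, χ ((h : G)⁻¹) * ψ h := by
      refine Fintype.sum_equiv (Equiv.inv H) _ _ fun h => ?_
      simp only [Equiv.inv_apply, Subgroup.coe_inv, inv_inv]
    rw [h4]
    have h5 := Finset.sum_subtype (F := this) (Finset.univ.filter fun g => g ∈ H)
      (p := fun g => g ∈ H) (fun g => by simp)
      (fun g => if h : g ∈ H then ψ ⟨g, h⟩ * χ g⁻¹ else 0)
    have h6 : ∑ g : G, (if h : g ∈ H then ψ ⟨g, h⟩ * χ g⁻¹ else 0) =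
        ∑ g ∈ Finset.univ.filter (fun g => g ∈ H),
          (if h : g ∈ H then ψ ⟨g, h⟩ * χ g⁻¹ else 0) := by
      rw [Finset.sum_filter]
      refine Finset.sum_congr rfl fun g _ => ?_
      by_cases h : g ∈ H
      · rw [if_pos h]
      · rw [if_neg h, dif_neg h]
    rw [h6, h5]
    refine Finset.sum_congr rfl fun h _ => ?_
    rw [dif_pos h.2, mul_comm]
  rw [Finset.sum_congr rfl fun x _ => h1 x, Finset.sum_const, Finset.card_univ, nsmul_eq_mul,
    Nat.card_eq_fintype_card (α := G)]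
  field_simp

end

end Pool.Agent.Q92.AR
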