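import Pool.Agent.Q92.AR.Data
import Pool.Agent.Q92.AR.IndF
import Pool.Agent.W446.AS.FArt
import Pool.Agent.Y788.VFin
import Pool.Agent.Q7.DB.RealArt

/-!
# Characters of degree two of subgroups, complex conjugation

The L-functions of the irreducible characters of degree two of the subgroups as `TwoDim` and `LTData`
(theorem of Langlands and Tunnell as a hypothesis), and `L(s, conj χ) = conj L(conj s, χ)`.
-/

set_option autoImplicit false
set_option linter.unusedSectionVars false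

namespace Pool.Agent.Q92.AR

open Pool.Agent.H302R2 Pool.Agent.H541R3.ART Pool.Agent.W446.AS

open NumberField IsDedekindDomain Filter Topology ComplexConjugate
open Pool.Agent.Q92.RT (class_expand)

section
variable {K : Type} [Field K] [NumberField K] (M : Type) [Field M] [NumberField M] [Algebra K M]

/-- The theorem of Langlands and Tunnell for the extension `M/K`: the L-function of an irreducible
character of degree two with solvable image of a subgroup (over the fixed field of the subgroup, so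
this is the L-function of the induced character) has a continuation without pole at `s₀`. -/
def LanglandsTunnell (s₀ : ℂ) : Prop :=
  ∀ H : Subgroup (M ≃ₐ[K] M), ∀ ψ ∈ Irr H, ψ 1 = 2 → (∃ k, ∀ x ∈ derivedSeries H k, ψ x = ψ 1) →
    ∃ f : ℂ → ℂ, Continues f (artinL M (inducedF H ψ)) ∧ 0 ≤ meromorphicOrderAt f s₀

variable {M}

/-- the L-function of a class function with given multiplicities -/
theorem artinL_class {θ : (M ≃ₐ[K] M) → ℂ} [Fintype (M ≃ₐ[K] M)]
    (hθ : ∀ g x : M ≃ₐ[K] M, θ (x * g * x⁻¹) = θ g) {m : ((M ≃ₐ[K] M) → ℂ) → ℕ}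
    (hm : ∀ χ ∈ Irr (M ≃ₐ[K] M), ∑ g, θ g * χ g⁻¹ = (m χ : ℂ) * Nat.card (M ≃ₐ[K] M)) {s : ℂ}
    (hs : 1 < s.re) :
    artinL M θ s = ∏ χ ∈ irrF (M ≃ₐ[K] M), artinL M χ s ^ m χ := by
  rw [← artinL_sum (irrF (M ≃ₐ[K] M)) m (fun χ => χ) hs]
  congr 1
  funext g
  exact class_expand (m := fun χ => (m χ : ℂ)) hθ (fun χ hχ => hm χ hχ) g

theorem continues_class (h : ∀ χ ∈ Irr (M ≃ₐ[K] M), ∃ f : ℂ → ℂ, Continues f (artinL M χ))
    [Fintype (M ≃ₐ[K] M)] {θ : (M ≃ₐ[K] M) → ℂ}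
    (hθ : ∀ g x : M ≃ₐ[K] M, θ (x * g * x⁻¹) = θ g) {m : ((M ≃ₐ[K] M) → ℂ) → ℕ}
    (hm : ∀ χ ∈ Irr (M ≃ₐ[K] M), ∑ g, θ g * χ g⁻¹ = (m χ : ℂ) * Nat.card (M ≃ₐ[K] M)) :
    Continues (fun s => ∏ χ ∈ irrF (M ≃ₐ[K] M), cont (artinL M χ) s ^ m χ) (artinL M θ) := by
  refine ⟨fun s hs => ?_, fun s hs => ?_⟩
  · exact MeromorphicAt.fun_prod fun χ hχ =>
      ((cont_spec (h χ (mem_irrF.1 hχ))).1 s hs).fun_pow _
  · rw [artinL_class hθ hm hs]
    exact Finset.prod_congr rfl fun χ hχ => by rw [(cont_spec (h χ (mem_irrF.1 hχ))).2 s hs]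

theorem two_induce (h : ∀ χ ∈ Irr (M ≃ₐ[K] M), ∃ f : ℂ → ℂ, Continues f (artinL M χ)) (s₀ : ℂ)
    (H : Subgroup (M ≃ₐ[K] M)) {ψ : H → ℂ} {m : ((M ≃ₐ[K] M) → ℂ) → ℕ}
    (hm : ∀ χ ∈ Irr (M ≃ₐ[K] M), ∑ᶠ h : H, χ h * ψ h⁻¹ = (m χ : ℂ) * (Nat.card H : ℂ)) :
    cont (artinL M (inducedF H ψ)) =ᶠ[𝓝[≠] s₀]
      fun s => ∏ᶠ χ ∈ Irr (M ≃ₐ[K] M), cont (artinL M χ) s ^ m χ := by
  have : Fintype (M ≃ₐ[K] M) := Fintype.ofFinite _
  have h1 := continues_class h (fun g x => inducedF_conj H ψ g x)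
    (fun χ hχ => inducedF_pair H ψ (fun g x => Irr.conj hχ g x) (hm χ hχ))
  have h2 := (cont_spec ⟨_, h1⟩).eventuallyEq h1 (fun _ _ => rfl) s₀
  filter_upwards [h2] with s hs
  rw [hs, finprod_mem_eq_finite_toFinset_prod _ (irr_finite (G := M ≃ₐ[K] M))]
  rfl

/-- **The L-functions of the characters of degree two as an `LTData`.** -/
noncomputable def LTData.ofExtension {s₀ : ℂ} (h : Continued (K := K) M s₀)
    (hLT : LanglandsTunnell (K := K) M s₀) :
    Pool.Agent.Y788.V.LTData (ArtinData.ofExtension h) where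
  two H ψ := cont (artinL M (inducedF H ψ))
  holo H ψ hψ h1 h2 := by
    obtain ⟨f, hf, hf2⟩ := hLT H ψ hψ h1 h2
    rw [(cont_spec ⟨f, hf⟩).order_eq hf (fun _ _ => rfl) s₀]
    exact hf2
  induce H ψ _ _ _ m hm := two_induce h.brauer s₀ H hm

/-- **The L-functions of the characters of degree two as a `TwoDim`** (for solvable groups). -/
noncomputable def TwoDim.ofExtension [Group.IsSolvable (M ≃ₐ[K] M)] {s₀ : ℂ}
    (h : Continued (K := K) M s₀) (hLT : LanglandsTunnell (K := K) M s₀) :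
    TwoDim (ArtinData.ofExtension h) where
  two H ψ := cont (artinL M (inducedF H ψ))
  holo H ψ hψ h1 := by
    have h2 : ∃ k, ∀ x ∈ derivedSeries H k, ψ x = ψ 1 := by
      obtain ⟨k, hk⟩ := (inferInstance : Group.IsSolvable H).solvable
      refine ⟨k, fun x hx => ?_⟩
      rw [hk, Subgroup.mem_bot] at hx
      rw [hx]
    obtain ⟨f, hf, hf2⟩ := hLT H ψ hψ h1 h2
    rw [(cont_spec ⟨f, hf⟩).order_eq hf (fun _ _ => rfl) s₀]
    exact hf2
  induce H ψ _ _ m hm := two_induce h.brauer s₀ H hm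

/-! ### Complex conjugation -/

theorem analyticAt_conj {g : ℂ → ℂ} {z : ℂ} (hg : AnalyticAt ℂ g (conj z)) :
    AnalyticAt ℂ (fun s => conj (g (conj s))) z := by
  have hcont : Tendsto (fun s : ℂ => conj s) (𝓝 z) (𝓝 (conj z)) :=
    Complex.continuous_conj.tendsto z
  rw [Complex.analyticAt_iff_eventually_differentiableAt] at hg ⊢
  filter_upwards [hcont.eventually hg] with s h1
  have h2 := h1.conj_conj
  rwa [Complex.conj_conj] at h2

theorem meromorphicAt_conj {f : ℂ → ℂ} {z : ℂ} (hf : MeromorphicAt f (conj z)) :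
    MeromorphicAt (fun s => conj (f (conj s))) z := by
  obtain ⟨n, hn⟩ := hf
  refine ⟨n, ?_⟩
  have h := analyticAt_conj hn
  have e : (fun s => (s - z) ^ n • conj (f (conj s))) =
      fun s => conj ((fun t => (t - conj z) ^ n • f t) (conj s)) := by
    funext s
    simp only [smul_eq_mul, map_mul, map_pow, map_sub, Complex.conj_conj]
  rw [e]
  exact h

theorem artinL_conj (φ : (M ≃ₐ[K] M) → ℂ) (s : ℂ) :
    artinL M (fun g => conj (φ g)) s = conj (artinL M φ (conj s)) := by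
  classical
  unfold artinL
  rw [← Complex.exp_conj, Complex.conj_tsum]
  congr 1
  refine tsum_congr fun x => ?_
  unfold artTerm
  split_ifs
  · rw [map_div₀, map_mul, Complex.conj_natCast]
    congr 2
    have h1 : ((x.2 + 1 : ℕ) : ℂ) * conj s = conj (((x.2 + 1 : ℕ) : ℂ) * s) := by
      rw [map_mul, Complex.conj_natCast]
    rw [h1, Complex.cpow_conj _ _ (by
      rw [Complex.natCast_arg]
      exact Real.pi_ne_zero.symm), Complex.conj_conj, Complex.conj_natCast]
  · rw [map_zero]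

theorem Continues.conj {f : ℂ → ℂ} {φ : (M ≃ₐ[K] M) → ℂ} (h : Continues f (artinL M φ)) :
    Continues (fun s => conj (f (conj s))) (artinL M fun g => conj (φ g)) := by
  refine ⟨fun s _ => meromorphicAt_conj (h.1 _ (Set.mem_univ _)), fun s hs => ?_⟩
  rw [artinL_conj]
  change conj (f (conj s)) = _
  rw [h.2 _ (by rwa [Complex.conj_re])]

/-- **`L(s, conj χ) = conj L(conj s, χ)`.** -/
theorem reflects_ofExtension {s₀ : ℂ} (h : Continued (K := K) M s₀) :
    Pool.Agent.Q7.DB.Reflects (ArtinData.ofExtension h) := by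
  intro χ hχ
  have h1 := (cont_spec (h.brauer χ hχ)).conj
  exact (cont_spec ⟨_, h1⟩).eventuallyEq h1 (fun _ _ => rfl) s₀

end

end Pool.Agent.Q92.AR
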