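import Pool.Agent.Q92.PA.Deg

/-! Reductions of the embeddings at the unramified primes, and Frobenius elements at finite level. -/

set_option autoImplicit false
set_option linter.unusedSectionVars false
set_option linter.deprecated false

namespace Pool.Agent.Q92.AR

open NumberField IsDedekindDomain Filter Pool.Agent.W401.Cheb Pool.Agent.W353.NF Pool.Agent.Q5.BR
  Pool.Agent.Q92.PA

section
variable {K F : Type} [Field K] [NumberField K] [Field F] [NumberField F] [Algebra K F]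

/-- The prime `v` of `K` is unramified in `F`: no prime `w` above `v` has `w² ∣ v`. -/
def Unramified (F : Type) {K : Type} [Field K] [NumberField K] [Field F] [NumberField F]
    [Algebra K F] (v : HeightOneSpectrum (𝓞 K)) : Prop :=
  ∀ w : HeightOneSpectrum (𝓞 F), w.under (𝓞 K) = v →
    ¬ v.asIdeal.map (algebraMap (𝓞 K) (𝓞 F)) ≤ w.asIdeal ^ 2

theorem sum_rdeg {v : HeightOneSpectrum (𝓞 K)} (hv : Unramified F v) :
    ∑ w ∈ above F v, rdeg K w = Module.finrank K F := by
  have hvm : v.asIdeal.IsMaximal := v.isMaximal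
  rw [← Ideal.sum_ramification_inertia (𝓞 F) K F v.ne_bot]
  refine Finset.sum_bij (fun w _ => w.asIdeal) ?_ ?_ ?_ ?_
  · intro w hw
    rw [IsDedekindDomain.mem_primesOverFinset_iff v.ne_bot]
    refine ⟨w.isPrime, ⟨?_⟩⟩
    rw [← mem_above.1 hw]
    rfl
  · intro w _ w' _ h
    exact HeightOneSpectrum.ext h
  · intro P hP
    rw [IsDedekindDomain.mem_primesOverFinset_iff v.ne_bot] at hP
    obtain ⟨hP1, hP2⟩ := hP
    refine ⟨⟨P, hP1, fun h => v.ne_bot ?_⟩, mem_above.2 (HeightOneSpectrum.ext ?_), rfl⟩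
    · rw [hP2.over, h]
      rw [eq_bot_iff]
      intro x hx
      rw [Ideal.mem_bot]
      have hx2 : algebraMap (𝓞 K) (𝓞 F) x = 0 := hx
      exact (map_eq_zero_iff _ (FaithfulSMul.algebraMap_injective (𝓞 K) (𝓞 F))).1 hx2
    · exact hP2.over.symm
  · intro w hw
    have hlo : w.asIdeal.LiesOver v.asIdeal := ⟨by rw [← mem_above.1 hw]; rfl⟩
    have he : Ideal.ramificationIdx' v.asIdeal w.asIdeal = 1 := by
      refine Ideal.ramificationIdx'_spec ?_ ?_
      · rw [pow_one, Ideal.map_le_iff_le_comap]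
        exact hlo.over.le
      · exact hv w (mem_above.1 hw)
    rw [he, one_mul]
    unfold rdeg
    rw [mem_above.1 hw]

/-- the embeddings are determined by their reductions -/
theorem rd_injective {v : HeightOneSpectrum (𝓞 K)} (hv : Unramified F v) {σ : GK K}
    {Q : Ideal (𝓞 (AlgebraicClosure K))} (hQm : Q.IsMaximal)
    (hQv : Q.comap (algebraMap (𝓞 K) (𝓞 (AlgebraicClosure K))) = v.asIdeal)
    (hQ : ∀ x : 𝓞 (AlgebraicClosure K), σ • x - x ^ Ideal.absNorm v.asIdeal ∈ Q) :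
    Function.Injective (rd (F := F) Q) := by
  classical
  have h1 := card_redn (F := F) v σ hQm hQv hQ 0
  have h2 : ∑ w ∈ above F v, (if rdeg K w ∣ 0 then rdeg K w else 0) = Module.finrank K F := by
    rw [← sum_rdeg hv]
    exact Finset.sum_congr rfl fun w _ => if_pos (dvd_zero _)
  rw [h2] at h1
  let e : (F →ₐ[K] AlgebraicClosure K) → {r : 𝓞 F →+* (𝓞 (AlgebraicClosure K) ⧸ Q) //
      (∃ i : F →ₐ[K] AlgebraicClosure K, rd Q i = r) ∧
        ∀ a, r a ^ (Ideal.absNorm v.asIdeal ^ 0) = r a} := fun i =>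
    ⟨rd Q i, ⟨i, rfl⟩, fun a => by rw [pow_zero, pow_one]⟩
  have he : Function.Surjective e := by
    rintro ⟨r, ⟨i, rfl⟩, h⟩
    exact ⟨i, rfl⟩
  have h3 : Nat.card (F →ₐ[K] AlgebraicClosure K) = Module.finrank K F := by
    rw [Nat.card_eq_fintype_card, AlgHom.card]
  have hb : Function.Bijective e :=
    (Nat.bijective_iff_surjective_and_card e).2 ⟨he, by rw [h1, h3]⟩
  intro i j hij
  exact hb.1 (Subtype.ext hij)

end

section
variable {K F M : Type} [Field K] [NumberField K] [Field F] [NumberField F] [Field M] [NumberField M]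
  [Algebra K F] [Algebra K M] [Algebra F M] [IsScalarTower K F M]

/-- unramified in a subfield -/
theorem Unramified.sub {v : HeightOneSpectrum (𝓞 K)} (hv : Unramified M v) : Unramified F v := by
  intro w hw hle
  have hwm : w.asIdeal.IsMaximal := w.isMaximal
  obtain ⟨P, hP, hPw⟩ := Ideal.exists_ideal_over_maximal_of_isIntegral (S := 𝓞 M) w.asIdeal (by
    rw [(RingHom.injective_iff_ker_eq_bot _).1 (FaithfulSMul.algebraMap_injective (𝓞 F) (𝓞 M))]
    exact bot_le)
  have hP0 : P ≠ ⊥ := by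
    rintro rfl
    apply w.ne_bot
    rw [← hPw, ← RingHom.ker_eq_comap_bot]
    exact (RingHom.injective_iff_ker_eq_bot _).1 (FaithfulSMul.algebraMap_injective (𝓞 F) (𝓞 M))
  have hmap : algebraMap (𝓞 K) (𝓞 M) = (algebraMap (𝓞 F) (𝓞 M)).comp (algebraMap (𝓞 K) (𝓞 F)) :=
    IsScalarTower.algebraMap_eq (𝓞 K) (𝓞 F) (𝓞 M)
  refine hv ⟨P, hP.isPrime, hP0⟩ ?_ ?_
  · apply HeightOneSpectrum.ext
    change P.comap (algebraMap (𝓞 K) (𝓞 M)) = v.asIdeal
    rw [hmap, ← Ideal.comap_comap, hPw, ← hw]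
    rfl
  · rw [hmap, ← Ideal.map_map]
    refine (Ideal.map_mono hle).trans ?_
    rw [Ideal.map_pow]
    refine Ideal.pow_right_mono ?_ 2
    rw [Ideal.map_le_iff_le_comap, hPw]

/-- The subgroup of the Galois group of `M` over `K` fixing the field `F` between `K` and `M`. -/
def fixer (K F M : Type) [Field K] [NumberField K] [Field F] [NumberField F] [Field M]
    [NumberField M] [Algebra K F] [Algebra K M] [Algebra F M] [IsScalarTower K F M] :
    Subgroup (M ≃ₐ[K] M) where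
  carrier := {g | ∀ x : F, g (algebraMap F M x) = algebraMap F M x}
  mul_mem' {a b} ha hb x := by rw [AlgEquiv.mul_apply, hb x, ha x]
  one_mem' x := rfl
  inv_mem' {a} ha x := by
    have h := congrArg (fun y => a⁻¹ y) (ha x)
    rw [← AlgEquiv.mul_apply, inv_mul_cancel, AlgEquiv.one_apply] at h
    exact h.symm

theorem mem_fixer {g : M ≃ₐ[K] M} :
    g ∈ fixer K F M ↔ ∀ x : F, g (algebraMap F M x) = algebraMap F M x := Iff.rfl

variable [IsGalois K M]

theorem exists_ext (j : F →ₐ[K] M) : ∃ g : M ≃ₐ[K] M, ∀ x : F, g (algebraMap F M x) = j x :=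
  ⟨AlgEquiv.ofBijective (j.liftNormal M) (Algebra.IsAlgebraic.algHom_bijective _),
    fun x => j.liftNormal_commutes M x⟩

/-- all embeddings of `M` in the algebraic closure -/
theorem emb_bijective (ι : M →ₐ[K] AlgebraicClosure K) :
    Function.Bijective fun g : M ≃ₐ[K] M => ι.comp (g : M →ₐ[K] M) := by
  have hinj : Function.Injective fun g : M ≃ₐ[K] M => ι.comp (g : M →ₐ[K] M) := by
    intro g h hgh
    ext x
    have h1 := DFunLike.congr_fun hgh x
    exact ι.injective h1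
  refine (Nat.bijective_iff_injective_and_card _).2 ⟨hinj, ?_⟩
  have h2 : Nat.card (M →ₐ[K] AlgebraicClosure K) = Module.finrank K M := by
    rw [Nat.card_eq_fintype_card, AlgHom.card]
  rw [h2, IsGalois.card_aut_eq_finrank]

/-- The automorphism `g` is a Frobenius element at the prime `v` of `K`: there is a prime `w` of `M`
above `v` with `g x ≡ x ^ q_v` modulo `w` for all integers `x` of `M`. -/
def IsFrobenius (v : HeightOneSpectrum (𝓞 K)) (g : M ≃ₐ[K] M) : Prop :=
  ∃ w : Ideal (𝓞 M), w.IsMaximal ∧ w.comap (algebraMap (𝓞 K) (𝓞 M)) = v.asIdeal ∧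
    ∀ x : 𝓞 M, ∃ y ∈ w, (y : M) = g x - (x : M) ^ Ideal.absNorm v.asIdeal

/-- a Frobenius element is the restriction of a Frobenius element of the absolute Galois group -/
theorem exists_intertwine {v : HeightOneSpectrum (𝓞 K)} (hv : Unramified M v) {g : M ≃ₐ[K] M}
    (hg : IsFrobenius v g) {σ : GK K} {Q : Ideal (𝓞 (AlgebraicClosure K))} (hQm : Q.IsMaximal)
    (hQv : Q.comap (algebraMap (𝓞 K) (𝓞 (AlgebraicClosure K))) = v.asIdeal)
    (hQ : ∀ x : 𝓞 (AlgebraicClosure K), σ • x - x ^ Ideal.absNorm v.asIdeal ∈ Q) :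
    ∃ ι : M →ₐ[K] AlgebraicClosure K, act K M σ ι = ι.comp (g : M →ₐ[K] M) := by
  obtain ⟨w, hwm, hwv, hw⟩ := hg
  have hw0 : w ≠ ⊥ := by
    rintro rfl
    apply v.ne_bot
    rw [← hwv, ← RingHom.ker_eq_comap_bot]
    exact (RingHom.injective_iff_ker_eq_bot _).1 (FaithfulSMul.algebraMap_injective (𝓞 K) (𝓞 M))
  obtain ⟨ι, hι⟩ := exists_emb' hQm hQv ⟨w, hwm.isPrime, hw0⟩ (HeightOneSpectrum.ext hwv)
  refine ⟨ι, ?_⟩
  apply rd_injective hv hQm hQv hQ
  rw [rd_eq_iff]
  intro a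
  obtain ⟨y, hy, hya⟩ := hw a
  have h1 : oi (act K M σ ι) a = σ • oi ι a := rfl
  have h2 : oi ι y ∈ Q := (hι y).2 hy
  have h3 : oi (ι.comp (g : M →ₐ[K] M)) a = oi ι y + oi ι a ^ Ideal.absNorm v.asIdeal := by
    apply RingOfIntegers.ext
    change ι (g (a : M)) = ι (y : M) + ι (a : M) ^ Ideal.absNorm v.asIdeal
    rw [hya, map_sub, map_pow]
    ring
  rw [h1, h3, sub_add_eq_sub_sub]
  have h4 := Q.sub_mem (hQ (oi ι a)) h2
  have h5 : σ • oi ι a - oi ι y - oi ι a ^ Ideal.absNorm v.asIdeal =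
      σ • oi ι a - oi ι a ^ Ideal.absNorm v.asIdeal - oi ι y := by ring
  rw [h5]
  exact h4

theorem intertwine_pow {σ : GK K} {ι : M →ₐ[K] AlgebraicClosure K} {g : M ≃ₐ[K] M}
    (h : act K M σ ι = ι.comp (g : M →ₐ[K] M)) (n : ℕ) (x : M) : (σ ^ n) (ι x) = ι ((g ^ n) x) := by
  induction n generalizing x with
  | zero => rfl
  | succ n ih =>
    rw [pow_succ, AlgEquiv.mul_apply, pow_succ, AlgEquiv.mul_apply]
    have h1 : σ (ι x) = ι (g x) := DFunLike.congr_fun h x
    rw [h1, ih]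

/-- two Frobenius elements are conjugate -/
theorem isFrobenius_conj {v : HeightOneSpectrum (𝓞 K)} (hv : Unramified M v) {g g' : M ≃ₐ[K] M}
    (hg : IsFrobenius v g) (hg' : IsFrobenius v g') : ∃ h : M ≃ₐ[K] M, g' = h⁻¹ * g * h := by
  obtain ⟨σ, Q, hQm, hQv, hQ⟩ := Pool.Agent.W401.Frob.exists_frob v
  obtain ⟨ι, hι⟩ := exists_intertwine hv hg hQm hQv hQ
  obtain ⟨ι', hι'⟩ := exists_intertwine hv hg' hQm hQv hQ
  obtain ⟨h, hh⟩ := (emb_bijective ι).2 ι'
  refine ⟨h, ?_⟩
  ext x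
  have h1 : ∀ y, ι' y = ι (h y) := fun y => by rw [← hh]; rfl
  have h2 : σ (ι' x) = ι' (g' x) := DFunLike.congr_fun hι' x
  have h3 : σ (ι (h x)) = ι (g (h x)) := DFunLike.congr_fun hι (h x)
  rw [h1, h1, h3] at h2
  have h4 : g (h x) = h (g' x) := ι.injective h2
  rw [AlgEquiv.mul_apply, AlgEquiv.mul_apply, h4, ← AlgEquiv.mul_apply, inv_mul_cancel,
    AlgEquiv.one_apply]

/-- **The number of embeddings fixed by a power of a Frobenius element.** -/
theorem card_fixed {v : HeightOneSpectrum (𝓞 K)} (hv : Unramified M v) {g : M ≃ₐ[K] M}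
    (hg : IsFrobenius v g) (n : ℕ) :
    Nat.card {j : F →ₐ[K] M // ∀ x, (g ^ n) (j x) = j x} =
      ∑ w ∈ above F v, if rdeg K w ∣ n then rdeg K w else 0 := by
  obtain ⟨σ, Q, hQm, hQv, hQ⟩ := Pool.Agent.W401.Frob.exists_frob v
  obtain ⟨ι, hσ⟩ := exists_intertwine hv hg hQm hQv hQ
  rw [← card_redn (F := F) v σ hQm hQv hQ n]
  have hrd := rd_injective (F := F) hv.sub hQm hQv hQ
  have hpow := intertwine_pow hσ n
  refine Nat.card_eq_of_bijective (fun j => ⟨rd Q (ι.comp j.1), ⟨_, rfl⟩, fun a => ?_⟩) ⟨?_, ?_⟩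
  · rw [← rd_frob hQ]
    congr 2
    ext x
    change (σ ^ n) (ι (j.1 x)) = ι (j.1 x)
    rw [hpow, j.2 x]
  · intro i j hij
    have h1 := hrd (congrArg Subtype.val hij)
    apply Subtype.ext
    ext x
    exact ι.injective (DFunLike.congr_fun h1 x)
  · rintro ⟨r, ⟨i, rfl⟩, hi⟩
    -- the embedding `i` factors through `ι`
    obtain ⟨i', hi'⟩ : ∃ i' : M →ₐ[K] AlgebraicClosure K, ∀ x : F, i' (algebraMap F M x) = i x := by
      let _ : Algebra F (AlgebraicClosure K) := i.toRingHom.toAlgebra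
      have : IsScalarTower K F (AlgebraicClosure K) := IsScalarTower.of_algebraMap_eq fun x =>
        (i.commutes x).symm
      let e : M →ₐ[F] AlgebraicClosure K := IsAlgClosed.lift
      exact ⟨e.restrictScalars K, fun x => e.commutes x⟩
    obtain ⟨h, hh⟩ := (emb_bijective ι).2 i'
    have h1 : ∀ x : F, ι (h (algebraMap F M x)) = i x := by
      intro x
      rw [← hi', ← hh]
      rfl
    have h2 : act K F (σ ^ n) i = i := by
      apply hrd
      ext a
      rw [rd_frob hQ, hi]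
    refine ⟨⟨(h : M →ₐ[K] M).comp (IsScalarTower.toAlgHom K F M), fun x => ?_⟩, ?_⟩
    · apply ι.injective
      change ι ((g ^ n) (h (algebraMap F M x))) = ι (h (algebraMap F M x))
      rw [← hpow, h1]
      exact DFunLike.congr_fun h2 x
    · apply Subtype.ext
      change rd Q _ = rd Q i
      congr 1
      ext x
      exact h1 x

end

section
variable {K : Type} [Field K] [NumberField K] (M : Type) [Field M] [NumberField M] [Algebra K M]

open scoped Classical in
/-- A Frobenius element at `v` in the Galois group of `M` over `K`. -/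
noncomputable def frob (v : HeightOneSpectrum (𝓞 K)) : M ≃ₐ[K] M :=
  if h : ∃ g : M ≃ₐ[K] M, IsFrobenius v g then h.choose else 1

variable {M}

theorem exists_isFrobenius [IsGalois K M] (v : HeightOneSpectrum (𝓞 K)) :
    ∃ g : M ≃ₐ[K] M, IsFrobenius v g := by
  obtain ⟨σ, Q, hQm, hQv, hQ⟩ := Pool.Agent.W401.Frob.exists_frob v
  have hQp : Q.IsPrime := hQm.isPrime
  let ι : M →ₐ[K] AlgebraicClosure K := IsAlgClosed.lift
  obtain ⟨g, hg⟩ := (emb_bijective ι).2 (act K M σ ι)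
  have hc : (Q.comap (oi ι)).comap (algebraMap (𝓞 K) (𝓞 M)) = v.asIdeal := by
    rw [← hQv]
    ext a
    rw [Ideal.mem_comap, Ideal.mem_comap, Ideal.mem_comap, oi_alg]
  have hp : (Q.comap (oi ι)).IsPrime := Ideal.comap_isPrime _ _
  have h0 : Q.comap (oi ι) ≠ ⊥ := by
    intro h
    apply v.ne_bot
    rw [← hc, h, ← RingHom.ker_eq_comap_bot]
    exact (RingHom.injective_iff_ker_eq_bot _).1 (FaithfulSMul.algebraMap_injective (𝓞 K) (𝓞 M))
  refine ⟨g, Q.comap (oi ι), hp.isMaximal h0, hc, fun x => ?_⟩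
  have hgx : IsIntegral ℤ (g (x : M)) := x.2.map g
  obtain ⟨y, hy⟩ : ∃ y : 𝓞 M, (y : M) = g (x : M) := ⟨⟨g (x : M), hgx⟩, rfl⟩
  refine ⟨y - x ^ Ideal.absNorm v.asIdeal, ?_, by rw [← hy]; rfl⟩
  rw [Ideal.mem_comap, map_sub, map_pow]
  have h1 : oi ι y = σ • oi ι x := by
    apply RingOfIntegers.ext
    have h2 : ι (g (x : M)) = σ (ι (x : M)) := DFunLike.congr_fun hg (x : M)
    rw [oi_coe, hy]
    exact h2
  rw [h1]
  exact hQ _

theorem frob_spec [IsGalois K M] (v : HeightOneSpectrum (𝓞 K)) :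
    IsFrobenius v (frob M v) := by
  unfold frob
  rw [dif_pos (exists_isFrobenius v)]
  exact (exists_isFrobenius (M := M) v).choose_spec

end

end Pool.Agent.Q92.AR
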