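import Pool.Agent.Q92.AR.Def

/-!
# Project AR: the reciprocity law of Artin for number fields, in the form needed for L-functions

GOAL (`S_AR`): for a Galois extension `M/F` of number fields and a character `ψ : Gal(M/F) → ℂˣ` there is
an `N` such that `∏ ψ(Frob_v)^{v(x)} = 1` for all `x ∈ Fˣ`, `x ≡ 1 mod N`, `x` totally positive.
So the Artin L-functions of all one-dimensional characters are the L-functions of ray class characters,
which have a continuation (Hecke, `Pool.Agent.Y773`, `Pool.Agent.Q246`): `S_Hol`.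

The proof is Artin's: first inequality (cyclic extensions) by Herbrand quotients of groups of
`S`-units which are `≡ 1` at the bad primes (no completions are needed), second inequality by
L-functions, reciprocity for cyclotomic extensions, and crossing with cyclotomic extensions.

All statements are in additive notation: `Dv F` is the group of divisors (fractional ideals) of `F`.
The notations are explained in `Pool.Agent.Q92.AR.Def`.
-/

set_option autoImplicit false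
set_option linter.unusedSectionVars false
set_option linter.deprecated false

namespace Pool.Agent.Q92.AR

open NumberField IsDedekindDomain Pool.Agent.Q5.BR

/-! ## Part A: algebra of Herbrand quotients -/

/-- JOB HEX. The Herbrand quotient is multiplicative in short exact sequences.
Proof: the hexagon `H0 A → H0 B → H0 C → H1 A → H1 B → H1 C → H0 A` is exact, where
`H0 = ker (σ-1) / tr`, `H1 = ker tr / (σ-1)`. -/
def S_Hex : Prop := ∀ (A B C : Type) [AddCommGroup A] [AddCommGroup B] [AddCommGroup C]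
  (α : AddMonoid.End A) (β : AddMonoid.End B) (γ : AddMonoid.End C) (i : A →+ B) (p : B →+ C)
  (n : ℕ), 0 < n → α ^ n = 1 → β ^ n = 1 → γ ^ n = 1 → Function.Injective i →
  Function.Surjective p → i.range = p.ker → (∀ a, i (α a) = β (i a)) → (∀ b, p (β b) = γ (p b)) →
  ((q0 α n ≠ 0 ∧ q1 α n ≠ 0 ∧ q0 γ n ≠ 0 ∧ q1 γ n ≠ 0 → q0 β n ≠ 0 ∧ q1 β n ≠ 0) ∧
   (q0 β n ≠ 0 ∧ q1 β n ≠ 0 ∧ q0 γ n ≠ 0 ∧ q1 γ n ≠ 0 → q0 α n ≠ 0 ∧ q1 α n ≠ 0) ∧
   (q0 α n ≠ 0 ∧ q1 α n ≠ 0 ∧ q0 β n ≠ 0 ∧ q1 β n ≠ 0 → q0 γ n ≠ 0 ∧ q1 γ n ≠ 0) ∧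
   (q0 α n ≠ 0 ∧ q1 α n ≠ 0 ∧ q0 β n ≠ 0 ∧ q1 β n ≠ 0 ∧ q0 γ n ≠ 0 ∧ q1 γ n ≠ 0 →
     q0 β n * q1 α n * q1 γ n = q1 β n * q0 α n * q0 γ n))

/-- JOB HFIN. The Herbrand quotient of a finite module is `1`. -/
def S_HFin : Prop := ∀ (A : Type) [AddCommGroup A] [Finite A] (σ : AddMonoid.End A) (n : ℕ),
  0 < n → σ ^ n = 1 → q0 σ n = q1 σ n ∧ q0 σ n ≠ 0

/-- JOB PERM. Permutation modules: `X` a finite set with a permutation `e`, `e^n = 1`, `Y` the set of
the orbits, `d y = n / |orbit|`: then `H1 = 0` and `H0` has order `∏ d y`. -/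
def S_Perm : Prop := ∀ (X Y : Type) [Fintype X] [Fintype Y] (e : Equiv.Perm X) (n : ℕ) (π : X → Y)
  (d : Y → ℕ) (σ : AddMonoid.End (X → ℤ)), 0 < n → e ^ n = 1 → Function.Surjective π →
  (∀ x x', π x = π x' ↔ ∃ k : ℕ, (e ^ k) x = x') → (∀ y, Nat.card {x // π x = y} * d y = n) →
  (∀ a x, σ a x = a (e x)) → q1 σ n = 1 ∧ q0 σ n = ∏ y, d y

/-! ## Part B: units -/

/-- JOB MAT. Let `L` be a real square matrix with negative entries off the diagonal and row sums `0`.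
Then a vector `a` with `a L = 0` is zero, or all its entries are positive, or all are negative.
Proof: `|a_w'| L_w'w' ≤ ∑_{w ≠ w'} |a_w| |L_ww'|`; the sum over `w'` shows that all are equalities;
so for every `w'` the `a_w` with `w ≠ w'` have one sign, the sign of `a_w'`; if `a_w' = 0`, all are 0. -/
def S_Mat : Prop := ∀ (W : Type) [Fintype W] (L : W → W → ℝ),
  (∀ w w', w ≠ w' → L w w' < 0) → (∀ w, ∑ w', L w w' = 0) → ∀ a : W → ℝ,
  (∀ w', ∑ w, a w * L w w' = 0) → (∀ w, 0 < a w) ∨ (∀ w, a w < 0) ∨ ∀ w, a w = 0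

/-- JOB EPS. Units `ε_w`, one for every infinite place of `E`, permuted by the Galois group, with
`|ε_w|_w' < 1` for `w' ≠ w`.
Proof: `NumberField.Units.dirichletUnitTheorem.exists_unit` gives `u_w`; put
`ε_w = ∏_g g u_{g⁻¹ w}`. (`prin x = 0` means that `x` is a unit of the ring of integers.) -/
def S_Eps : Prop := ∀ (F E : Type) [Field F] [NumberField F] [Field E] [NumberField E] [Algebra F E]
  [IsGalois F E], ∃ ε : InfinitePlace E → Eˣ, (∀ w, prin (ε w) = 0) ∧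
  (∀ (g : E ≃ₐ[F] E) w, (ε (g • w) : E) = g (ε w : E)) ∧
  ∀ w w' : InfinitePlace E, w' ≠ w → w' (ε w : E) < 1

/-- JOB UH. The Herbrand quotient of the unit group (and of every subgroup `U` of finite index):
`q0 * [E : F] = 2 ^ r * q1`, `r` the number of the real places of `F` that ramify in `E`.
Proof: take the `ε_w` of `S_Eps`, replaced by a power so that they lie in `U`;
`f : ℤ[places] → U`, `f(a) = ∏ ε_w^{a_w}` is equivariant; with `L w w' = mult w' * log |ε_w|_w'`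
(row sums `0` by the product formula) `S_Mat` shows that the kernel has rank at most one and that `σ`
acts trivially on it (a kernel vector has one sign, so `σ a = -a` is impossible; two kernel vectors are
proportional), and by Dirichlet's unit theorem the rank of `U` is (number of places) `- 1`, so the
kernel is `≅ ℤ` with trivial action (`q0 = n`, `q1 = 1`) and the image has finite index in `U`.
`S_Perm` for the places: `d v = 2` if `v` is a real place of `F` which ramifies, `1` otherwise.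
Then use `S_Hex` twice and `S_HFin`. -/
def S_UH : Prop := ∀ (F E : Type) [Field F] [NumberField F] [Field E] [NumberField E] [Algebra F E]
  [IsGalois F E] (σ : E ≃ₐ[F] E), (∀ g : E ≃ₐ[F] E, g ∈ Subgroup.zpowers σ) →
  ∀ (U : AddSubgroup (Additive Eˣ)) (τ : AddMonoid.End U), IsRes (sE σ) τ →
  (∀ u ∈ U, prin u.toMul = 0) → (∃ m : ℕ, m ≠ 0 ∧ ∀ x : Eˣ, prin x = 0 → Additive.ofMul (x ^ m) ∈ U) →
  q0 τ (Module.finrank F E) ≠ 0 ∧ q1 τ (Module.finrank F E) ≠ 0 ∧
  q0 τ (Module.finrank F E) * Module.finrank F E =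
    2 ^ Nat.card (RealRam F E) * q1 τ (Module.finrank F E)

/-! ## Part C: a cohomologically trivial congruence subgroup -/

/-- JOB VA. For a cyclic extension `E/F`, `Gal = ⟨σ⟩`, there is a stable subgroup `A` of `Eˣ` between two
congruence subgroups (`N1 ∣ N2`, the same primes divide both) such that `σ x / x ∈ A` implies
`x ∈ Fˣ A` (that is `H1(A) = 0`).
Proof.  Let `θ ∈ 𝓞 E` generate a normal basis of `E/F` (Mathlib: `IsGalois.normalBasis`),
`M = ∑ 𝓞_F g(θ)`, `d ≥ 1` an integer with `d 𝓞_E ⊆ M`, `N` a multiple of `N0 d`, `N ≥ 2`.  For a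
submodule `X` of `E` let `X' = {x / s : x ∈ X, s ∈ ℤ, gcd (s, N) = 1}`.  Put `V_k = 1 + N^k M'`.
For `k ≥ 2`: `N^k M' N^k M' ⊆ N^(2k) 𝓞' ⊆ N^(2k-1) M' ⊆ N^(k+1) M'`, so `V_k` is a group, stable under `σ`
(inverse: `N` lies in the Jacobson radical of `𝓞'`), and `V_k/V_(k+1) ≅ M/NM` is a free
`(𝓞_F/N)[G]`-module of rank one, so: if `x ∈ V_k` and `∏ g x ∈ V_(k+1)` (in particular if the norm of `x`
is `1`), then `x = (σ y / y) x'` with `y ∈ V_k`, `x' ∈ V_(k+1)`.
So if `x ∈ V_2` has norm one then for every `j` there is a `y_j ∈ V_2` with `x y_j / σ(y_j) ∈ V_j`.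
Put `A = V_2`, `N1 = N^2`, `N2 = N^2 d`.  Let `σ x / x ∈ A`; it has norm `1`; for large `j` (fixed in
terms of the denominator of `t` below) take `y_j` and put `z = x / y_j`: then `g z / z ∈ V_j` for all
`g`.  Let `t ∈ E` have trace `1`, `c = ∑_g g(t z) = z ∑ g(t) (g z / z) ∈ z (1 + N^2 M') `, `c ∈ F`.  So
`x ∈ c A`. -/
def S_VA : Prop := ∀ (F E : Type) [Field F] [NumberField F] [Field E] [NumberField E] [Algebra F E]
  [IsGalois F E] (σ : E ≃ₐ[F] E), (∀ g : E ≃ₐ[F] E, g ∈ Subgroup.zpowers σ) →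
  ∀ N0 : ℕ, N0 ≠ 0 → ∃ N1 N2 : ℕ, N1 ≠ 0 ∧ N2 ≠ 0 ∧ N0 ∣ N1 ∧ N1 ∣ N2 ∧ (∃ k, N2 ∣ N1 ^ k) ∧
  ∃ A : Subgroup Eˣ, (∀ x ∈ A, Units.map (σ : E →* E) x ∈ A) ∧
  (∀ x ∈ A, Cong N1 (x : E)) ∧ (∀ x : Eˣ, Cong N2 (x : E) → x ∈ A) ∧
  ∀ x : Eˣ, Units.map (σ : E →* E) x / x ∈ A → ∃ c : Fˣ, x / up F E c ∈ A

/-! ## Part D: finiteness and approximation -/

/-- JOB FIN. The ray class groups are finite (from the finiteness of the class group, of `𝓞/N` and of
the number of signs).  `N ≠ 0`. -/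
def S_Fin : Prop := ∀ (F : Type) [Field F] [NumberField F] (N : ℕ), N ≠ 0 →
  (RayD F N).relIndex (Pr F N) ≠ 0

/-- JOB SGN. Elements `≡ 1 mod N` with given signs at the real places (`F` is dense in the product of
the real completions; multiply by a large integer `≡ 1 mod N`, or use `1 + N y` with `y ∈ 𝓞 F`). -/
def S_Sgn : Prop := ∀ (F : Type) [Field F] [NumberField F] (N : ℕ), N ≠ 0 →
  ∀ s : (F →+* ℝ) → Prop, ∃ x : Fˣ, Cong N (x : F) ∧ ∀ φ : F →+* ℝ, (0 < φ x ↔ s φ)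

/-- JOB FRAC. An element of the ray is a quotient of two integral elements of the ray. -/
def S_Frac : Prop := ∀ (F : Type) [Field F] [NumberField F] (N : ℕ), N ≠ 0 → ∀ x ∈ Ray F N,
  ∃ a b : 𝓞 F, a ≠ 0 ∧ b ≠ 0 ∧ (N : 𝓞 F) ∣ a - 1 ∧ (N : 𝓞 F) ∣ b - 1 ∧ Pos (a : F) ∧ Pos (b : F) ∧
  (x : F) * b = a

/-- JOB NM. Norms of divisors and of elements. -/
def S_Nm : Prop := ∀ (F E : Type) [Field F] [NumberField F] [Field E] [NumberField E] [Algebra F E],
  (∀ x : Eˣ, nmD F E (prin x) = prin (nu F E x)) ∧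
  (∀ (N : ℕ) (x : Eˣ), N ≠ 0 → Cong N (x : E) → Cong N (nu F E x : F)) ∧
  (∀ (N : ℕ), N ≠ 0 → ∀ x ∈ Ray E N, nu F E x ∈ Ray F N) ∧
  (∀ (N : ℕ), ∀ D ∈ Pr E N, nmD F E D ∈ Pr F N) ∧
  (∀ (φ : F →+* ℝ) (x : Eˣ), (¬ ∃ χ : E →+* ℝ, χ.comp (algebraMap F E) = φ) → 0 < φ (nu F E x : F)) ∧
  (∀ (N : ℕ) (c : Fˣ), N ≠ 0 → Cong N (c : F) → Cong N (up F E c : E))

/-- JOB TOW. The norm of divisors in a tower. -/
def S_Tow : Prop := ∀ (F L E : Type) [Field F] [NumberField F] [Field L] [NumberField L] [Field E]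
  [NumberField E] [Algebra F L] [Algebra L E] [Algebra F E] [IsScalarTower F L E] (D : Dv E),
  nmD F L (nmD L E D) = nmD F E D

/-- JOB SD. The Galois action on divisors. In (4), (5) the primes that ramify divide `N`. -/
def S_SD : Prop := ∀ (F E : Type) [Field F] [NumberField F] [Field E] [NumberField E] [Algebra F E]
  [IsGalois F E] (σ : E ≃ₐ[F] E), (∀ g : E ≃ₐ[F] E, g ∈ Subgroup.zpowers σ) →
  (∀ x : Additive Eˣ, prin (sE σ x).toMul = sD σ (prin x.toMul)) ∧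
  (∀ D : Dv E, nmD F E (sD σ D) = nmD F E D) ∧
  (∀ (D : Dv F) (w : HeightOneSpectrum (𝓞 E)), puD F E D w = D (w.under (𝓞 F))) ∧
  (∀ (N : ℕ), Ram F E N → ∀ D ∈ Pr E N,
    tr (sD σ) (Module.finrank F E) D = puD F E (nmD F E D)) ∧
  (∀ (N : ℕ), Ram F E N → ∀ c : Fˣ, prin c ∈ Pr F N → prin (up F E c) = puD F E (prin c)) ∧
  (∀ D : Dv E, sD σ D = D → ∃ D' : Dv F, D = puD F E D') ∧
  (∀ T : Set (HeightOneSpectrum (𝓞 F)), T.Finite → ∀ ι : AddMonoid.End (SupE F E T), IsRes (sD σ) ι →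
    q0 ι (Module.finrank F E) ≠ 0 ∧ q1 ι (Module.finrank F E) = 1)

/-! ## Part E: the first inequality -/

/-- JOB Q1. `H1` of the `S`-units in `A` is zero.
Proof: `tr x = 0` means that the norm of `x` is `1`, so `x = σ y / y` (Hilbert 90), so `y = c a` with
`c ∈ Fˣ`, `a ∈ A`, and `x = σ a / a`.  The divisor of `a` is fixed by `σ` outside the primes above
`T`, so its part outside `T` is `puD D'` with `D' ∈ Pr F N` supported outside `T`; by the hypothesis
there is a `c' ∈ Fˣ ∩ A` with `D' - prin c' ∈ SupF F T`; replace `a` by `a / c'`. -/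
def S_Q1 : Prop := ∀ (F E : Type) [Field F] [NumberField F] [Field E] [NumberField E] [Algebra F E]
  [IsGalois F E] (σ : E ≃ₐ[F] E), (∀ g : E ≃ₐ[F] E, g ∈ Subgroup.zpowers σ) →
  ∀ (N : ℕ) (A : Subgroup Eˣ) (T : Set (HeightOneSpectrum (𝓞 F))), N ≠ 0 → Ram F E N →
  (∀ x ∈ A, Cong N (x : E)) →
  (∀ x : Eˣ, Units.map (σ : E →* E) x / x ∈ A → ∃ c : Fˣ, x / up F E c ∈ A) →
  (∀ D ∈ Pr F N, ∃ c : Fˣ, up F E c ∈ A ∧ D - prin c ∈ SupF F T) →
  ∀ τ : AddMonoid.End (AS (F := F) A T), IsRes (sE σ) τ → q1 τ (Module.finrank F E) = 1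

/-- JOB HAS. The Herbrand quotient of the `S`-units in `A`.
Proof: `AS A T → SupE F E T`, `x ↦ prin x` has kernel the units in `A` (`S_UH`; `A` contains all units
`≡ 1 mod N2`) and image of finite index (every divisor in `SupE F E T` has a positive multiple which is
the divisor of an element `≡ 1 mod N2`: `S_Fin`).  `S_Hex` three times, `S_HFin`, `S_SD` (7). -/
def S_HAS : Prop := ∀ (F E : Type) [Field F] [NumberField F] [Field E] [NumberField E] [Algebra F E]
  [IsGalois F E] (σ : E ≃ₐ[F] E), (∀ g : E ≃ₐ[F] E, g ∈ Subgroup.zpowers σ) →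
  ∀ (N N2 : ℕ) (A : Subgroup Eˣ) (T : Set (HeightOneSpectrum (𝓞 F))), N ≠ 0 → N2 ≠ 0 → N ∣ N2 →
  (∃ k, N2 ∣ N ^ k) → (∀ x ∈ A, Cong N (x : E)) → (∀ x : Eˣ, Cong N2 (x : E) → x ∈ A) →
  T.Finite → (∀ v ∈ T, (N : 𝓞 F) ∉ v.asIdeal) →
  ∀ (τ : AddMonoid.End (AS (F := F) A T)) (ι : AddMonoid.End (SupE F E T)), IsRes (sE σ) τ →
  IsRes (sD σ) ι → q0 τ (Module.finrank F E) ≠ 0 ∧ q1 τ (Module.finrank F E) ≠ 0 ∧
  q0 τ (Module.finrank F E) * Module.finrank F E * q1 ι (Module.finrank F E) =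
    2 ^ Nat.card (RealRam F E) * q0 ι (Module.finrank F E) * q1 τ (Module.finrank F E)

/-- JOB FIRST. The first inequality.
Proof.  Take `N1, N2, A` from `S_VA` for a multiple of `N0` divisible by the primes that ramify.  By
`S_Fin` and `S_Sgn` there is a finite set `T` of primes of `F`, not dividing `N1`, such that
(T1) for every `D ∈ Pr F N1` there is a `c ∈ Ray F N2` with `D - prin c ∈ SupF F T`;
(T2) for every `D ∈ Pr E N1` there is an `x ∈ A` with `D - prin x ∈ SupE F E T`;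
(T3) for all signs at the real places of `F` there is a `c ∈ Fˣ`, `up c ∈ A`, with these signs,
`prin c ∈ SupF F T`.
(`Pr F N1 = Pr F N2` as the same primes divide `N1` and `N2`.)
Let `Q = {c ∈ Fˣ : up c ∈ A, φ c > 0 for the real places φ that ramify}`, `r` their number, `I = SupE F E T`,
`J = SupF F T`.  `HN F E N2 ≤ prin Q + nmD (Pr E N2) = prin Q + nmD I` by (T2) and `S_Nm` (5), and
`Pr F N2 = prin Q + J` by (T1).  So the index is at least
`[J : (prin Q ∩ J) + nmD I] = [J : nmD I] / [(prin Q ∩ J) + nmD I : nmD I]`.  Here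
`[J : nmD I] = q0 ι` (`puD` identifies `J` with the fixed elements of `I`, `tr = puD ∘ nmD`), and the
denominator is at most `[(Q ∩ AS) : nu (AS)] = q0 τ / [Fˣ ∩ AS : Q ∩ AS] = q0 τ / 2 ^ r` by (T3).
So the index is `≥ q0 ι * 2 ^ r / q0 τ = [E : F]` by `S_HAS`, `S_Q1`, `S_SD` (7). -/
def S_First : Prop := ∀ (F E : Type) [Field F] [NumberField F] [Field E] [NumberField E] [Algebra F E]
  [IsGalois F E] (σ : E ≃ₐ[F] E), (∀ g : E ≃ₐ[F] E, g ∈ Subgroup.zpowers σ) →
  ∀ N0 : ℕ, N0 ≠ 0 → ∃ N : ℕ, N ≠ 0 ∧ N0 ∣ N ∧ Ram F E N ∧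
  ((HN F E N).relIndex (Pr F N) = 0 ∨ Module.finrank F E ≤ (HN F E N).relIndex (Pr F N))

end Pool.Agent.Q92.AR
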