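import Pool.Agent.Q246.Unram2

/-!
# The functional equation of the Dedekind zeta function, with root number one
-/

set_option autoImplicit false
set_option linter.unusedSectionVars false
set_option linter.unusedVariables false

open NumberField Complex Filter Topology Set MeasureTheory
open scoped ComplexConjugate

namespace Pool.Agent.Q92.AR

open Pool.Agent.Q246.Unr
open Pool.Agent.Y773 hiding sg Ps rl Nice Ftot hf
open Pool.Agent.Y773.G (sg Ps Nice Ftot G00 hf ex)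

variable {K : Type} [Field K] [NumberField K]
variable {e : InfinitePlace K → ℕ} {ψ : Ideal (𝓞 K) →*₀ ℂ}

/-- **Continuation and functional equation, unramified characters**, as `UC.fe`; the root number of
the trivial character is `1`. -/
theorem fe_one (h : UC e ψ) : ∃ (U : ℂ → ℂ) (w : ℂ), Differentiable ℂ U ∧ ‖w‖ = 1 ∧
    (Triv ψ → (∀ w, e w = 0) → w = 1) ∧
    (open Classical in ∀ s : ℂ, 1 < s.re → U s = (s * (s - 1)) ^ (if Triv ψ then 1 else 0) *
      (GG (Ideal.absNorm (differentIdeal ℤ (𝓞 K)) : ℝ) (ex e) s * LI ψ s)) ∧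
    (∀ s, U s = w * conj (U (1 - conj s))) := by
  classical
  have h𝔡 : differentIdeal ℤ (𝓞 K) ≠ ⊥ := differentIdeal_ne_bot
  obtain ⟨V, hV, hweak⟩ := G.fam_weak K
  obtain ⟨C, hC, hmel⟩ := G.mellin_Ftot K
  set 𝔟 : ClassGroup (𝓞 K) → Ideal (𝓞 K) := rp K with h𝔟d
  have h𝔟 : Reps 𝔟 := reps_rp
  have hb : ∀ c, 𝔟 c ≠ ⊥ := h𝔟.ne_bot
  have htop : (⊤ : Ideal (𝓞 K)) ≠ ⊥ := top_ne_bot
  set m := mm 𝔟 ⊤ with hm
  set D := Dd K with hD
  have hm0 : 0 < m := mm_pos hb htop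
  have hD0 : 0 < D := Dd_pos
  have hmm : ∀ c, (m : 𝓞 K) ∈ 𝔟 c := fun c => by
    have := mm_mem 𝔟 (⊤ : Ideal (𝓞 K)) c
    rwa [Ideal.mul_top] at this
  have hcompl : ∀ c, ∃ 𝔟' : Ideal (𝓞 K),
      𝔟' * (𝔟 c * differentIdeal ℤ (𝓞 K)) = Ideal.span {((m * D : ℕ) : 𝓞 K)} := by
    intro c
    have h1 : ((m * D : ℕ) : 𝓞 K) ∈ 𝔟 c * differentIdeal ℤ (𝓞 K) := by
      push_cast
      exact Ideal.mul_mem_mul (hmm c) Dd_mem
    obtain ⟨𝔞, h𝔞⟩ := G.mem_iff_exists_mul.1 h1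
    exact ⟨𝔞, h𝔞⟩
  choose 𝔟' h𝔟' using hcompl
  have hR' : Reps 𝔟' := G.reps_compl htop h𝔟 (Nat.mul_pos hm0 hD0) (fun c => by
    rw [Ideal.mul_top]; exact h𝔟' c)
  have hb' : ∀ c, 𝔟' c ≠ ⊥ := hR'.ne_bot
  set Φ : ClassGroup (𝓞 K) → 𝓞 K → ℂ := fun c => Ph ψ (𝔟 c) with hΦ
  have hB : ∀ c x, ‖Φ c x‖ ≤ 1 := fun c x => h.norm_Ph_le (hb c) x
  have hB' : ∀ c x, ‖Ph ψ (𝔟' c) x‖ ≤ 1 := fun c x => h.norm_Ph_le (hb' c) x
  have hE : ∀ c, G.Eqv e (Φ c) := fun c => h.eqv _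
  obtain ⟨P, hPf, hPg, hPk, hPε, hPf0, hPg0⟩ := hweak 𝔟 h𝔟 e h.he h.cpx Φ 1 hB hE m D hm0 hD0 Dd_mem
    (fun c x z => per (hmm c) x z)
  have hN : ∀ c, Nice e (Ps ψ e (𝔟 c)) := fun c => by
    rw [← h.rz_Ph (hb c)]
    exact G.rz_nice h.he h.cpx (hB c) (hE c)
  have hN' : ∀ c, Nice e (Ps ψ e (𝔟' c)) := fun c => by
    rw [← h.rz_Ph (hb' c)]
    exact G.rz_nice h.he h.cpx (hB' c) (h.eqv _)
  set R : ℝ := (Ideal.absNorm (differentIdeal ℤ (𝓞 K)) : ℝ) with hRdef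
  have hR1 : 1 ≤ R := by
    rw [hRdef]
    exact_mod_cast Nat.one_le_iff_ne_zero.mpr fun h1 => h𝔡 (Ideal.absNorm_eq_zero_iff.mp h1)
  have hR0 : 0 < R := by linarith
  have hRc : (R : ℂ) ≠ 0 := by exact_mod_cast hR0.ne'
  set τ : ℂ := ψ (differentIdeal ℤ (𝓞 K)) with hτ
  set A : ℂ := τ * (m : ℂ) ^ (Module.finrank ℚ K) with hA
  set G1 : ℂ → ℂ := fun s => C * ((∏ φ : K →+* ℂ, Complex.Gammaℝ (s + ex e φ)) * LI ψ s) with hG1
  -- values at zero
  have hΦ0 : ∀ c, Φ c 0 = (ψ (𝔟 c))⁻¹ := fun c => by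
    rw [hΦ]
    unfold Ph
    simp
  have hΦ0' : ∀ c, Ph ψ (𝔟' c) 0 = (ψ (𝔟' c))⁻¹ := fun c => by
    unfold Ph
    simp
  have hft : ∀ c x, FT D m (Φ c) x = τ * ((m : ℂ) ^ (Module.finrank ℚ K) /
      (Ideal.absNorm (𝔟 c) : ℂ)) * conj (Ph ψ (𝔟' c) x) := fun c x =>
    h.ft hm0 hD0 (h𝔟' c) (hmm c) x
  -- the first function
  have hf1 : (fun t => P.f t - P.f₀) = Ftot ψ e 𝔟 := by
    funext t
    rw [hPf, hPf0]
    unfold G.FF G.Ftot
    simp_rw [fun c => G.hf_rz h.he (hB c) ((Ideal.absNorm (𝔟 c) : ℝ)⁻¹ * t),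
      fun c => show rz (Φ c) = Ps ψ e (𝔟 c) from h.rz_Ph (hb c)]
    rw [Finset.sum_add_distrib, ← Finset.sum_mul]
    ring
  have hΛ1 : ∀ s : ℂ, 1 < s.re → P.Λ s = G1 s := by
    intro s hs
    have h1 := (P.hasMellin (s := s) (by rw [hPk]; exact hs)).2
    rw [← h1, hf1]
    exact (hmel 𝔟 h𝔟 e ψ h.norm_le_one hN s hs).2
  -- the second function
  have hg1 : (fun t => P.g t - P.g₀) = fun t => A • conj (Ftot ψ e 𝔟' (R⁻¹ * t)) := by
    funext t
    rw [hPg, hPg0, smul_eq_mul]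
    unfold G.FG G.Ftot
    rw [Finset.mul_sum, ← Finset.sum_sub_distrib, map_sum, Finset.mul_sum]
    refine Finset.sum_congr rfl fun c _ => ?_
    have hNb : (Ideal.absNorm (𝔟 c) : ℂ) ≠ 0 := by
      exact_mod_cast (fun h1 => hb c (Ideal.absNorm_eq_zero_iff.mp h1))
    have hNbR : (Ideal.absNorm (𝔟 c) : ℝ) ≠ 0 := by
      exact_mod_cast (fun h1 => hb c (Ideal.absNorm_eq_zero_iff.mp h1))
    have hNb'R : (Ideal.absNorm (𝔟' c) : ℝ) ≠ 0 := by
      exact_mod_cast (fun h1 => hb' c (Ideal.absNorm_eq_zero_iff.mp h1))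
    have h2 : t * (Ideal.absNorm (𝔟 c) : ℝ) / ((m * D : ℕ) : ℝ) ^ (Module.finrank ℚ K) =
        (Ideal.absNorm (𝔟' c) : ℝ)⁻¹ * (R⁻¹ * t) := by
      have h3 := congrArg Ideal.absNorm (h𝔟' c)
      rw [map_mul, map_mul, absNorm_span_nat] at h3
      have h4 : ((m * D : ℕ) : ℝ) ^ (Module.finrank ℚ K) = (Ideal.absNorm (𝔟' c) : ℝ) *
          ((Ideal.absNorm (𝔟 c) : ℝ) * R) := by
        rw [hRdef]
        exact_mod_cast h3.symm
      rw [h4]
      field_simp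
    have h5 : (FT D m (Φ c)) = fun x => (τ * ((m : ℂ) ^ (Module.finrank ℚ K) /
      (Ideal.absNorm (𝔟 c) : ℂ))) * conj (Ph ψ (𝔟' c) x) := funext (hft c)
    rw [h2, h5, G.hf_conj, G.hf_rz h.he (hB' c), h.rz_Ph (hb' c), map_add, map_mul]
    simp only []
    have hG00 : conj (G00 e) = G00 e := by
      unfold G.G00
      exact Complex.conj_ofReal _
    rw [hG00, hA]
    field_simp
    ring
  have hconjR : ∀ z : ℂ, conj ((R : ℂ) ^ z) = (R : ℂ) ^ (conj z) := by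
    intro z
    have h7 : ((R : ℝ) : ℂ).arg ≠ Real.pi := by
      rw [Complex.arg_ofReal_of_nonneg hR0.le]
      exact Real.pi_ne_zero.symm
    have h8 := Complex.conj_cpow (R : ℂ) (conj z) h7
    rw [Complex.conj_ofReal, Complex.conj_conj] at h8
    exact h8.symm
  have hΛ2 : ∀ s : ℂ, 1 < s.re → P.symm.Λ s = A * ((R : ℂ) ^ s * conj (G1 (conj s))) := by
    intro s hs
    have h1 := (P.symm.hasMellin (s := s) (by
      show P.k < s.re
      rw [hPk]; exact hs)).2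
    have h0 : (fun t => P.symm.f t - P.symm.f₀) = fun t => P.g t - P.g₀ := rfl
    rw [h0, hg1] at h1
    rw [← h1, mellin_const_smul, smul_eq_mul, mellin_conj (fun t => Ftot ψ e 𝔟' (R⁻¹ * t)),
      mellin_comp_mul_left _ _ (inv_pos.mpr hR0), smul_eq_mul, map_mul,
      (hmel 𝔟' hR' e ψ h.norm_le_one hN' (conj s) (by rw [Complex.conj_re]; exact hs)).2]
    congr 2
    have h6 : (((R⁻¹ : ℝ) : ℂ)) ^ (-(conj s)) = (R : ℂ) ^ (conj s) := by
      rw [Complex.cpow_def_of_ne_zero (by exact_mod_cast (inv_pos.mpr hR0).ne'),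
        ← Complex.ofReal_log (inv_pos.mpr hR0).le, Real.log_inv,
        Complex.cpow_def_of_ne_zero hRc, ← Complex.ofReal_log hR0.le]
      congr 1
      push_cast
      ring
    rw [h6, hconjR, Complex.conj_conj]
  set κ : ℂ := P.ε with hκ
  have hfe0 : ∀ s : ℂ, 1 < s.re → P.Λ (1 - s) = κ * (A * ((R : ℂ) ^ s * conj (P.Λ (conj s)))) := by
    intro s hs
    have h1 := P.functional_equation s
    rw [hPk, smul_eq_mul, hΛ2 s hs, ← hΛ1 (conj s) (by rw [Complex.conj_re]; exact hs)] at h1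
    simpa using h1
  -- the entire function
  set r : ℕ := if Triv ψ then 1 else 0 with hr
  have hent : ∃ U0 : ℂ → ℂ, Differentiable ℂ U0 ∧ (∀ s : ℂ, s ≠ 0 → s ≠ 1 →
      U0 s = (s * (s - 1)) ^ r * P.Λ s) ∧
      ∀ a b : ℝ, ∃ C : ℝ, 0 ≤ C ∧ ∀ s : ℂ, a ≤ s.re → s.re ≤ b → ‖U0 s‖ ≤ C * (1 + ‖s‖) ^ 2 := by
    have hconv : ∀ s, MellinConvergent P.f_modif s := fun s =>
      (P.isStrongFEPair_toStrongFEPair.hasMellin s).1
    by_cases hψ : Triv ψ
    · have hr1 : r = 1 := if_pos hψ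
      refine ⟨fun s => s * (s - 1) * P.Λ₀ s - (s - 1) * P.f₀ + s * (P.ε * P.g₀), ?_, ?_, ?_⟩
      · have := P.differentiable_Λ₀
        fun_prop
      · intro s h0 h1
        have h1' : s - 1 ≠ 0 := sub_ne_zero.2 h1
        have h1'' : 1 - s ≠ 0 := sub_ne_zero.2 h1.symm
        rw [hr1, pow_one]
        unfold WeakFEPair.Λ
        rw [hPk, smul_eq_mul, smul_eq_mul]
        push_cast
        have e1 : s * (s - 1) * (1 / s * P.f₀) = (s - 1) * P.f₀ := by field_simp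
        have e2 : s * (s - 1) * (P.ε / (1 - s) * P.g₀) = -(s * (P.ε * P.g₀)) := by
          field_simp
          ring
        linear_combination e1 + e2
      · intro a b
        obtain ⟨C', hC'⟩ := mellin_strip_bound hconv a b
        refine ⟨|C'| + ‖P.f₀‖ + ‖P.ε * P.g₀‖, by positivity, fun s ha hb => ?_⟩
        have h1 : ‖P.Λ₀ s‖ ≤ |C'| := (hC' s ha hb).trans (le_abs_self _)
        have h2 : ‖s - 1‖ ≤ 1 + ‖s‖ := by
          refine (norm_sub_le _ _).trans ?_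
          rw [NormOneClass.norm_one, add_comm]
        have h3 : ‖s‖ ≤ 1 + ‖s‖ := by linarith
        have h4 : 1 ≤ 1 + ‖s‖ := by linarith [norm_nonneg s]
        calc ‖s * (s - 1) * P.Λ₀ s - (s - 1) * P.f₀ + s * (P.ε * P.g₀)‖
            ≤ ‖s * (s - 1) * P.Λ₀ s‖ + ‖(s - 1) * P.f₀‖ + ‖s * (P.ε * P.g₀)‖ :=
              (norm_add_le _ _).trans (add_le_add_left (norm_sub_le _ _) _)
          _ = ‖s‖ * ‖s - 1‖ * ‖P.Λ₀ s‖ + ‖s - 1‖ * ‖P.f₀‖ + ‖s‖ * ‖P.ε * P.g₀‖ := by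
              rw [norm_mul, norm_mul, norm_mul, norm_mul]
          _ ≤ (1 + ‖s‖) * (1 + ‖s‖) * |C'| + (1 + ‖s‖) * ‖P.f₀‖ + (1 + ‖s‖) * ‖P.ε * P.g₀‖ := by
              gcongr
          _ ≤ (1 + ‖s‖) ^ 2 * |C'| + (1 + ‖s‖) ^ 2 * ‖P.f₀‖ + (1 + ‖s‖) ^ 2 * ‖P.ε * P.g₀‖ := by
              have h5 : 1 + ‖s‖ ≤ (1 + ‖s‖) ^ 2 := by nlinarith
              have h6 : (1 + ‖s‖) * (1 + ‖s‖) = (1 + ‖s‖) ^ 2 := by ring
              rw [h6]
              gcongr
          _ = _ := by ring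
    · have hr0 : r = 0 := if_neg hψ
      have hf0 : P.f₀ = 0 := by
        rw [hPf0]
        simp_rw [hΦ0]
        exact h.const hψ h𝔟
      have hg0 : P.g₀ = 0 := by
        rw [hPg0]
        have h1 : ∀ c, (Ideal.absNorm (𝔟 c) : ℂ) * FT D m (Φ c) 0 =
            (τ * (m : ℂ) ^ (Module.finrank ℚ K)) * conj ((ψ (𝔟' c))⁻¹) := by
          intro c
          have hNb : (Ideal.absNorm (𝔟 c) : ℂ) ≠ 0 := by
            exact_mod_cast (fun h1 => hb c (Ideal.absNorm_eq_zero_iff.mp h1))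
          rw [hft c 0, hΦ0']
          field_simp
        simp_rw [h1]
        rw [← Finset.mul_sum, ← map_sum]
        have hG00 : conj (G00 e) = G00 e := by
          unfold G.G00
          exact Complex.conj_ofReal _
        have h2 := congrArg conj (h.const hψ hR')
        rw [map_mul, hG00, map_zero] at h2
        linear_combination (τ * (m : ℂ) ^ (Module.finrank ℚ K)) * h2
      refine ⟨P.Λ, fun s => P.differentiableAt_Λ (Or.inr hf0) (Or.inr hg0), fun s _ _ => by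
        rw [hr0, pow_zero, one_mul], fun a b => ?_⟩
      obtain ⟨C', hC'⟩ := mellin_strip_bound hconv a b
      refine ⟨|C'|, abs_nonneg _, fun s ha hb => ?_⟩
      have h1 : P.Λ s = P.Λ₀ s := by
        unfold WeakFEPair.Λ
        rw [hf0, hg0]
        simp
      have h2 : ‖P.Λ₀ s‖ ≤ |C'| := (hC' s ha hb).trans (le_abs_self _)
      rw [h1]
      have h4 : 1 ≤ (1 + ‖s‖) ^ 2 := one_le_pow₀ (by linarith [norm_nonneg s])
      nlinarith [abs_nonneg C']
  obtain ⟨U0, hU0, hU0e, hU0b⟩ := hent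
  have hne : ∀ s : ℂ, 1 < s.re → s ≠ 0 ∧ s ≠ 1 ∧ 1 - s ≠ 0 ∧ 1 - s ≠ 1 := by
    intro s hs
    refine ⟨?_, ?_, ?_, ?_⟩
    · rintro rfl; simp at hs; linarith
    · rintro rfl; simp at hs
    · intro h1
      have := congrArg Complex.re h1
      simp at this
      linarith
    · intro h1
      have := congrArg Complex.re h1
      simp at this
      linarith
  -- the functional equation of `U0`
  have hfeU : ∀ s : ℂ, U0 (1 - s) = κ * (A * ((R : ℂ) ^ s * conj (U0 (conj s)))) := by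
    have hd1 : Differentiable ℂ fun s : ℂ => U0 (1 - s) :=
      hU0.comp (by fun_prop)
    have hd2 : Differentiable ℂ fun s : ℂ => conj (U0 (conj s)) := by
      intro s
      have h4 := (hU0 (conj s)).hasDerivAt.conj_conj
      rw [Complex.conj_conj] at h4
      exact h4.differentiableAt
    have hd3 : Differentiable ℂ fun s : ℂ => (R : ℂ) ^ s := fun s =>
      (differentiableAt_id).const_cpow (Or.inl hRc)
    have hd4 : Differentiable ℂ fun s : ℂ => κ * (A * ((R : ℂ) ^ s * conj (U0 (conj s)))) :=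
      ((hd3.mul hd2).const_mul A).const_mul κ
    have := entire_eq hd1 hd4 fun s hs => by
      obtain ⟨n1, n2, n3, n4⟩ := hne s hs
      have hs' : 1 < (conj s).re := by rw [Complex.conj_re]; exact hs
      obtain ⟨n5, n6, -, -⟩ := hne (conj s) hs'
      show U0 (1 - s) = κ * (A * ((R : ℂ) ^ s * conj (U0 (conj s))))
      rw [hU0e _ n3 n4, hU0e _ n5 n6, hfe0 s hs]
      simp only [map_mul, map_pow, map_sub, map_one, Complex.conj_conj]
      have e1 : (1 - s) * (1 - s - 1) = s * (s - 1) := by ring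
      rw [e1]
      ring
    exact fun s => congrFun this s
  -- normalisation
  set L : ℂ → ℂ := fun s => (R : ℂ) ^ (s / 2) * U0 s with hL
  set w : ℂ := κ * A * (R : ℂ) ^ (1 / 2 : ℂ) with hw
  have hLfe : ∀ s, L s = w * conj (L (1 - conj s)) := by
    intro s
    have h5 := hfeU (1 - s)
    rw [sub_sub_cancel, map_sub, map_one] at h5
    rw [hL]
    simp only
    rw [h5, map_mul, hconjR, hw]
    have h6 : conj ((1 - conj s) / 2) = (1 - s) / 2 := by
      have h20 : conj (2 : ℂ) = 2 := map_ofNat (starRingEnd ℂ) 2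
      rw [map_div₀, map_sub, map_one, Complex.conj_conj, h20]
    rw [h6]
    have h7 : (R : ℂ) ^ (s / 2) * (R : ℂ) ^ (1 - s) = (R : ℂ) ^ (1 / 2 : ℂ) * (R : ℂ) ^ ((1 - s) / 2) := by
      rw [← Complex.cpow_add _ _ hRc, ← Complex.cpow_add _ _ hRc]
      congr 1
      ring
    linear_combination (κ * A * conj (U0 (1 - conj s))) * h7
  have hCc : (C : ℂ) ≠ 0 := by exact_mod_cast hC.ne'
  have hLval : ∀ s : ℂ, 1 < s.re → L s = C * ((s * (s - 1)) ^ r * (GG R (ex e) s * LI ψ s)) := by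
    intro s hs
    obtain ⟨n1, n2, -, -⟩ := hne s hs
    rw [hL]
    simp only
    rw [hU0e s n1 n2, hΛ1 s hs, hG1]
    unfold GG
    ring
  have hL2 : L 2 ≠ 0 := by
    have h5 : (1 : ℝ) < (2 : ℂ).re := by norm_num
    rw [hLval 2 h5]
    obtain ⟨A', -, hd⟩ := Pool.Agent.Y772.DK.t_dirK K
    have h6 := (hd ψ h.norm_le_one).2.2.1 2 h5
    refine mul_ne_zero hCc (mul_ne_zero (pow_ne_zero _ (by norm_num)) (mul_ne_zero ?_ h6))
    unfold GG
    refine mul_ne_zero ?_ (G.gam_ne_zero (ex e) (by norm_num))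
    rw [Ne, Complex.cpow_eq_zero_iff]
    exact fun h => hRc h.1
  have hw1 : ‖w‖ = 1 := by
    have h5 := hLfe 2
    have h6 := hLfe (1 - conj 2)
    rw [h6, map_mul] at h5
    have h7 : 1 - conj (1 - conj (2 : ℂ)) = 2 := by
      rw [map_sub, map_one, Complex.conj_conj]
      ring
    rw [h7, Complex.conj_conj] at h5
    have h8 : w * conj w = 1 := by
      have : (w * conj w) * L 2 = 1 * L 2 := by linear_combination -h5
      exact mul_right_cancel₀ hL2 this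
    rw [Complex.mul_conj, Complex.normSq_eq_norm_sq] at h8
    have h9 : ‖w‖ ^ 2 = 1 := by exact_mod_cast h8
    have := norm_nonneg w
    nlinarith
  refine ⟨fun s => (C : ℂ)⁻¹ * L s, w, ?_, hw1, fun htr he0 => ?_, fun s hs => ?_, fun s => ?_⟩
  · have hd3 : Differentiable ℂ fun s : ℂ => (R : ℂ) ^ (s / 2) := fun s =>
      ((differentiableAt_id).div_const 2).const_cpow (Or.inl hRc)
    exact (hd3.mul hU0).const_mul _
  · have hτ1 : τ = 1 := htr _ h𝔡
    have heM : ∑ φ : K →+* ℂ, G.eM e φ = 0 := Finset.sum_eq_zero fun φ _ => he0 _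
    have hm1 : ((m : ℂ) ^ (Module.finrank ℚ K)) ≠ 0 := by
      refine pow_ne_zero _ ?_
      exact_mod_cast hm0.ne'
    have hwr : w = ((V⁻¹ * R ^ (1 / 2 : ℝ) : ℝ) : ℂ) := by
      rw [hw, hPε, heM, pow_zero, hA, hτ1, Complex.ofReal_mul,
        Complex.ofReal_cpow hR0.le]
      push_cast
      field_simp
    have hpos : 0 ≤ V⁻¹ * R ^ (1 / 2 : ℝ) := by positivity
    rw [hwr, Complex.norm_real, Real.norm_of_nonneg hpos] at hw1
    rw [hwr, hw1, Complex.ofReal_one]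
  · simp only
    rw [hLval s hs]
    field_simp
  · simp only
    rw [map_mul, hLfe s]
    have h5 : conj ((C : ℂ)⁻¹) = (C : ℂ)⁻¹ := by
      rw [map_inv₀, Complex.conj_ofReal]
    rw [h5]
    ring

end Pool.Agent.Q92.AR
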